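import Pool.Agent.Lib.MP_1d263a_an.PA.Stm

/-! # Carpet project, part A, piece add: additivity of the measure on cells -/

set_option autoImplicit false

namespace Pool.Agent.Lib.MP_1d263a_an.PA

open MeasureTheory CarpetPI
open scoped ENNReal

theorem p_add (hgeo : S_geo) (htop : S_top) (hnull : S_null) (hmem : S_mem) (halv : S_alv) :
    S_add := by
  intro X _ _ _ f H μ p C hp hC hM hAR k a ha n
  obtain ⟨-, -, -, -, -, -, g7, -, g9⟩ := hgeo
  have hlt : ∀ b ∈ I n, b.1 < 3 ^ n ∧ b.2 < 3 ^ n := fun b hb => by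
    have := mem_I.1 hb
    exact ⟨this.1, this.2.1⟩
  have hsb : ∀ b ∈ I n, sb n a b ∈ I (k + n) := fun b hb =>
    (halv k n a b (hlt b hb).1 (hlt b hb).2).2 ⟨ha, hb⟩
  have e : f '' Cl k a = ⋃ b ∈ I n, f '' Cl (k + n) (sb n a b) := by
    ext ξ
    simp only [Set.mem_iUnion, Set.mem_image, exists_prop]
    constructor
    · rintro ⟨q, hq, rfl⟩
      obtain ⟨b, hb, hqb⟩ := hmem k a ha q hq n
      exact ⟨b, hb, q, hqb, rfl⟩
    · rintro ⟨b, hb, q, hq, rfl⟩
      exact ⟨q, g9 k n a b (hlt b hb).1 (hlt b hb).2 hq, rfl⟩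
  rw [e]
  refine measure_biUnion_finset₀ ?_ ?_
  · intro b hb b' hb' hne
    have hb1 := hlt b hb
    have hb2 := hlt b' hb'
    have hne' : sb n a b ≠ sb n a b' := by
      intro h
      apply hne
      have h1 := congrArg Prod.fst h
      have h2 := congrArg Prod.snd h
      simp only [sb] at h1 h2
      exact Prod.ext (by omega) (by omega)
    have hd := g7 (k + n) (sb n a b) (sb n a b') hne'
    refine measure_mono_null ?_ (hnull X f H μ p C hp hC hM hAR (k + n) (sb n a b) (hsb b hb))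
    rintro ξ ⟨⟨q, hq, rfl⟩, q', hq', hqq⟩
    have hq'' : q' = q := f.injective hqq
    subst hq''
    exact ⟨q', ⟨hq, fun ho => Set.disjoint_left.1 hd ho hq'⟩, rfl⟩
  · intro b _
    have h1 : IsClosed (f '' Cl (k + n) (sb n a b)) := by
      rw [Equiv.image_eq_preimage_symm]
      exact (htop.2.1 (k + n) (sb n a b)).preimage hM.cont'
    exact h1.measurableSet.nullMeasurableSet

end Pool.Agent.Lib.MP_1d263a_an.PA
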