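import Pool.Agent.Lib.MP_1d263a_an.PA.Stm

/-! # Piece alv: subcells and alive cells -/

set_option autoImplicit false

namespace Pool.Agent.Lib.MP_1d263a_an.PA

theorem pa_alv_low (a n b j : ℕ) (hj : j < n) : (a * 3 ^ n + b) / 3 ^ j % 3 = b / 3 ^ j % 3 := by
  obtain ⟨d, rfl⟩ : ∃ d, n = j + 1 + d := ⟨n - (j + 1), by omega⟩
  have h : a * 3 ^ (j + 1 + d) + b = b + 3 ^ j * (3 * (a * 3 ^ d)) := by ring
  rw [h, Nat.add_mul_div_left _ _ (by positivity), Nat.add_mul_mod_self_left]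

theorem pa_alv_high (a n b d : ℕ) (hb : b < 3 ^ n) :
    (a * 3 ^ n + b) / 3 ^ (n + d) = a / 3 ^ d := by
  rw [pow_add, ← Nat.div_div_eq_div_mul]
  congr 1
  rw [add_comm, Nat.add_mul_div_right _ _ (by positivity), Nat.div_eq_of_lt hb, zero_add]

theorem pa_alv_size (a k n b : ℕ) (hb : b < 3 ^ n) : a * 3 ^ n + b < 3 ^ (k + n) ↔ a < 3 ^ k := by
  rw [pow_add]
  constructor
  · intro h
    by_contra hc
    have h1 : 3 ^ k * 3 ^ n ≤ a * 3 ^ n := Nat.mul_le_mul_right _ (not_lt.mp hc)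
    omega
  · intro h
    have h1 : (a + 1) * 3 ^ n ≤ 3 ^ k * 3 ^ n := Nat.mul_le_mul_right _ h
    have h2 : (a + 1) * 3 ^ n = a * 3 ^ n + 3 ^ n := by ring
    omega

theorem p_alv : S_alv := by
  intro k n a b h1 h2
  rw [mem_I, mem_I, mem_I]
  unfold Alive sb
  simp only
  rw [pa_alv_size _ _ _ _ h1, pa_alv_size _ _ _ _ h2]
  constructor
  · rintro ⟨hx, hy, hd⟩
    refine ⟨⟨hx, hy, fun j => ?_⟩, h1, h2, fun j => ?_⟩
    · have h := hd (n + j)
      rwa [pa_alv_high _ _ _ _ h1, pa_alv_high _ _ _ _ h2] at h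
    · rcases lt_or_ge j n with hj | hj
      · have h := hd j
        rwa [pa_alv_low _ _ _ _ hj, pa_alv_low _ _ _ _ hj] at h
      · have h3 : b.1 / 3 ^ j = 0 :=
          Nat.div_eq_of_lt (h1.trans_le (Nat.pow_le_pow_right (by norm_num) hj))
        rw [h3]
        omega
  · rintro ⟨⟨hx, hy, hd⟩, -, -, he⟩
    refine ⟨hx, hy, fun j => ?_⟩
    rcases lt_or_ge j n with hj | hj
    · rw [pa_alv_low _ _ _ _ hj, pa_alv_low _ _ _ _ hj]
      exact he j
    · obtain ⟨d, rfl⟩ : ∃ d, j = n + d := ⟨j - n, by omega⟩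
      rw [pa_alv_high _ _ _ _ h1, pa_alv_high _ _ _ _ h2]
      exact hd d

end Pool.Agent.Lib.MP_1d263a_an.PA
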