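import Pool.Agent.Lib.MP_1d263a_an.PA.Stm

set_option autoImplicit false

namespace Pool.Agent.Lib.MP_1d263a_an.PA

private theorem pa_anc_div (n x y : ℕ) (h : y < 3 ^ n) : (x * 3 ^ n + y) / 3 ^ n = x := by
  rw [add_comm, Nat.add_mul_div_right _ _ (by positivity), Nat.div_eq_of_lt h, zero_add]

private theorem pa_anc_le (L n x y : ℕ) (h : x ≤ y + L) : x / 3 ^ n ≤ y / 3 ^ n + L := by
  have h3 : 1 ≤ 3 ^ n := Nat.one_le_pow _ _ (by norm_num)
  calc x / 3 ^ n ≤ (y + L * 3 ^ n) / 3 ^ n := by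
        apply Nat.div_le_div_right
        nlinarith
    _ = y / 3 ^ n + L := Nat.add_mul_div_right _ _ (by positivity)

theorem p_anc (h : S_alv) : S_anc := by
  refine ⟨?_, ?_, ?_, ?_⟩
  · intro n a b h1 h2
    ext
    · exact pa_anc_div n a.1 b.1 h1
    · exact pa_anc_div n a.2 b.2 h2
  · intro k n a ha
    have e : sb n (anc n a) (a.1 % 3 ^ n, a.2 % 3 ^ n) = a := by
      ext
      · exact Nat.div_add_mod' a.1 (3 ^ n)
      · exact Nat.div_add_mod' a.2 (3 ^ n)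
    have h1 : a.1 % 3 ^ n < 3 ^ n := Nat.mod_lt _ (by positivity)
    have h2 : a.2 % 3 ^ n < 3 ^ n := Nat.mod_lt _ (by positivity)
    have h3 := (h k n (anc n a) (a.1 % 3 ^ n, a.2 % 3 ^ n) h1 h2).1 (by rw [e]; exact ha)
    exact ⟨h3.1, h3.2, e⟩
  · intro i j a
    ext
    · change a.1 / 3 ^ j / 3 ^ i = a.1 / 3 ^ (i + j)
      rw [Nat.div_div_eq_div_mul, pow_add, mul_comm]
    · change a.2 / 3 ^ j / 3 ^ i = a.2 / 3 ^ (i + j)
      rw [Nat.div_div_eq_div_mul, pow_add, mul_comm]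
  · rintro L n a b ⟨h1, h2, h3, h4⟩
    exact ⟨pa_anc_le L n _ _ h1, pa_anc_le L n _ _ h2, pa_anc_le L n _ _ h3, pa_anc_le L n _ _ h4⟩

end Pool.Agent.Lib.MP_1d263a_an.PA
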