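import Pool.Agent.Lib.MP_1d263a_an.PA.Stm

/-!
# Carpet project, part A, piece cap: the capacity bound
-/

set_option autoImplicit false

namespace Pool.Agent.Lib.MP_1d263a_an.PA

open CarpetPI Finset MeasureTheory
open scoped ENNReal

private theorem pa_cap_I0 : ((0, 0) : ℕ × ℕ) ∈ I 0 := by
  rw [mem_I]
  exact alive_zero

private theorem pa_cap_I1 (i : ℕ) (hi : i < 3) : ((i, 0) : ℕ × ℕ) ∈ I 1 := by
  rw [mem_I]
  refine ⟨by simpa using hi, by norm_num, fun j => ?_⟩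
  rintro ⟨-, h⟩
  simp at h

private theorem pa_cap_fe_nonneg (p : ℝ) (F : Pt → ℝ) (f : Pt) : 0 ≤ fe p F f :=
  Finset.sum_nonneg fun _ _ => Real.rpow_nonneg (abs_nonneg _) p

open scoped Classical in
private theorem pa_cap_En_nonneg (p : ℝ) (K : Set Pt) (F : Pt → ℝ) (G : Finset Pt) :
    0 ≤ En p K F G :=
  Finset.sum_nonneg fun f _ => pa_cap_fe_nonneg p F f

private theorem pa_cap_EL_nonneg (p : ℝ) (L k : ℕ) (a : ℕ × ℕ) (n : ℕ) (W : ℕ × ℕ → ℝ) :
    0 ≤ EL p L k a n W :=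
  Finset.sum_nonneg fun _ _ => Finset.sum_nonneg fun _ _ => Real.rpow_nonneg (abs_nonneg _) p

private theorem pa_cap_sb_inj (n : ℕ) (a : ℕ × ℕ) (b b' : ℕ × ℕ) (h : sb n a b = sb n a b') :
    b = b' := by
  unfold sb at h
  have h1 := congrArg Prod.fst h
  have h2 := congrArg Prod.snd h
  simp only at h1 h2
  exact Prod.ext (by omega) (by omega)

private theorem pa_cap_lt {n : ℕ} {b : ℕ × ℕ} (h : b ∈ I n) : b.1 < 3 ^ n ∧ b.2 < 3 ^ n := by
  rw [mem_I] at h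
  exact ⟨h.1, h.2.1⟩

private theorem pa_cap_anc (n : ℕ) (b : ℕ × ℕ) (h : b ∈ I n) : Nb 0 (0, 0) (anc n b) := by
  obtain ⟨h1, h2⟩ := pa_cap_lt h
  have e : anc n b = (0, 0) := by
    unfold anc
    rw [Nat.div_eq_of_lt h1, Nat.div_eq_of_lt h2]
  rw [e]
  exact ⟨le_rfl, le_rfl, le_rfl, le_rfl⟩

private theorem pa_cap_pos {X : Type} [MetricSpace X] [MeasurableSpace X]
    (f : carpet ≃ X) (H : ℝ) (μ : Measure X) (p K : ℝ) (hK : 1 ≤ K) (hM : Met f H)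
    (hfin : IsFiniteMeasure μ)
    (h : ∀ n, ∀ a ∈ I n, ENNReal.ofReal (K⁻¹ * rad f n a ^ p) ≤ μ (f '' Op n a) ∧
      μ (f '' Cl n a) ≤ ENNReal.ofReal (K * rad f n a ^ p)) (n : ℕ) (a : ℕ × ℕ) (ha : a ∈ I n) :
    0 < (μ (f '' Cl n a)).toReal := by
  have h1 := (h n a ha).1
  have h2 : μ (f '' Op n a) ≤ μ (f '' Cl n a) := by
    refine measure_mono (Set.image_mono ?_)
    rintro x ⟨h1, h2, h3, h4⟩
    exact ⟨h1.le, h2.le, h3.le, h4.le⟩
  have h3 : 0 < K⁻¹ * rad f n a ^ p :=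
    mul_pos (inv_pos.mpr (by linarith)) (Real.rpow_pos_of_pos (hM.pos n a ha) p)
  refine ENNReal.toReal_pos ?_ (measure_ne_top μ _)
  have h4 : 0 < ENNReal.ofReal (K⁻¹ * rad f n a ^ p) := ENNReal.ofReal_pos.mpr h3
  exact (lt_of_lt_of_le h4 (h1.trans h2)).ne'

private theorem pa_cap_sum {X : Type} [MetricSpace X] [MeasurableSpace X]
    (f : carpet ≃ X) (μ : Measure X) (hfin : IsFiniteMeasure μ)
    (h : ∀ k, ∀ a ∈ I k, ∀ n, μ (f '' Cl k a) = ∑ b ∈ I n, μ (f '' Cl (k + n) (sb n a b)))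
    (i : ℕ) (hi : i < 3) (t : ℕ) : (μ (f '' Cl 1 (i, 0))).toReal =
      ∑ b ∈ I t, (μ (f '' Cl (0 + (t + 1)) (sb t (i, 0) b))).toReal := by
  rw [h 1 (i, 0) (pa_cap_I1 i hi) t, ENNReal.toReal_sum (fun b _ => measure_ne_top μ _)]
  rw [Nat.zero_add, Nat.add_comm 1 t]

private theorem pa_cap_lower {X : Type} [MetricSpace X] [MeasurableSpace X]
    (f : carpet ≃ X) (μ : Measure X) (hfin : IsFiniteMeasure μ) (hAlv : S_alv)
    (h : ∀ k, ∀ a ∈ I k, ∀ n, μ (f '' Cl k a) = ∑ b ∈ I n, μ (f '' Cl (k + n) (sb n a b)))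
    (t : ℕ) (G : Pt → ℝ) (h0 : ∀ x : Pt, x.1 ≤ 3 ^ t → G x = 0)
    (h1 : ∀ x : Pt, 2 * 3 ^ t ≤ x.1 → G x = 1) (c : ℝ) :
    (μ (f '' Cl 1 (0, 0))).toReal * |c| + (μ (f '' Cl 1 (2, 0))).toReal * |1 - c| ≤
      ∑ b ∈ BR 0 0 (0, 0) (t + 1), (μ (f '' Cl (0 + (t + 1)) b)).toReal * |G (ip b) - c| := by
  classical
  have hpt : (0 : ℕ) < 3 ^ t := by positivity
  have hmem : ∀ i : ℕ, i < 3 → ∀ b ∈ I t, sb t (i, 0) b ∈ BR 0 0 (0, 0) (t + 1) := by
    intro i hi b hb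
    obtain ⟨hb1, hb2⟩ := pa_cap_lt hb
    have h3 := (hAlv 1 t (i, 0) b hb1 hb2).mpr ⟨pa_cap_I1 i hi, hb⟩
    rw [Nat.add_comm 1 t] at h3
    unfold BR
    rw [Finset.mem_filter, Nat.zero_add]
    exact ⟨h3, pa_cap_anc (t + 1) _ h3⟩
  have hdisj : Disjoint ((I t).image (sb t (0, 0))) ((I t).image (sb t (2, 0))) := by
    rw [Finset.disjoint_left]
    intro x hx hx'
    rw [Finset.mem_image] at hx hx'
    obtain ⟨b, hb, rfl⟩ := hx
    obtain ⟨b', hb', e⟩ := hx'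
    have hb1 := (pa_cap_lt hb).1
    have e1 := congrArg Prod.fst e
    unfold sb at e1
    simp only at e1
    omega
  have e0 : ∑ b ∈ (I t).image (sb t (0, 0)),
      (μ (f '' Cl (0 + (t + 1)) b)).toReal * |G (ip b) - c| =
      (μ (f '' Cl 1 (0, 0))).toReal * |c| := by
    rw [Finset.sum_image (fun b _ b' _ e => pa_cap_sb_inj t _ b b' e),
      pa_cap_sum f μ hfin h 0 (by norm_num) t, Finset.sum_mul]
    refine Finset.sum_congr rfl fun b hb => ?_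
    have hb1 := (pa_cap_lt hb).1
    have : G (ip (sb t (0, 0) b)) = 0 := by
      refine h0 _ ?_
      unfold ip sb
      simp only
      have : ((b.1 : ℕ) : ℤ) < ((3 ^ t : ℕ) : ℤ) := by exact_mod_cast hb1
      push_cast at this ⊢
      linarith
    rw [this, zero_sub, abs_neg]
  have e2 : ∑ b ∈ (I t).image (sb t (2, 0)),
      (μ (f '' Cl (0 + (t + 1)) b)).toReal * |G (ip b) - c| =
      (μ (f '' Cl 1 (2, 0))).toReal * |1 - c| := by
    rw [Finset.sum_image (fun b _ b' _ e => pa_cap_sb_inj t _ b b' e),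
      pa_cap_sum f μ hfin h 2 (by norm_num) t, Finset.sum_mul]
    refine Finset.sum_congr rfl fun b hb => ?_
    have : G (ip (sb t (2, 0) b)) = 1 := by
      refine h1 _ ?_
      unfold ip sb
      simp only
      have : (0 : ℤ) ≤ ((b.1 : ℕ) : ℤ) := Int.natCast_nonneg _
      push_cast at this ⊢
      linarith
    rw [this]
  rw [← e0, ← e2, ← Finset.sum_union hdisj]
  refine Finset.sum_le_sum_of_subset_of_nonneg ?_
    fun b _ _ => mul_nonneg ENNReal.toReal_nonneg (abs_nonneg _)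
  intro x hx
  rw [Finset.mem_union, Finset.mem_image, Finset.mem_image] at hx
  rcases hx with ⟨b, hb, rfl⟩ | ⟨b, hb, rfl⟩
  · exact hmem 0 (by norm_num) b hb
  · exact hmem 2 (by norm_num) b hb

/-- **cap.** The capacity bound. -/
theorem p_cap (hPoin : S_poinR) (hCapG : S_capG) (hCv : S_cv) (hKept : S_kept) (hAdd : S_add)
    (hAlv : S_alv) (hAnc : S_anc) (hMr : S_mr) : S_cap := by
  intro X _ _ _ f H μ p C C' L' hp hC hM hAR hC' hL' hPI
  have hp0 : 0 < p := by linarith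
  obtain ⟨hfin, K₁, hK₁, hmr⟩ := hMr X f H μ p C hp0 hC hM hAR
  have hadd := hAdd X f H μ p C hp0 hC hM hAR
  obtain ⟨K, L, -, hK, hpoin⟩ := hPoin X f H μ p C C' L' 0 hp hC hM hAR hC' hL' hPI
  have hm0 := pa_cap_pos f H μ p K₁ hK₁ hM hfin hmr 1 (0, 0) (pa_cap_I1 0 (by norm_num))
  have hm2 := pa_cap_pos f H μ p K₁ hK₁ hM hfin hmr 1 (2, 0) (pa_cap_I1 2 (by norm_num))
  have hmin : 0 < min (μ (f '' Cl 1 (0, 0))).toReal (μ (f '' Cl 1 (2, 0))).toReal :=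
    lt_min hm0 hm2
  generalize hme : min (μ (f '' Cl 1 (0, 0))).toReal (μ (f '' Cl 1 (2, 0))).toReal = m at hmin
  have hM0 : 0 ≤ K * (μ (f '' Cl 0 (0, 0))).toReal := mul_nonneg hK ENNReal.toReal_nonneg
  generalize hZe : K * (μ (f '' Cl 0 (0, 0))).toReal = Z at hM0
  have hmp : 0 < m ^ p := Real.rpow_pos_of_pos hmin p
  have hB : 0 ≤ Z ^ p * (18 * 4 ^ p * 2) := by
    have h1 : 0 ≤ Z ^ p := Real.rpow_nonneg hM0 p
    have h2 : (0 : ℝ) ≤ 4 ^ p := Real.rpow_nonneg (by norm_num) p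
    positivity
  refine ⟨1 + Z ^ p * (18 * 4 ^ p * 2) / m ^ p, ?_, ?_⟩
  · have : 0 ≤ Z ^ p * (18 * 4 ^ p * 2) / m ^ p := div_nonneg hB hmp.le
    linarith
  · intro t F hF0 hF1
    obtain ⟨G, hG0, hG1, hGE⟩ := hCapG p t F hp hF0 hF1
    obtain ⟨c, hc⟩ := hpoin 0 (0, 0) pa_cap_I0 (t + 1) (fun b => G (ip b))
    have hlow := pa_cap_lower f μ hfin hAlv hadd t G hG0 hG1 c
    have hcv := hCv p hp L 0 (0, 0) pa_cap_I0 (t + 1) G
    rw [Nat.zero_add (t + 1)] at hcv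
    have hGE' := hGE (nb (L + 1) (t + 1) (ip (0, 0)))
    have hE0 : 0 ≤ En p (Kept t) F (cell t (0, 0)) := pa_cap_En_nonneg p _ F _
    have h4p : (0 : ℝ) ≤ 4 ^ p := Real.rpow_nonneg (by norm_num) p
    have hEL : EL p L 0 (0, 0) (t + 1) (fun b => G (ip b)) ≤
        18 * 4 ^ p * 2 * En p (Kept t) F (cell t (0, 0)) := by
      refine hcv.trans ?_
      calc 18 * 4 ^ p * En p (Kept (t + 1)) G (nb (L + 1) (t + 1) (ip (0, 0)))
          ≤ 18 * 4 ^ p * (2 * En p (Kept t) F (cell t (0, 0))) :=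
            mul_le_mul_of_nonneg_left hGE' (by positivity)
        _ = 18 * 4 ^ p * 2 * En p (Kept t) F (cell t (0, 0)) := by ring
    have hEL0 := pa_cap_EL_nonneg p L 0 (0, 0) (t + 1) (fun b => G (ip b))
    have h1 : m ≤ Z * EL p L 0 (0, 0) (t + 1) (fun b => G (ip b)) ^ (1 / p) := by
      have h2 : m ≤ (μ (f '' Cl 1 (0, 0))).toReal * |c| +
          (μ (f '' Cl 1 (2, 0))).toReal * |1 - c| := by
        have h3 : 1 ≤ |c| + |1 - c| := by
          calc (1 : ℝ) = |c + (1 - c)| := by rw [show c + (1 - c) = 1 by ring, abs_one]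
            _ ≤ |c| + |1 - c| := abs_add_le _ _
        have h4 : m ≤ (μ (f '' Cl 1 (0, 0))).toReal := by rw [← hme]; exact min_le_left _ _
        have h5 : m ≤ (μ (f '' Cl 1 (2, 0))).toReal := by rw [← hme]; exact min_le_right _ _
        have h6 := mul_le_mul_of_nonneg_right h4 (abs_nonneg c)
        have h7 := mul_le_mul_of_nonneg_right h5 (abs_nonneg (1 - c))
        nlinarith
      rw [← hZe]
      exact (h2.trans hlow).trans hc
    have h2 : m ^ p ≤ Z ^ p * (18 * 4 ^ p * 2) * En p (Kept t) F (cell t (0, 0)) := by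
      have h3 := Real.rpow_le_rpow hmin.le h1 hp0.le
      rw [Real.mul_rpow hM0 (Real.rpow_nonneg hEL0 _), ← Real.rpow_mul hEL0,
        one_div_mul_cancel hp0.ne', Real.rpow_one] at h3
      refine h3.trans ?_
      rw [mul_assoc]
      exact mul_le_mul_of_nonneg_left hEL (Real.rpow_nonneg hM0 p)
    have hA0 : 0 < 1 + Z ^ p * (18 * 4 ^ p * 2) / m ^ p := by
      have : 0 ≤ Z ^ p * (18 * 4 ^ p * 2) / m ^ p := div_nonneg hB hmp.le
      linarith
    rw [inv_le_iff_one_le_mul₀' hA0]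
    have h8 : (1 : ℝ) ≤ Z ^ p * (18 * 4 ^ p * 2) / m ^ p * En p (Kept t) F (cell t (0, 0)) := by
      rw [div_mul_eq_mul_div, le_div_iff₀ hmp, one_mul]
      exact h2
    rw [add_mul, one_mul]
    linarith

end Pool.Agent.Lib.MP_1d263a_an.PA
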