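import Pool.Agent.Lib.MP_1d263a_an.PA.Stm

/-!
# Carpet project, part A: extension of a function from level `t` to level `t + 1`
-/

set_option autoImplicit false

namespace Pool.Agent.Lib.MP_1d263a_an.PA

open MeasureTheory CarpetPI
open scoped ENNReal

lemma pa_capG_fe (p : ℝ) (u : Pt → ℝ) (f : Pt) : fe p u f =
    |u (f.1 + 1, f.2) - u (f.1, f.2)| ^ p + (|u (f.1 + 1, f.2 + 1) - u (f.1, f.2 + 1)| ^ p +
      (|u (f.1, f.2 + 1) - u (f.1, f.2)| ^ p + |u (f.1 + 1, f.2 + 1) - u (f.1 + 1, f.2)| ^ p)) := by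
  obtain ⟨a, b⟩ := f
  unfold fe sides
  rw [Finset.sum_insert (by simp), Finset.sum_insert (by simp), Finset.sum_insert (by simp),
    Finset.sum_singleton]
  simp [du, hd, tl]

lemma pa_capG_nonneg (p : ℝ) (u : Pt → ℝ) (f : Pt) : 0 ≤ fe p u f :=
  Finset.sum_nonneg fun _ _ => Real.rpow_nonneg (abs_nonneg _) _

/-- the function on the level `t + 1` network -/
noncomputable def pa_capG_G (W : ℤ) (F : Pt → ℝ) (x : Pt) : ℝ :=
  if x.1 ≤ W then 0 else if 2 * W ≤ x.1 then 1 else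
    if 2 * W ≤ x.2 then F (x.1 - W, x.2 - 2 * W) else F (x.1 - W, x.2)

lemma pa_capG_left (p : ℝ) (hp : 1 ≤ p) (W : ℤ) (F : Pt → ℝ) (f : Pt) (h : f.1 < W) :
    fe p (pa_capG_G W F) f = 0 := by
  have h1 : ∀ y : ℤ, pa_capG_G W F (f.1, y) = 0 := fun y => if_pos (by simp; omega)
  have h2 : ∀ y : ℤ, pa_capG_G W F (f.1 + 1, y) = 0 := fun y => if_pos (by simp; omega)
  rw [pa_capG_fe, h1, h1, h2, h2]
  simp [Real.zero_rpow (by linarith : p ≠ 0)]

lemma pa_capG_right (p : ℝ) (hp : 1 ≤ p) (W : ℤ) (hW : 0 < W) (F : Pt → ℝ) (f : Pt)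
    (h : 2 * W ≤ f.1) : fe p (pa_capG_G W F) f = 0 := by
  have h1 : ∀ y : ℤ, pa_capG_G W F (f.1, y) = 1 := fun y => by
    unfold pa_capG_G
    rw [if_neg (by simp; omega), if_pos (by simp; omega)]
  have h2 : ∀ y : ℤ, pa_capG_G W F (f.1 + 1, y) = 1 := fun y => by
    unfold pa_capG_G
    rw [if_neg (by simp; omega), if_pos (by simp; omega)]
  rw [pa_capG_fe, h1, h1, h2, h2]
  simp [Real.zero_rpow (by linarith : p ≠ 0)]

/-- values on the closed middle cells -/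
lemma pa_capG_low (W : ℤ) (hW : 0 < W) (F : Pt → ℝ) (h0 : ∀ j, F (0, j) = 0)
    (h1 : ∀ j, F (W, j) = 1) (x y : ℤ) (hx : W ≤ x) (hx' : x ≤ 2 * W) (hy : y ≤ W) :
    pa_capG_G W F (x, y) = F (x - W, y) := by
  unfold pa_capG_G
  simp only
  split_ifs with h2 h3 h4
  · rw [show x - W = 0 by omega, h0]
  · rw [show x - W = W by omega, h1]
  · omega
  · rfl

lemma pa_capG_high (W : ℤ) (F : Pt → ℝ) (h0 : ∀ j, F (0, j) = 0)
    (h1 : ∀ j, F (W, j) = 1) (x y : ℤ) (hx : W ≤ x) (hx' : x ≤ 2 * W) (hy : 2 * W ≤ y) :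
    pa_capG_G W F (x, y) = F (x - W, y - 2 * W) := by
  unfold pa_capG_G
  simp only
  split_ifs with h2 h3
  · rw [show x - W = 0 by omega, h0]
  · rw [show x - W = W by omega, h1]
  · rfl

lemma pa_capG_fe_low (p : ℝ) (W : ℤ) (hW : 0 < W) (F : Pt → ℝ) (h0 : ∀ j, F (0, j) = 0)
    (h1 : ∀ j, F (W, j) = 1) (f : Pt) (hx : W ≤ f.1) (hx' : f.1 < 2 * W) (hy : f.2 < W) :
    fe p (pa_capG_G W F) f = fe p F (f.1 - W, f.2) := by
  rw [pa_capG_fe, pa_capG_fe, pa_capG_low W hW F h0 h1 _ _ (by omega) (by omega) (by omega),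
    pa_capG_low W hW F h0 h1 _ _ (by omega) (by omega) (by omega),
    pa_capG_low W hW F h0 h1 _ _ (by omega) (by omega) (by omega),
    pa_capG_low W hW F h0 h1 _ _ (by omega) (by omega) (by omega)]
  simp only [show f.1 + 1 - W = f.1 - W + 1 by ring]

lemma pa_capG_fe_high (p : ℝ) (W : ℤ) (F : Pt → ℝ) (h0 : ∀ j, F (0, j) = 0)
    (h1 : ∀ j, F (W, j) = 1) (f : Pt) (hx : W ≤ f.1) (hx' : f.1 < 2 * W) (hy : 2 * W ≤ f.2) :
    fe p (pa_capG_G W F) f = fe p F (f.1 - W, f.2 - 2 * W) := by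
  rw [pa_capG_fe, pa_capG_fe, pa_capG_high W F h0 h1 _ _ (by omega) (by omega) (by omega),
    pa_capG_high W F h0 h1 _ _ (by omega) (by omega) (by omega),
    pa_capG_high W F h0 h1 _ _ (by omega) (by omega) (by omega),
    pa_capG_high W F h0 h1 _ _ (by omega) (by omega) (by omega)]
  simp only [show f.1 + 1 - W = f.1 - W + 1 by ring, show f.2 + 1 - 2 * W = f.2 - 2 * W + 1 by ring]

/-- digits after subtraction of a multiple of `3 ^ t` -/
lemma pa_capG_dig (t k : ℕ) (hk : k < t) (x c : ℤ) :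
    (x - c * 3 ^ t) / 3 ^ k % 3 = x / 3 ^ k % 3 := by
  obtain ⟨m, rfl⟩ : ∃ m, t = k + (m + 1) := ⟨t - k - 1, by omega⟩
  have h : x - c * 3 ^ (k + (m + 1)) = x + (3 ^ k) * (-(c * 3 ^ m) * 3) := by
    rw [pow_add, pow_succ]
    ring
  rw [h, Int.add_mul_ediv_left _ _ (by positivity), Int.add_mul_emod_self_right]

lemma pa_capG_sum {S C : Finset Pt} (p : ℝ) (F : Pt → ℝ) (φ : Pt → Pt)
    (hφ : Function.Injective φ) (P : Pt → Prop) [DecidablePred P]
    (h : ∀ f ∈ S, P f → φ f ∈ C) :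
    ∑ f ∈ S, (if P f then fe p F (φ f) else 0) ≤ ∑ f ∈ C, fe p F f := by
  classical
  rw [← Finset.sum_filter, ← Finset.sum_image (s := S.filter P) (g := φ) (f := fe p F)
    (fun x _ y _ hxy => hφ hxy)]
  refine Finset.sum_le_sum_of_subset_of_nonneg ?_ fun _ _ _ => pa_capG_nonneg _ _ _
  intro f hf
  obtain ⟨g, hg, rfl⟩ := Finset.mem_image.1 hf
  exact h g (Finset.mem_filter.1 hg).1 (Finset.mem_filter.1 hg).2

theorem p_capG (_ : S_kept) (_ : S_alv) : S_capG := by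
  classical
  intro p t F hp h0 h1
  have hW : (0 : ℤ) < 3 ^ t := by positivity
  refine ⟨pa_capG_G (3 ^ t) F, fun x hx => if_pos hx, fun x hx => ?_, fun B => ?_⟩
  · unfold pa_capG_G
    rw [if_neg (by omega), if_pos hx]
  set W : ℤ := 3 ^ t with hWdef
  set S := B.filter (· ∈ Kept (t + 1)) with hS
  set C := (cell t (0, 0)).filter (· ∈ Kept t) with hC
  have hle : ∀ f ∈ S, fe p (pa_capG_G W F) f ≤
      (if W ≤ f.1 ∧ f.1 < 2 * W ∧ f.2 < W then fe p F (f.1 - W, f.2) else 0) +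
      (if W ≤ f.1 ∧ f.1 < 2 * W ∧ 2 * W ≤ f.2 then fe p F (f.1 - W, f.2 - 2 * W) else 0) := by
    intro f hf
    have hf' : f ∈ Kept (t + 1) := (Finset.mem_filter.1 hf).2
    obtain ⟨f1, f2, f3, f4, f5⟩ := hf'
    have n1 : 0 ≤ (if W ≤ f.1 ∧ f.1 < 2 * W ∧ f.2 < W then fe p F (f.1 - W, f.2) else 0) := by
      split_ifs
      · exact pa_capG_nonneg _ _ _
      · exact le_rfl
    have n2 : 0 ≤ (if W ≤ f.1 ∧ f.1 < 2 * W ∧ 2 * W ≤ f.2 then
        fe p F (f.1 - W, f.2 - 2 * W) else 0) := by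
      split_ifs
      · exact pa_capG_nonneg _ _ _
      · exact le_rfl
    rcases lt_or_ge f.1 W with h2 | h2
    · rw [pa_capG_left p hp W F f h2]
      exact add_nonneg n1 n2
    rcases le_or_gt (2 * W) f.1 with h3 | h3
    · rw [pa_capG_right p hp W hW F f h3]
      exact add_nonneg n1 n2
    rcases lt_or_ge f.2 W with h4 | h4
    · rw [pa_capG_fe_low p W hW F h0 h1 f h2 h3 h4, if_pos ⟨h2, h3, h4⟩]
      exact le_add_of_nonneg_right n2
    rcases le_or_gt (2 * W) f.2 with h5 | h5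
    · rw [pa_capG_fe_high p W F h0 h1 f h2 h3 h5,
        if_pos (⟨h2, h3, h5⟩ : W ≤ f.1 ∧ f.1 < 2 * W ∧ 2 * W ≤ f.2)]
      exact le_add_of_nonneg_left n1
    · exfalso
      have h6 := f5 t (Nat.lt_succ_self t)
      rw [← hWdef] at h6
      have e1 : f.1 / W = 1 := by
        rw [Int.ediv_eq_iff_of_pos hW]
        constructor <;> linarith
      have e2 : f.2 / W = 1 := by
        rw [Int.ediv_eq_iff_of_pos hW]
        constructor <;> linarith
      rw [e1, e2] at h6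
      exact h6 ⟨rfl, rfl⟩
  have hmem : ∀ (f : Pt) (c : ℤ), f ∈ S → W ≤ f.1 → f.1 < 2 * W → c * W ≤ f.2 →
      f.2 < (c + 1) * W → (f.1 - W, f.2 - c * W) ∈ C := by
    intro f c hf h2 h3 h4 h5
    have hf' : f ∈ Kept (t + 1) := (Finset.mem_filter.1 hf).2
    obtain ⟨f1, f2, f3, f4, f5⟩ := hf'
    have h6 : f.2 < c * W + W := by linarith
    refine Finset.mem_filter.2 ⟨?_, ?_, ?_, ?_, ?_, ?_⟩
    · simp only [cell, box, Finset.mem_product, Finset.mem_Ico, zero_mul, zero_add, one_mul,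
        ← hWdef]
      exact ⟨⟨by linarith, by linarith⟩, by linarith, by linarith⟩
    · simp only; linarith
    · simp only; linarith
    · simp only; linarith
    · simp only; linarith
    · intro k hk
      have h7 := f5 k (by omega)
      have e1 := pa_capG_dig t k hk f.1 1
      have e2 := pa_capG_dig t k hk f.2 c
      rw [one_mul] at e1
      simp only [hWdef, e1, e2]
      exact h7
  calc En p (Kept (t + 1)) (pa_capG_G W F) B = ∑ f ∈ S, fe p (pa_capG_G W F) f := rfl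
    _ ≤ ∑ f ∈ S, ((if W ≤ f.1 ∧ f.1 < 2 * W ∧ f.2 < W then fe p F (f.1 - W, f.2) else 0) +
      (if W ≤ f.1 ∧ f.1 < 2 * W ∧ 2 * W ≤ f.2 then fe p F (f.1 - W, f.2 - 2 * W) else 0)) :=
        Finset.sum_le_sum hle
    _ ≤ ∑ f ∈ C, fe p F f + ∑ f ∈ C, fe p F f := by
        rw [Finset.sum_add_distrib]
        refine add_le_add ?_ ?_
        · refine pa_capG_sum p F (fun f => (f.1 - W, f.2)) (fun x y hxy => ?_)
            (fun f => W ≤ f.1 ∧ f.1 < 2 * W ∧ f.2 < W) (fun f hf hP => ?_)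
          · simp only [Prod.mk.injEq] at hxy
            exact Prod.ext (by linarith [hxy.1]) hxy.2
          · have hf' : f ∈ Kept (t + 1) := (Finset.mem_filter.1 hf).2
            have := hmem f 0 hf hP.1 hP.2.1 (by linarith [hf'.2.2.1]) (by linarith [hP.2.2])
            simpa using this
        · refine pa_capG_sum p F (fun f => (f.1 - W, f.2 - 2 * W)) (fun x y hxy => ?_)
            (fun f => W ≤ f.1 ∧ f.1 < 2 * W ∧ 2 * W ≤ f.2) (fun f hf hP => ?_)
          · simp only [Prod.mk.injEq] at hxy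
            exact Prod.ext (by linarith [hxy.1]) (by linarith [hxy.2])
          · have hf' : f ∈ Kept (t + 1) := (Finset.mem_filter.1 hf).2
            have h8 : f.2 < 3 ^ (t + 1) := hf'.2.2.2.1
            rw [pow_succ, ← hWdef] at h8
            exact hmem f 2 hf hP.1 hP.2.1 hP.2.2 (by linarith)
    _ = 2 * En p (Kept t) F (cell t (0, 0)) := by
        rw [two_mul]
        rfl

end Pool.Agent.Lib.MP_1d263a_an.PA
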