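import Pool.Agent.Lib.MP_1d263a_an.PA.Stm

/-!
# Piece chain: the chain of mean values
-/

set_option autoImplicit false

namespace Pool.Agent.Lib.MP_1d263a_an.PA

open MeasureTheory CarpetPI
open scoped ENNReal

private lemma pa_chain_fe_nonneg (p : ℝ) (F : Pt → ℝ) (q : Pt) : 0 ≤ fe p F q :=
  Finset.sum_nonneg fun _ _ => Real.rpow_nonneg (abs_nonneg _) _

private lemma pa_chain_En_nonneg (p : ℝ) (K : Set Pt) (F : Pt → ℝ) (G : Finset Pt) :
    0 ≤ En p K F G := Finset.sum_nonneg fun _ _ => pa_chain_fe_nonneg p F _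

private lemma pa_chain_En_mono (p : ℝ) (K : Set Pt) (F : Pt → ℝ) {G G' : Finset Pt} (h : G ⊆ G') :
    En p K F G ≤ En p K F G' := by
  classical
  unfold En
  apply Finset.sum_le_sum_of_subset_of_nonneg
  · intro x hx
    rw [Finset.mem_filter] at hx ⊢
    exact ⟨h hx.1, hx.2⟩
  · intro x _ _
    exact pa_chain_fe_nonneg p F x

private lemma pa_chain_fe_le (p : ℝ) (K : Set Pt) (F : Pt → ℝ) {G : Finset Pt} {q : Pt} (h : q ∈ G)
    (hK : q ∈ K) : fe p F q ≤ En p K F G := by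
  classical
  unfold En
  exact Finset.single_le_sum (f := fun x => fe p F x) (fun x _ => pa_chain_fe_nonneg p F x)
    (Finset.mem_filter.2 ⟨h, hK⟩)

private lemma pa_chain_du (p : ℝ) (hp : 1 ≤ p) (F : Pt → ℝ) (q : Pt) (e : Ed) (he : e ∈ sides q) :
    |du F e| ≤ fe p F q ^ (1 / p) := by
  have hp0 : 0 < p := by linarith
  have h1 : |du F e| ^ p ≤ fe p F q := by
    unfold fe
    exact Finset.single_le_sum (f := fun e => |du F e| ^ p)
      (fun x _ => Real.rpow_nonneg (abs_nonneg _) _) he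
  calc |du F e| = (|du F e| ^ p) ^ (1 / p) := by
        rw [← Real.rpow_mul (abs_nonneg _), mul_one_div_cancel hp0.ne', Real.rpow_one]
    _ ≤ _ := Real.rpow_le_rpow (Real.rpow_nonneg (abs_nonneg _) _) h1 (by positivity)

private lemma pa_chain_cor (p : ℝ) (hp : 1 ≤ p) (F : Pt → ℝ) (q x : Pt) (hx : IsCor x q) :
    |F x - F q| ≤ 2 * fe p F q ^ (1 / p) := by
  have h0 : 0 ≤ fe p F q ^ (1 / p) := Real.rpow_nonneg (pa_chain_fe_nonneg p F q) _
  have e1 := pa_chain_du p hp F q (false, q) (by simp [sides])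
  have e2 := pa_chain_du p hp F q (true, q) (by simp [sides])
  have e3 := pa_chain_du p hp F q (false, (q.1, q.2 + 1)) (by simp [sides])
  simp only [du, hd, tl] at e1 e2 e3
  simp only [Bool.false_eq_true, if_false, if_true] at e1 e2 e3
  obtain ⟨x1, x2⟩ := x
  obtain ⟨q1, q2⟩ := q
  simp only [IsCor] at hx
  simp only at e1 e2 e3
  rw [abs_le] at *
  rcases hx with ⟨rfl | rfl, rfl | rfl⟩
  · constructor <;> linarith
  · constructor <;> linarith
  · constructor <;> linarith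
  · constructor <;> linarith

private lemma pa_chain_nb1 (m s : ℕ) (q c' : Pt) (hc : c' ∈ kids) :
    nb m s (kid q c') ⊆ nb (m + 2) (s + 1) q := by
  have h3 : (0 : ℤ) < 3 ^ s := by positivity
  have hc1 : 0 ≤ c'.1 ∧ c'.1 < 3 ∧ 0 ≤ c'.2 ∧ c'.2 < 3 := by
    simp only [kids, box, Finset.mem_erase, Finset.mem_product, Finset.mem_Ico] at hc
    exact ⟨hc.2.1.1, hc.2.1.2, hc.2.2.1, hc.2.2.2⟩
  intro x hx
  simp only [nb, box, kid, Finset.mem_product, Finset.mem_Ico] at hx ⊢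
  obtain ⟨⟨h1, h2⟩, h4, h5⟩ := hx
  have hm : (0 : ℤ) ≤ m := Int.natCast_nonneg m
  push_cast
  rw [pow_succ]
  refine ⟨⟨?_, ?_⟩, ?_, ?_⟩
  · refine le_trans ?_ h1
    nlinarith [mul_nonneg hm h3.le, mul_nonneg hc1.1 h3.le]
  · refine lt_of_lt_of_le h2 ?_
    nlinarith [mul_nonneg hm h3.le, mul_pos (show (0 : ℤ) < 3 - c'.1 by omega) h3]
  · refine le_trans ?_ h4
    nlinarith [mul_nonneg hm h3.le, mul_nonneg hc1.2.2.1 h3.le]
  · refine lt_of_lt_of_le h5 ?_
    nlinarith [mul_nonneg hm h3.le, mul_pos (show (0 : ℤ) < 3 - c'.2 by omega) h3]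

private lemma pa_chain_nb2 (m s : ℕ) (q q' : Pt) (h : dis q q' ≤ 2) :
    nb m s q' ⊆ nb (m + 2) s q := by
  have h3 : (0 : ℤ) < 3 ^ s := by positivity
  simp only [dis, max_le_iff, abs_le] at h
  obtain ⟨⟨a1, a2⟩, a3, a4⟩ := h
  intro x hx
  simp only [nb, box, Finset.mem_product, Finset.mem_Ico] at hx ⊢
  obtain ⟨⟨h1, h2⟩, h4, h5⟩ := hx
  push_cast
  refine ⟨⟨?_, ?_⟩, ?_, ?_⟩
  · refine le_trans ?_ h1
    exact mul_le_mul_of_nonneg_right (by linarith) h3.le
  · refine lt_of_lt_of_le h2 ?_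
    exact mul_le_mul_of_nonneg_right (by linarith) h3.le
  · refine le_trans ?_ h4
    exact mul_le_mul_of_nonneg_right (by linarith) h3.le
  · refine lt_of_lt_of_le h5 ?_
    exact mul_le_mul_of_nonneg_right (by linarith) h3.le

private lemma pa_chain_nb3 (m m' s : ℕ) (h : m ≤ m') (q : Pt) : nb m s q ⊆ nb m' s q := by
  have h3 : (0 : ℤ) < 3 ^ s := by positivity
  have hm : (m : ℤ) ≤ m' := by exact_mod_cast h
  intro x hx
  simp only [nb, box, Finset.mem_product, Finset.mem_Ico] at hx ⊢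
  obtain ⟨⟨h1, h2⟩, h4, h5⟩ := hx
  refine ⟨⟨?_, ?_⟩, ?_, ?_⟩
  · refine le_trans ?_ h1
    exact mul_le_mul_of_nonneg_right (by linarith) h3.le
  · refine lt_of_lt_of_le h2 ?_
    exact mul_le_mul_of_nonneg_right (by linarith) h3.le
  · refine le_trans ?_ h4
    exact mul_le_mul_of_nonneg_right (by linarith) h3.le
  · refine lt_of_lt_of_le h5 ?_
    exact mul_le_mul_of_nonneg_right (by linarith) h3.le

private lemma pa_chain_self (m : ℕ) (q : Pt) : q ∈ nb m 0 q := by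
  simp only [nb, box, Finset.mem_product, Finset.mem_Ico, pow_zero, mul_one]
  have hm : (0 : ℤ) ≤ m := Int.natCast_nonneg m
  refine ⟨⟨by linarith, by linarith⟩, by linarith, by linarith⟩

private lemma pa_chain_two {ι : Type} (s : Finset ι) (w g : ι → ℝ) (hw : ∀ i ∈ s, 0 ≤ w i)
    (c c' A A' : ℝ) (h1 : ∑ i ∈ s, w i * |g i - c| ≤ A) (h2 : ∑ i ∈ s, w i * |g i - c'| ≤ A') :
    (∑ i ∈ s, w i) * |c - c'| ≤ A + A' := by
  rw [Finset.sum_mul]
  calc ∑ i ∈ s, w i * |c - c'| ≤ ∑ i ∈ s, (w i * |g i - c| + w i * |g i - c'|) := by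
        apply Finset.sum_le_sum
        intro i hi
        rw [← mul_add]
        apply mul_le_mul_of_nonneg_left _ (hw i hi)
        have := abs_sub_abs_le_abs_sub (g i - c') (g i - c)
        have h3 : c - c' = (g i - c') - (g i - c) := by ring
        rw [h3]
        have h4 := abs_sub (g i - c') (g i - c)
        linarith
    _ ≤ _ := by rw [Finset.sum_add_distrib]; linarith

/-- the sum over the subcells of `a'` is at most the sum over the cells near `a` -/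
private lemma pa_chain_sub (hanc : S_anc) (halv : S_alv) (k n N : ℕ) (hN : k + n = N)
    (a' : ℕ × ℕ) (ha' : a' ∈ I k)
    (g : ℕ × ℕ → ℝ) (hg : ∀ b, 0 ≤ g b) (B : Finset (ℕ × ℕ))
    (hB : ∀ b ∈ I N, anc n b = a' → b ∈ B) :
    ∑ b ∈ I n, g (sb n a' b) ≤ ∑ b ∈ B, g b := by
  classical
  have hlt : ∀ b ∈ I n, b.1 < 3 ^ n ∧ b.2 < 3 ^ n := by
    intro b hb
    simp only [I, Finset.mem_filter, Finset.mem_product, Finset.mem_range] at hb
    exact hb.1
  have hinj : Set.InjOn (sb n a') (I n : Set (ℕ × ℕ)) := by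
    intro x _ y _ hxy
    simp only [sb, Prod.mk.injEq] at hxy
    exact Prod.ext (by omega) (by omega)
  rw [← Finset.sum_image hinj]
  apply Finset.sum_le_sum_of_subset_of_nonneg
  · intro b hb
    rw [Finset.mem_image] at hb
    obtain ⟨b', hb', rfl⟩ := hb
    obtain ⟨h1, h2⟩ := hlt b' hb'
    apply hB
    · rw [← hN]
      exact (halv k n a' b' h1 h2).2 ⟨ha', hb'⟩
    · exact hanc.1 n a' b' h1 h2
  · intro b _ _
    exact hg b

theorem p_chain (hpoin : S_poinR) (hcv : S_cv) (hkept : S_kept) (hadd : S_add) (hanc : S_anc)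
    (halv : S_alv) (hmr : S_mr) : S_chain := by
  classical
  intro X _ _ _ f H μ p C C' L' hp hC hMet hAR hC' hL' hPI
  have hp0 : 0 < p := by linarith
  obtain ⟨K, L, hL, hK, hP⟩ := hpoin X f H μ p C C' L' 2 hp hC hMet hAR hC' hL' hPI
  obtain ⟨hfin, K₁, hK₁, hmes⟩ := hmr X f H μ p C hp0 hC hMet hAR
  obtain ⟨M, hM, hnear⟩ := hMet.near 2
  obtain ⟨hk1, hk2, hk3, hk4, hk5, hk6⟩ := hkept
  have hK₁0 : 0 < K₁ := by linarith
  have hH0 : 0 < H := by linarith [hMet.one_le]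
  have hM0 : 0 < M := by linarith
  -- measures of cells
  let m : ℕ → ℕ × ℕ → ℝ := fun n a => (μ (f '' Cl n a)).toReal
  have hm0 : ∀ n a, 0 ≤ m n a := fun n a => ENNReal.toReal_nonneg
  have hmu : ∀ n, ∀ a ∈ I n, m n a ≤ K₁ * rad f n a ^ p := by
    intro n a ha
    have h1 := (hmes n a ha).2
    have h2 : 0 ≤ K₁ * rad f n a ^ p :=
      mul_nonneg hK₁0.le (Real.rpow_nonneg (hMet.pos n a ha).le _)
    exact ENNReal.toReal_le_of_le_ofReal h2 h1
  have hml : ∀ n, ∀ a ∈ I n, K₁⁻¹ * rad f n a ^ p ≤ m n a := by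
    intro n a ha
    have h1 := (hmes n a ha).1
    have h2 : f '' Op n a ⊆ f '' Cl n a := by
      apply Set.image_mono
      intro x hx
      exact ⟨hx.1.le, hx.2.1.le, hx.2.2.1.le, hx.2.2.2.le⟩
    have h3 := h1.trans (measure_mono h2)
    exact (ENNReal.ofReal_le_iff_le_toReal (measure_ne_top μ _)).1 h3
  have hmpos : ∀ n, ∀ a ∈ I n, 0 < m n a := by
    intro n a ha
    refine lt_of_lt_of_le ?_ (hml n a ha)
    have := hMet.pos n a ha
    positivity
  have hcomp : ∀ (Q : ℝ), 1 ≤ Q → ∀ n n', ∀ a ∈ I n, ∀ a' ∈ I n', rad f n a ≤ Q * rad f n' a' →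
      m n a ≤ K₁ ^ 2 * Q ^ p * m n' a' := by
    intro Q hQ n n' a ha a' ha' hr
    have hQ0 : 0 < Q := by linarith
    have h1 := hmu n a ha
    have h2 := hml n' a' ha'
    have r1 := hMet.pos n a ha
    have r2 := hMet.pos n' a' ha'
    have h3 : rad f n a ^ p ≤ Q ^ p * rad f n' a' ^ p := by
      rw [← Real.mul_rpow hQ0.le r2.le]
      exact Real.rpow_le_rpow r1.le hr hp0.le
    have h4 : rad f n' a' ^ p ≤ K₁ * m n' a' := by
      rw [inv_mul_le_iff₀ hK₁0] at h2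
      exact h2
    have h5 : 0 ≤ Q ^ p := by positivity
    calc m n a ≤ K₁ * rad f n a ^ p := h1
      _ ≤ K₁ * (Q ^ p * rad f n' a' ^ p) := by gcongr
      _ ≤ K₁ * (Q ^ p * (K₁ * m n' a')) := by gcongr
      _ = _ := by ring
  set K₂ : ℝ := K * (18 * 4 ^ p) ^ (1 / p) with hK₂
  have hK₂0 : 0 ≤ K₂ := by positivity
  set K₃ : ℝ := K₁ ^ 2 * H ^ p + K₁ ^ 2 * M ^ p with hK₃
  have hK₃0 : 0 ≤ K₃ := by positivity
  refine ⟨2 + K₂ + K₂ * K₃, L + 3, by positivity, ?_⟩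
  intro N F
  let E : ℕ → Pt → ℝ := fun s q => En p (Kept N) F (nb (L + 1) s q)
  have hE0 : ∀ s q, 0 ≤ E s q := fun s q => pa_chain_En_nonneg _ _ _ _
  -- the constants
  have hex : ∀ (s : ℕ) (q : Pt), ∃ c : ℝ, s ≤ N → ∀ a ∈ I (N - s), ip a = q →
      ∑ b ∈ (I N).filter (fun b => Nb 2 a (anc s b)), m N b * |F (ip b) - c| ≤
        K₂ * m (N - s) a * E s q ^ (1 / p) := by
    intro s q
    by_cases h : s ≤ N ∧ ∃ a ∈ I (N - s), ip a = q
    · obtain ⟨hs, a, ha, haq⟩ := h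
      obtain ⟨c, hc⟩ := hP (N - s) a ha s (fun b => F (ip b))
      refine ⟨c, fun _ a₂ ha₂ haq₂ => ?_⟩
      have haa : a₂ = a := hk5 _ _ (haq₂.trans haq.symm)
      subst haa
      have hcv' := hcv p hp L (N - s) a₂ ha s F
      unfold BR at hc
      rw [Nat.sub_add_cancel hs] at hc hcv'
      refine hc.trans ?_
      rw [haq] at hcv'
      have h1 : (EL p L (N - s) a₂ s fun b => F (ip b)) ^ (1 / p) ≤
          (18 * 4 ^ p) ^ (1 / p) * E s q ^ (1 / p) := by
        rw [← Real.mul_rpow (by positivity) (hE0 s q)]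
        apply Real.rpow_le_rpow _ hcv' (by positivity)
        unfold EL
        exact Finset.sum_nonneg fun _ _ => Finset.sum_nonneg fun _ _ =>
          Real.rpow_nonneg (abs_nonneg _) _
      calc K * m (N - s) a₂ * (EL p L (N - s) a₂ s fun b => F (ip b)) ^ (1 / p)
          ≤ K * m (N - s) a₂ * ((18 * 4 ^ p) ^ (1 / p) * E s q ^ (1 / p)) :=
            mul_le_mul_of_nonneg_left h1 (mul_nonneg hK (hm0 _ _))
        _ = _ := by rw [hK₂]; ring
    · refine ⟨0, fun hs a ha haq => ?_⟩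
      exact absurd ⟨hs, a, ha, haq⟩ h
  choose c hc using hex
  -- the comparison of two constants
  have hadd' : ∀ s, s ≤ N → ∀ a ∈ I (N - s), m (N - s) a = ∑ b ∈ I s, m N (sb s a b) := by
    intro s hs a ha
    have h1 := hadd X f H μ p C hp0 hC hMet hAR (N - s) a ha s
    rw [Nat.sub_add_cancel hs] at h1
    show (μ (f '' Cl (N - s) a)).toReal = _
    rw [h1, ENNReal.toReal_sum]
    intro b _
    exact measure_ne_top μ _
  have key : ∀ (s : ℕ), s ≤ N → ∀ a' ∈ I (N - s), ∀ (c₁ c₂ A₁ A₂ : ℝ) (B₁ B₂ : Finset (ℕ × ℕ)),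
      (∀ b ∈ I N, anc s b = a' → b ∈ B₁) → (∀ b ∈ I N, anc s b = a' → b ∈ B₂) →
      ∑ b ∈ B₁, m N b * |F (ip b) - c₁| ≤ A₁ → ∑ b ∈ B₂, m N b * |F (ip b) - c₂| ≤ A₂ →
      m (N - s) a' * |c₁ - c₂| ≤ A₁ + A₂ := by
    intro s hs a' ha' c₁ c₂ A₁ A₂ B₁ B₂ hB₁ hB₂ h1 h2
    rw [hadd' s hs a' ha']
    have g1 := pa_chain_sub hanc halv (N - s) s N (Nat.sub_add_cancel hs) a' ha'
      (fun b => m N b * |F (ip b) - c₁|) (fun b => mul_nonneg (hm0 _ _) (abs_nonneg _)) B₁ hB₁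
    have g2 := pa_chain_sub hanc halv (N - s) s N (Nat.sub_add_cancel hs) a' ha'
      (fun b => m N b * |F (ip b) - c₂|) (fun b => mul_nonneg (hm0 _ _) (abs_nonneg _)) B₂ hB₂
    exact pa_chain_two (I s) (fun b => m N (sb s a' b)) (fun b => F (ip (sb s a' b)))
      (fun _ _ => hm0 _ _) c₁ c₂ A₁ A₂ (g1.trans h1) (g2.trans h2)
  have hNb0 : ∀ a : ℕ × ℕ, Nb 2 a a := fun a => ⟨by omega, by omega, by omega, by omega⟩
  have fin : ∀ (x y A B R : ℝ), 0 < y → 0 ≤ x → x ≤ K₃ * y → 0 ≤ R → A ≤ R → B ≤ R → ∀ d : ℝ,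
      y * d ≤ K₂ * x * A + K₂ * y * B → 0 ≤ A → d ≤ (2 + K₂ + K₂ * K₃) * R := by
    intro x y A B R hy hx hxy hR hA hB d hd hA0
    have h1 : K₂ * x * A ≤ K₂ * (K₃ * y) * R := by
      have : K₂ * x ≤ K₂ * (K₃ * y) := mul_le_mul_of_nonneg_left hxy hK₂0
      exact mul_le_mul this hA hA0 (by positivity)
    have h2 : K₂ * y * B ≤ K₂ * y * R := mul_le_mul_of_nonneg_left hB (by positivity)
    have h3 : y * d ≤ y * ((K₂ + K₂ * K₃) * R) := by
      calc y * d ≤ K₂ * (K₃ * y) * R + K₂ * y * R := by linarith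
        _ = _ := by ring
    have h4 := le_of_mul_le_mul_left h3 hy
    linarith
  refine ⟨c, ?_, ?_, ?_⟩
  · -- children
    intro s hs q hq c' hc'
    have hs' : s ≤ N := by omega
    have hNs : N - (s + 1) + 1 = N - s := by omega
    obtain ⟨a, ha, haq⟩ := (hk1 (N - (s + 1)) q).1 hq
    obtain ⟨b₀, hb₀, hb₀c⟩ := (hk3 c').1 hc'
    have hb₀lt : b₀.1 < 3 ^ 1 ∧ b₀.2 < 3 ^ 1 := by
      simp only [I, Finset.mem_filter, Finset.mem_product, Finset.mem_range] at hb₀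
      exact hb₀.1
    have ha' : sb 1 a b₀ ∈ I (N - s) := by
      rw [← hNs]
      exact (halv _ 1 a b₀ hb₀lt.1 hb₀lt.2).2 ⟨ha, hb₀⟩
    have hkid : ip (sb 1 a b₀) = kid q c' := by rw [← hk4, haq, hb₀c]
    have h1 := hc (s + 1) q hs a ha haq
    have h2 := hc s (kid q c') hs' (sb 1 a b₀) ha' hkid
    have h3 := key s hs' (sb 1 a b₀) ha' (c (s + 1) q) (c s (kid q c')) _ _ _ _ ?_ ?_ h1 h2
    · have hr : rad f (N - (s + 1)) a ≤ H * rad f (N - s) (sb 1 a b₀) := by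
        rw [← hNs]
        exact hMet.chi _ a ha b₀ hb₀
      have hmm := hcomp H hMet.one_le _ _ a ha _ ha' hr
      refine fin _ _ _ _ _ (hmpos _ _ ha') (hm0 _ _) (hmm.trans ?_) ?_ ?_ ?_ _ h3 ?_
      · apply mul_le_mul_of_nonneg_right _ (hm0 _ _)
        rw [hK₃]
        have : 0 ≤ K₁ ^ 2 * M ^ p := by positivity
        linarith
      · exact Real.rpow_nonneg (pa_chain_En_nonneg _ _ _ _) _
      · apply Real.rpow_le_rpow (hE0 _ _) _ (by positivity)
        exact pa_chain_En_mono _ _ _ (pa_chain_nb3 _ _ _ (by omega) _)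
      · apply Real.rpow_le_rpow (hE0 _ _) _ (by positivity)
        exact pa_chain_En_mono _ _ _ (pa_chain_nb1 (L + 1) s q c' hc')
      · exact Real.rpow_nonneg (hE0 _ _) _
    · intro b hb hba
      rw [Finset.mem_filter]
      refine ⟨hb, ?_⟩
      have e1 : anc (s + 1) b = a := by
        rw [add_comm, ← hanc.2.2.1 1 s b, hba]
        exact hanc.1 1 a b₀ hb₀lt.1 hb₀lt.2
      rw [e1]
      exact hNb0 a
    · intro b hb hba
      rw [Finset.mem_filter, hba]
      exact ⟨hb, hNb0 _⟩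
  · -- neighbours
    intro s hs q hq q' hq' hd
    obtain ⟨a, ha, haq⟩ := (hk1 (N - s) q).1 hq
    obtain ⟨a', ha', haq'⟩ := (hk1 (N - s) q').1 hq'
    have hnb : Nb 2 a a' := by
      rw [hk6 2 a a', haq, haq']
      exact_mod_cast hd
    have h1 := hc s q hs a ha haq
    have h2 := hc s q' hs a' ha' haq'
    have h3 := key s hs a' ha' (c s q) (c s q') _ _ _ _ ?_ ?_ h1 h2
    · have hnb' : Nb 2 a' a := ⟨hnb.2.1, hnb.1, hnb.2.2.2, hnb.2.2.1⟩
      have hr : rad f (N - s) a ≤ M * rad f (N - s) a' := (hnear _ a' ha' a ha hnb').1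
      have hmm := hcomp M hM _ _ a ha _ ha' hr
      refine fin _ _ _ _ _ (hmpos _ _ ha') (hm0 _ _) (hmm.trans ?_) ?_ ?_ ?_ _ h3 ?_
      · apply mul_le_mul_of_nonneg_right _ (hm0 _ _)
        rw [hK₃]
        have : 0 ≤ K₁ ^ 2 * H ^ p := by positivity
        linarith
      · exact Real.rpow_nonneg (pa_chain_En_nonneg _ _ _ _) _
      · apply Real.rpow_le_rpow (hE0 _ _) _ (by positivity)
        exact pa_chain_En_mono _ _ _ (pa_chain_nb3 _ _ _ (by omega) _)
      · apply Real.rpow_le_rpow (hE0 _ _) _ (by positivity)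
        exact pa_chain_En_mono _ _ _ (pa_chain_nb2 (L + 1) s q q' hd)
      · exact Real.rpow_nonneg (hE0 _ _) _
    · intro b hb hba
      rw [Finset.mem_filter, hba]
      exact ⟨hb, hnb⟩
    · intro b hb hba
      rw [Finset.mem_filter, hba]
      exact ⟨hb, hNb0 _⟩
  · -- the smallest cells
    intro q hq x hx
    obtain ⟨a, ha, haq⟩ := (hk1 N q).1 hq
    have h1 := hc 0 q (Nat.zero_le _) a (by simpa using ha) haq
    rw [Nat.sub_zero] at h1
    have h2 : m N a * |F (ip a) - c 0 q| ≤ K₂ * m N a * E 0 q ^ (1 / p) := by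
      refine le_trans ?_ h1
      refine Finset.single_le_sum (f := fun b => m N b * |F (ip b) - c 0 q|)
        (fun b _ => mul_nonneg (hm0 _ _) (abs_nonneg _)) ?_
      rw [Finset.mem_filter]
      refine ⟨ha, ?_⟩
      have : anc 0 a = a := by simp [anc]
      rw [this]
      exact hNb0 a
    have h3 : |F (ip a) - c 0 q| ≤ K₂ * E 0 q ^ (1 / p) := by
      apply le_of_mul_le_mul_left _ (hmpos N a ha)
      calc m N a * |F (ip a) - c 0 q| ≤ K₂ * m N a * E 0 q ^ (1 / p) := h2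
        _ = _ := by ring
    rw [haq] at h3
    have h4 := pa_chain_cor p hp F q x hx
    have h5 : fe p F q ^ (1 / p) ≤ En p (Kept N) F (nb (L + 3) 0 q) ^ (1 / p) := by
      apply Real.rpow_le_rpow (pa_chain_fe_nonneg _ _ _) _ (by positivity)
      exact pa_chain_fe_le _ _ _ (pa_chain_self _ _) hq
    have h6 : E 0 q ^ (1 / p) ≤ En p (Kept N) F (nb (L + 3) 0 q) ^ (1 / p) := by
      apply Real.rpow_le_rpow (hE0 _ _) _ (by positivity)
      exact pa_chain_En_mono _ _ _ (pa_chain_nb3 _ _ _ (by omega) _)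
    have h7 : |F x - c 0 q| ≤ |F x - F q| + |F q - c 0 q| := by
      have : F x - c 0 q = (F x - F q) + (F q - c 0 q) := by ring
      rw [this]
      exact abs_add_le _ _
    set R := En p (Kept N) F (nb (L + 3) 0 q) ^ (1 / p) with hR
    have hR0 : 0 ≤ R := Real.rpow_nonneg (pa_chain_En_nonneg _ _ _ _) _
    have h8 : K₂ * E 0 q ^ (1 / p) ≤ K₂ * R := mul_le_mul_of_nonneg_left h6 hK₂0
    have h9 : 0 ≤ K₂ * K₃ * R := by positivity
    calc |F x - c 0 q| ≤ 2 * R + K₂ * R := by linarith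
      _ ≤ (2 + K₂ + K₂ * K₃) * R := by nlinarith

end Pool.Agent.Lib.MP_1d263a_an.PA
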