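import Pool.Agent.Lib.MP_1d263a_an.PA.Stm

/-!
# Carpet project, part A, piece cnt: counting cells
-/

set_option autoImplicit false

namespace Pool.Agent.Lib.MP_1d263a_an.PA

theorem pa_cnt_nb (L : ℕ) (a : ℕ × ℕ) (s : Finset (ℕ × ℕ)) (h : ∀ b ∈ s, Nb L a b) :
    s.card ≤ (2 * L + 1) ^ 2 := by
  have hsub : s ⊆ Finset.Icc (a.1 - L) (a.1 + L) ×ˢ Finset.Icc (a.2 - L) (a.2 + L) := by
    intro b hb
    obtain ⟨h1, h2, h3, h4⟩ := h b hb
    rw [Finset.mem_product, Finset.mem_Icc, Finset.mem_Icc]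
    exact ⟨⟨by omega, h2⟩, ⟨by omega, h4⟩⟩
  have h1 := Finset.card_le_card hsub
  rw [Finset.card_product, Nat.card_Icc, Nat.card_Icc] at h1
  refine h1.trans ?_
  rw [pow_two]
  exact Nat.mul_le_mul (by omega) (by omega)

theorem p_cnt : S_cnt := by
  refine ⟨fun n a => ?_, pa_cnt_nb⟩
  have h : ∀ b ∈ T n a, Nb 1 a b := fun b hb => (mem_T.1 hb).2
  exact pa_cnt_nb 1 a (T n a) h

end Pool.Agent.Lib.MP_1d263a_an.PA
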