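import Pool.Agent.Lib.MP_1d263a_an.PA.Stm

/-!
# Carpet project, part A, piece cor
-/

set_option autoImplicit false

namespace Pool.Agent.Lib.MP_1d263a_an.PA

open CarpetPI

theorem p_cor (hdst : S_dst) (_hkept : S_kept) (hgeo : S_geo) (hmet1 : S_met1) : S_cor := by
  intro X _ f η hf n a ha
  obtain ⟨hη1, hbd, -, -⟩ := hmet1 X f η hf
  obtain ⟨-, -, hdist, -, hcor⟩ := hdst
  have hdiam := hgeo.1
  obtain ⟨hxV, hxC⟩ := hcor n a ha (ip a) ⟨Or.inl rfl, Or.inl rfl⟩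
  obtain ⟨hyV, hyC⟩ := hcor n a ha ((ip a).1 + 1, (ip a).2) ⟨Or.inr rfl, Or.inl rfl⟩
  set x := PP n (ip a) with hx
  set y := PP n ((ip a).1 + 1, (ip a).2) with hy
  have hbd' : Bornology.IsBounded (f '' Cl n a) := hbd.subset (Set.subset_univ _)
  have hxy : dist x y = 1 / 3 ^ n := by
    have h1 := hdist n _ hxV _ hyV
    have h2 : dis (ip a) ((ip a).1 + 1, (ip a).2) = 1 := by
      unfold dis
      simp
    rw [h2] at h1
    rw [hx, hy, h1]
    norm_num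
  have hD : 0 ≤ dist (f x) (f y) := dist_nonneg
  have hall : ∀ z ∈ Cl n a, dist (f x) (f z) ≤ η 1 * dist (f x) (f y) := by
    intro z hz
    refine hf.2.2.2 x z y 1 zero_le_one ?_
    rw [one_mul, hxy]
    exact hdiam n a x hxC z hz
  refine ⟨Metric.dist_le_diam_of_mem hbd' ⟨x, hxC, rfl⟩ ⟨y, hyC, rfl⟩, ?_⟩
  refine Metric.diam_le_of_forall_dist_le (by positivity) ?_
  rintro _ ⟨u, hu, rfl⟩ _ ⟨v, hv, rfl⟩
  have h1 := dist_triangle_left (f u) (f v) (f x)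
  have h2 := hall u hu
  have h3 := hall v hv
  linarith

end Pool.Agent.Lib.MP_1d263a_an.PA
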