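import Pool.Agent.Lib.MP_1d263a_an.PA.Stm

/-!
# Carpet project, part A, piece cov: an upper gradient from a finite open cover
-/

set_option autoImplicit false

namespace Pool.Agent.Lib.MP_1d263a_an.PA

open MeasureTheory Set
open scoped ENNReal

/-- one step of the partition -/
private theorem pa_cov_step {X : Type} [MetricSpace X] (V : Set X) (L : ℝ) (hL : 0 ≤ L)
    (u : X → ℝ) (hu : ∀ ξ ∈ V, ∀ ζ ∈ V, |u ξ - u ζ| ≤ L * dist ξ ζ) (g : X → ℝ≥0∞)
    (hg : ∀ ξ ∈ V, ENNReal.ofReal L ≤ g ξ) (γ : ℝ → X) (a b : ℝ) (hab : a ≤ b)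
    (hγ : LipschitzOnWith 1 γ (Icc a b)) (hV : ∀ x ∈ Icc a b, γ x ∈ V) :
    ENNReal.ofReal |u (γ b) - u (γ a)| ≤ ∫⁻ x in Ioc a b, g (γ x) := by
  have ha : a ∈ Icc a b := ⟨le_rfl, hab⟩
  have hb : b ∈ Icc a b := ⟨hab, le_rfl⟩
  have h1 : |u (γ b) - u (γ a)| ≤ L * (b - a) := by
    refine (hu _ (hV b hb) _ (hV a ha)).trans ?_
    apply mul_le_mul_of_nonneg_left _ hL
    have h2 := hγ.dist_le_mul b hb a ha
    rw [NNReal.coe_one, one_mul, Real.dist_eq, abs_of_nonneg (by linarith)] at h2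
    exact h2
  calc ENNReal.ofReal |u (γ b) - u (γ a)| ≤ ENNReal.ofReal (L * (b - a)) :=
        ENNReal.ofReal_le_ofReal h1
    _ = ∫⁻ _ in Ioc a b, ENNReal.ofReal L := by
        rw [setLIntegral_const, Real.volume_Ioc, ENNReal.ofReal_mul hL]
    _ ≤ ∫⁻ x in Ioc a b, g (γ x) :=
        setLIntegral_mono' measurableSet_Ioc fun x hx => hg _ (hV x ⟨hx.1.le, hx.2⟩)

theorem p_cov : S_cov := by
  intro X _ s V L u hV hcov hL hu
  set g : X → ℝ≥0∞ := fun ξ => ∑ i ∈ s, (V i).indicator (fun _ => ENNReal.ofReal (L i)) ξ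
    with hgdef
  have hg : ∀ i ∈ s, ∀ ξ ∈ V i, ENNReal.ofReal (L i) ≤ g ξ := by
    intro i hi ξ hξ
    have h1 : (V i).indicator (fun _ => ENNReal.ofReal (L i)) ξ = ENNReal.ofReal (L i) :=
      Set.indicator_of_mem hξ _
    rw [← h1]
    exact Finset.single_le_sum (f := fun i => (V i).indicator (fun _ => ENNReal.ofReal (L i)) ξ)
      (fun _ _ => bot_le) hi
  intro γ l hl hγ
  -- the cover of the interval
  have hcont : Continuous (fun t : Icc (0 : ℝ) l => γ t) :=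
    continuousOn_iff_continuous_domRestrict.1 hγ.continuousOn
  obtain ⟨t, ht0, htm, ⟨m, hm⟩, hc⟩ := exists_monotone_Icc_subset_open_cover_Icc (ι := s) hl
    (c := fun i => {t : Icc (0 : ℝ) l | γ t ∈ V i})
    (fun i => (hV i i.2).preimage hcont) (by
      intro x _
      obtain ⟨i, hi, hx⟩ := hcov (γ x)
      exact Set.mem_iUnion.2 ⟨⟨i, hi⟩, hx⟩)
  have ht0' : ((t 0 : Icc (0 : ℝ) l) : ℝ) = 0 := ht0
  have key : ∀ n : ℕ, ENNReal.ofReal |u (γ (t n)) - u (γ 0)| ≤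
      ∫⁻ x in Ioc (0 : ℝ) (t n), g (γ x) := by
    intro n
    induction n with
    | zero =>
      rw [ht0', sub_self, abs_zero, ENNReal.ofReal_zero]
      exact bot_le
    | succ n ih =>
      have hle : ((t n : Icc (0 : ℝ) l) : ℝ) ≤ (t (n + 1) : Icc (0 : ℝ) l) :=
        htm (Nat.le_succ n)
      obtain ⟨i, hi⟩ := hc n
      have hstep := pa_cov_step (V i) (L i) (hL i i.2) u (hu i i.2) g (hg i i.2) γ
        (t n) (t (n + 1)) hle
        (hγ.mono (Icc_subset_Icc (t n).2.1 (t (n + 1)).2.2)) (by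
          intro x hx
          have hx' : x ∈ Icc (0 : ℝ) l := ⟨(t n).2.1.trans hx.1, hx.2.trans (t (n + 1)).2.2⟩
          exact hi (show (⟨x, hx'⟩ : Icc (0 : ℝ) l) ∈ Icc (t n) (t (n + 1)) from ⟨hx.1, hx.2⟩))
      have hun : Ioc (0 : ℝ) (t (n + 1)) = Ioc (0 : ℝ) (t n) ∪ Ioc ((t n : Icc (0 : ℝ) l) : ℝ)
          (t (n + 1)) := (Ioc_union_Ioc_eq_Ioc (t n).2.1 hle).symm
      have hdis : Disjoint (Ioc (0 : ℝ) (t n)) (Ioc ((t n : Icc (0 : ℝ) l) : ℝ) (t (n + 1))) := by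
        rw [Set.disjoint_left]
        intro x hx hx2
        exact absurd hx.2 (not_le.2 hx2.1)
      rw [hun, lintegral_union measurableSet_Ioc hdis]
      calc ENNReal.ofReal |u (γ (t (n + 1))) - u (γ 0)|
          ≤ ENNReal.ofReal (|u (γ (t n)) - u (γ 0)| + |u (γ (t (n + 1))) - u (γ (t n))|) := by
            apply ENNReal.ofReal_le_ofReal
            have : u (γ (t (n + 1))) - u (γ 0) = (u (γ (t n)) - u (γ 0)) +
              (u (γ (t (n + 1))) - u (γ (t n))) := by ring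
            rw [this]
            exact abs_add_le _ _
        _ = ENNReal.ofReal |u (γ (t n)) - u (γ 0)| +
            ENNReal.ofReal |u (γ (t (n + 1))) - u (γ (t n))| :=
            ENNReal.ofReal_add (abs_nonneg _) (abs_nonneg _)
        _ ≤ _ := add_le_add ih hstep
  have h2 := key m
  have h3 : ((t m : Icc (0 : ℝ) l) : ℝ) = l := by
    have := hm m le_rfl
    exact this
  rw [h3] at h2
  exact h2.trans (lintegral_mono_set Ioc_subset_Icc_self)

end Pool.Agent.Lib.MP_1d263a_an.PA
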