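import Pool.Agent.Lib.MP_1d263a_an.PA.Stm

/-!
# Carpet project, part A, piece cv: from functions on vertices to functions on cells
-/

set_option autoImplicit false

namespace Pool.Agent.Lib.MP_1d263a_an.PA

open MeasureTheory CarpetPI
open scoped ENNReal

/-- from the lower left corner of a face to any corner one goes along at most two sides -/
theorem pa_cv_cor {p : ℝ} (hp : 1 ≤ p) (F : Pt → ℝ) (f z : Pt) (hz : IsCor z f) :
    ∃ m : ℝ, 0 ≤ m ∧ |F f - F z| ≤ 2 * m ∧ m ^ p ≤ fe p F f := by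
  classical
  have hle : ∀ e ∈ sides f, |du F e| ^ p ≤ fe p F f := by
    intro e he
    unfold fe
    exact Finset.single_le_sum (f := fun e => |du F e| ^ p)
      (fun e _ => Real.rpow_nonneg (abs_nonneg _) p) he
  have h0 : (0 : ℝ) ^ p ≤ fe p F f := by
    rw [Real.zero_rpow (by linarith)]
    unfold fe
    exact Finset.sum_nonneg fun e _ => Real.rpow_nonneg (abs_nonneg _) p
  have hb : (false, f) ∈ sides f := by simp [sides]
  have hl : (true, f) ∈ sides f := by simp [sides]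
  have hr : (true, (f.1 + 1, f.2)) ∈ sides f := by simp [sides]
  obtain ⟨h1, h2⟩ := hz
  have hzz : z = (z.1, z.2) := rfl
  have hff : f = (f.1, f.2) := rfl
  rcases h1 with h1 | h1 <;> rcases h2 with h2 | h2
  · refine ⟨0, le_rfl, ?_, h0⟩
    have : z = f := by rw [hzz, h1, h2]
    rw [this, sub_self, abs_zero]
    norm_num
  · refine ⟨|du F (true, f)|, abs_nonneg _, ?_, hle _ hl⟩
    have : z = (f.1, f.2 + 1) := by rw [hzz, h1, h2]
    have e : |F f - F z| = |du F (true, f)| := by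
      rw [this, abs_sub_comm]
      simp [du, hd, tl]
    rw [e]
    linarith [abs_nonneg (du F (true, f))]
  · refine ⟨|du F (false, f)|, abs_nonneg _, ?_, hle _ hb⟩
    have : z = (f.1 + 1, f.2) := by rw [hzz, h1, h2]
    have e : |F f - F z| = |du F (false, f)| := by
      rw [this, abs_sub_comm]
      simp [du, hd, tl]
    rw [e]
    linarith [abs_nonneg (du F (false, f))]
  · refine ⟨max |du F (false, f)| |du F (true, (f.1 + 1, f.2))|,
      le_max_of_le_left (abs_nonneg _), ?_, ?_⟩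
    · have : z = (f.1 + 1, f.2 + 1) := by rw [hzz, h1, h2]
      have e : F f - F z = -(du F (false, f) + du F (true, (f.1 + 1, f.2))) := by
        rw [this]
        simp [du, hd, tl]
      rw [e, abs_neg]
      have := abs_add_le (du F (false, f)) (du F (true, (f.1 + 1, f.2)))
      have := le_max_left |du F (false, f)| |du F (true, (f.1 + 1, f.2))|
      have := le_max_right |du F (false, f)| |du F (true, (f.1 + 1, f.2))|
      linarith
    · rcases le_total |du F (false, f)| |du F (true, (f.1 + 1, f.2))| with h | h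
      · rw [max_eq_right h]
        exact hle _ hr
      · rw [max_eq_left h]
        exact hle _ hb

/-- touching cells have a common corner -/
theorem pa_cv_common {b b' : ℕ × ℕ} (h : Tch b b') :
    ∃ z : Pt, IsCor z (ip b) ∧ IsCor z (ip b') := by
  obtain ⟨h1, h2, h3, h4⟩ := h
  refine ⟨(max (b.1 : ℤ) b'.1, max (b.2 : ℤ) b'.2), ?_, ?_⟩
  · unfold IsCor ip
    simp only
    omega
  · unfold IsCor ip
    simp only
    omega

theorem pa_cv_fe_nonneg (p : ℝ) (F : Pt → ℝ) (f : Pt) : 0 ≤ fe p F f := by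
  unfold fe
  exact Finset.sum_nonneg fun e _ => Real.rpow_nonneg (abs_nonneg _) p

theorem pa_cv_pair {p : ℝ} (hp : 1 ≤ p) (F : Pt → ℝ) {b b' : ℕ × ℕ} (h : Tch b b') :
    |F (ip b) - F (ip b')| ^ p ≤ 4 ^ p * (fe p F (ip b) + fe p F (ip b')) := by
  obtain ⟨z, hz, hz'⟩ := pa_cv_common h
  obtain ⟨m, hm, hm1, hm2⟩ := pa_cv_cor hp F _ _ hz
  obtain ⟨m', hm', hm1', hm2'⟩ := pa_cv_cor hp F _ _ hz'
  have h1 : |F (ip b) - F (ip b')| ≤ 4 * max m m' := by
    have h2 : |F (ip b) - F (ip b')| ≤ |F (ip b) - F z| + |F z - F (ip b')| := abs_sub_le _ _ _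
    rw [abs_sub_comm (F z)] at h2
    have := le_max_left m m'
    have := le_max_right m m'
    linarith
  have hM : 0 ≤ max m m' := le_max_of_le_left hm
  have h2 : |F (ip b) - F (ip b')| ^ p ≤ (4 * max m m') ^ p :=
    Real.rpow_le_rpow (abs_nonneg _) h1 (by linarith)
  rw [Real.mul_rpow (by norm_num) hM] at h2
  refine le_trans h2 (mul_le_mul_of_nonneg_left ?_ (by positivity))
  have e1 := pa_cv_fe_nonneg p F (ip b)
  have e2 := pa_cv_fe_nonneg p F (ip b')
  rcases le_total m m' with h | h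
  · rw [max_eq_right h]
    linarith
  · rw [max_eq_left h]
    linarith

/-- the energy over the cells near `a` -/
theorem pa_cv_near (hkept : S_kept) {p : ℝ} (L k : ℕ) (a : ℕ × ℕ) (n : ℕ) (F : Pt → ℝ)
    (S : Finset (ℕ × ℕ)) (hS : ∀ b ∈ S, b ∈ I (k + n) ∧ Nb (L + 1) a (anc n b)) :
    ∑ b ∈ S, fe p F (ip b) ≤ En p (Kept (k + n)) F (nb (L + 1) n (ip a)) := by
  classical
  obtain ⟨hk1, -, -, -, hk5, -⟩ := hkept
  unfold En
  rw [← Finset.sum_image (f := fun f => fe p F f) (g := ip) (s := S)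
    (fun x _ y _ h => hk5 x y h)]
  refine Finset.sum_le_sum_of_subset_of_nonneg ?_ fun f _ _ => pa_cv_fe_nonneg p F f
  intro f hf
  rw [Finset.mem_image] at hf
  obtain ⟨b, hb, rfl⟩ := hf
  obtain ⟨hbI, h1, h2, h3, h4⟩ := hS b hb
  rw [Finset.mem_filter]
  refine ⟨?_, (hk1 _ _).mpr ⟨b, hbI, rfl⟩⟩
  unfold nb box ip anc at *
  simp only [Finset.mem_product, Finset.mem_Ico] at *
  have h3n : 0 < 3 ^ n := by positivity
  have key : ∀ x y : ℕ, x ≤ y / 3 ^ n + (L + 1) → y / 3 ^ n ≤ x + (L + 1) →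
      ((x : ℤ) - ((L + 1 : ℕ) : ℤ)) * 3 ^ n ≤ (y : ℤ) ∧
        (y : ℤ) < ((x : ℤ) + ((L + 1 : ℕ) : ℤ) + 1) * 3 ^ n := by
    intro x y hx hy
    have e1 : (y / 3 ^ n) * 3 ^ n ≤ y := Nat.div_mul_le_self y (3 ^ n)
    have e2 : y < (y / 3 ^ n + 1) * 3 ^ n := by
      have := Nat.lt_div_mul_add (a := y) h3n
      linarith [add_mul (y / 3 ^ n) 1 (3 ^ n)]
    have e1' : ((y / 3 ^ n : ℕ) : ℤ) * 3 ^ n ≤ (y : ℤ) := by exact_mod_cast e1
    have e2' : (y : ℤ) < (((y / 3 ^ n : ℕ) : ℤ) + 1) * 3 ^ n := by exact_mod_cast e2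
    have hx' : (x : ℤ) ≤ ((y / 3 ^ n : ℕ) : ℤ) + ((L + 1 : ℕ) : ℤ) := by exact_mod_cast hx
    have hy' : ((y / 3 ^ n : ℕ) : ℤ) ≤ (x : ℤ) + ((L + 1 : ℕ) : ℤ) := by exact_mod_cast hy
    have hpos : (0 : ℤ) < 3 ^ n := by positivity
    constructor
    · refine le_trans (mul_le_mul_of_nonneg_right ?_ hpos.le) e1'
      linarith
    · refine lt_of_lt_of_le e2' (mul_le_mul_of_nonneg_right ?_ hpos.le)
      linarith
  exact ⟨key _ _ h1 h2, key _ _ h3 h4⟩

theorem p_cv (hkept : S_kept) (hcnt : S_cnt) (hanc : S_anc) : S_cv := by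
  classical
  intro p hp L k a ha n F
  obtain ⟨hc1, -⟩ := hcnt
  obtain ⟨-, -, -, ha4⟩ := hanc
  unfold EL
  set SL := (I (k + n)).filter (fun b => Nb L a (anc n b)) with hSL
  set SM := (I (k + n)).filter (fun b => Nb (L + 1) a (anc n b)) with hSM
  have hSL' : ∀ b ∈ SL, b ∈ I (k + n) ∧ Nb (L + 1) a (anc n b) := by
    intro b hb
    rw [hSL, Finset.mem_filter] at hb
    obtain ⟨h0, h1, h2, h3, h4⟩ := hb
    exact ⟨h0, by omega, by omega, by omega, by omega⟩
  have hSM' : ∀ b ∈ SM, b ∈ I (k + n) ∧ Nb (L + 1) a (anc n b) := by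
    intro b hb
    rw [hSM, Finset.mem_filter] at hb
    exact hb
  have hsub : ∀ b ∈ SL, ∀ b' ∈ T (k + n) b, b' ∈ SM ∧ b ∈ T (k + n) b' := by
    intro b hb b' hb'
    rw [hSL, Finset.mem_filter] at hb
    rw [mem_T] at hb'
    refine ⟨?_, mem_T.mpr ⟨hb.1, hb'.2.symm⟩⟩
    rw [hSM, Finset.mem_filter]
    refine ⟨hb'.1, ?_⟩
    obtain ⟨g1, g2, g3, g4⟩ := ha4 1 n b b' hb'.2
    obtain ⟨h1, h2, h3, h4⟩ := hb.2
    exact ⟨by omega, by omega, by omega, by omega⟩
  have hE := pa_cv_near hkept (p := p) L k a n F SL hSL'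
  have hE' := pa_cv_near hkept (p := p) L k a n F SM hSM'
  have h4p : (0 : ℝ) ≤ 4 ^ p := by positivity
  -- first role
  have hA : ∑ b ∈ SL, ∑ _b' ∈ T (k + n) b, fe p F (ip b) ≤ 9 * ∑ b ∈ SL, fe p F (ip b) := by
    rw [Finset.mul_sum]
    refine Finset.sum_le_sum fun b _ => ?_
    rw [Finset.sum_const, nsmul_eq_mul]
    refine mul_le_mul_of_nonneg_right ?_ (pa_cv_fe_nonneg p F _)
    exact_mod_cast hc1 (k + n) b
  -- second role
  have hB : ∑ b ∈ SL, ∑ b' ∈ T (k + n) b, fe p F (ip b') ≤ 9 * ∑ b ∈ SM, fe p F (ip b) := by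
    have h1 : ∑ b ∈ SL, ∑ b' ∈ T (k + n) b, fe p F (ip b') =
        ∑ b ∈ SL, ∑ b' ∈ SM, if b' ∈ T (k + n) b then fe p F (ip b') else 0 := by
      refine Finset.sum_congr rfl fun b hb => ?_
      rw [← Finset.sum_filter]
      refine Finset.sum_congr ?_ fun _ _ => rfl
      ext b'
      rw [Finset.mem_filter]
      exact ⟨fun h => ⟨(hsub b hb b' h).1, h⟩, fun h => h.2⟩
    rw [h1, Finset.sum_comm, Finset.mul_sum]
    refine Finset.sum_le_sum fun b' hb' => ?_
    rw [← Finset.sum_filter, Finset.sum_const, nsmul_eq_mul]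
    refine mul_le_mul_of_nonneg_right ?_ (pa_cv_fe_nonneg p F _)
    have h2 : (SL.filter (fun b => b' ∈ T (k + n) b)).card ≤ (T (k + n) b').card := by
      refine Finset.card_le_card ?_
      intro b hb
      rw [Finset.mem_filter] at hb
      exact (hsub b hb.1 b' hb.2).2
    exact_mod_cast h2.trans (hc1 (k + n) b')
  calc ∑ b ∈ SL, ∑ b' ∈ T (k + n) b, |F (ip b) - F (ip b')| ^ p
      ≤ ∑ b ∈ SL, ∑ b' ∈ T (k + n) b, 4 ^ p * (fe p F (ip b) + fe p F (ip b')) := by
        refine Finset.sum_le_sum fun b _ => Finset.sum_le_sum fun b' hb' => ?_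
        exact pa_cv_pair hp F (mem_T.mp hb').2
    _ = 4 ^ p * (∑ b ∈ SL, ∑ _b' ∈ T (k + n) b, fe p F (ip b) +
          ∑ b ∈ SL, ∑ b' ∈ T (k + n) b, fe p F (ip b')) := by
        rw [← Finset.sum_add_distrib, Finset.mul_sum]
        refine Finset.sum_congr rfl fun b _ => ?_
        rw [← Finset.sum_add_distrib, Finset.mul_sum]
    _ ≤ 4 ^ p * (9 * En p (Kept (k + n)) F (nb (L + 1) n (ip a)) +
          9 * En p (Kept (k + n)) F (nb (L + 1) n (ip a))) := by
        refine mul_le_mul_of_nonneg_left ?_ h4p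
        linarith
    _ = 18 * 4 ^ p * En p (Kept (k + n)) F (nb (L + 1) n (ip a)) := by ring

end Pool.Agent.Lib.MP_1d263a_an.PA
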