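import Pool.Agent.Lib.MP_1d263a_an.PA.Stm

/-!
# Carpet project, part A: the distances of the lattice points (piece dst)
-/

set_option autoImplicit false

namespace Pool.Agent.Lib.MP_1d263a_an.PA

open MeasureTheory CarpetPI
open scoped ENNReal

/-- a corner of the face `ip a`, written with natural numbers -/
theorem pa_dst_cor {x : Pt} {a : ℕ × ℕ} (h : IsCor x (ip a)) :
    ∃ i j : ℕ, i ≤ 1 ∧ j ≤ 1 ∧ x.1 = ((a.1 + i : ℕ) : ℤ) ∧ x.2 = ((a.2 + j : ℕ) : ℤ) := by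
  obtain ⟨h1, h2⟩ := h
  simp only [ip] at h1 h2
  rcases h1 with h1 | h1 <;> rcases h2 with h2 | h2
  · exact ⟨0, 0, by norm_num, by norm_num, by simpa using h1, by simpa using h2⟩
  · exact ⟨0, 1, by norm_num, by norm_num, by simpa using h1, by simpa using h2⟩
  · exact ⟨1, 0, by norm_num, by norm_num, by simpa using h1, by simpa using h2⟩
  · exact ⟨1, 1, by norm_num, by norm_num, by simpa using h1, by simpa using h2⟩

theorem pa_dst_mem (hk : S_kept) {N : ℕ} {x : Pt} (hx : x ∈ VK (Kept N)) :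
    (((x.1 : ℝ) / 3 ^ N, (x.2 : ℝ) / 3 ^ N) : ℝ × ℝ) ∈ carpet := by
  obtain ⟨f, hf, hc⟩ := hx
  obtain ⟨a, ha, rfl⟩ := (hk.1 N f).1 hf
  obtain ⟨i, j, hi, hj, h1, h2⟩ := pa_dst_cor hc
  have h3 := pt_mem (mem_I.1 ha) hi hj
  rw [h1, h2]
  simpa [pt] using h3

theorem pa_dst_one (hk : S_kept) {N : ℕ} {x : Pt} (hx : x ∈ VK (Kept N)) :
    (PP N x).1 = ((x.1 : ℝ) / 3 ^ N, (x.2 : ℝ) / 3 ^ N) := by
  unfold PP
  rw [dif_pos (pa_dst_mem hk hx)]

/-- the children in the corners of a kept face are kept -/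
theorem pa_dst_kid {N : ℕ} {f : Pt} (hf : f ∈ Kept N) (i j : ℤ) (hi : i = 0 ∨ i = 1)
    (hj : j = 0 ∨ j = 1) : ((3 * f.1 + 2 * i, 3 * f.2 + 2 * j) : Pt) ∈ Kept (N + 1) := by
  obtain ⟨h1, h2, h3, h4, h5⟩ := hf
  have e1 : (3 : ℤ) ^ (N + 1) = 3 * 3 ^ N := pow_succ' _ _
  refine ⟨?_, ?_, ?_, ?_, ?_⟩
  · show 0 ≤ 3 * f.1 + 2 * i
    rcases hi with rfl | rfl <;> linarith
  · show 3 * f.1 + 2 * i < 3 ^ (N + 1)
    rw [e1]
    rcases hi with rfl | rfl <;> omega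
  · show 0 ≤ 3 * f.2 + 2 * j
    rcases hj with rfl | rfl <;> linarith
  · show 3 * f.2 + 2 * j < 3 ^ (N + 1)
    rw [e1]
    rcases hj with rfl | rfl <;> omega
  · intro k hk
    rcases k with - | k
    · rintro ⟨c1, -⟩
      simp only [pow_zero, Int.ediv_one] at c1
      rcases hi with rfl | rfl <;> omega
    · have d1 : (3 * f.1 + 2 * i) / 3 ^ (k + 1) = f.1 / 3 ^ k := by
        rw [pow_succ', ← Int.ediv_ediv_of_nonneg (by norm_num : (0 : ℤ) ≤ 3)]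
        congr 1
        rcases hi with rfl | rfl <;> omega
      have d2 : (3 * f.2 + 2 * j) / 3 ^ (k + 1) = f.2 / 3 ^ k := by
        rw [pow_succ', ← Int.ediv_ediv_of_nonneg (by norm_num : (0 : ℤ) ≤ 3)]
        congr 1
        rcases hj with rfl | rfl <;> omega
      show ¬ ((3 * f.1 + 2 * i) / 3 ^ (k + 1) % 3 = 1 ∧ (3 * f.2 + 2 * j) / 3 ^ (k + 1) % 3 = 1)
      rw [d1, d2]
      exact h5 k (by omega)

theorem pa_dst_two {N : ℕ} {x : Pt} (hx : x ∈ VK (Kept N)) : mulP 3 x ∈ VK (Kept (N + 1)) := by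
  obtain ⟨f, hf, hc1, hc2⟩ := hx
  obtain ⟨i, hi, h1⟩ : ∃ i : ℤ, (i = 0 ∨ i = 1) ∧ x.1 = f.1 + i := by
    rcases hc1 with h | h
    · exact ⟨0, Or.inl rfl, by simpa using h⟩
    · exact ⟨1, Or.inr rfl, h⟩
  obtain ⟨j, hj, h2⟩ : ∃ j : ℤ, (j = 0 ∨ j = 1) ∧ x.2 = f.2 + j := by
    rcases hc2 with h | h
    · exact ⟨0, Or.inl rfl, by simpa using h⟩
    · exact ⟨1, Or.inr rfl, h⟩
  refine ⟨_, pa_dst_kid hf i j hi hj, ?_, ?_⟩
  · show 3 * x.1 = 3 * f.1 + 2 * i ∨ 3 * x.1 = 3 * f.1 + 2 * i + 1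
    rcases hi with rfl | rfl <;> omega
  · show 3 * x.2 = 3 * f.2 + 2 * j ∨ 3 * x.2 = 3 * f.2 + 2 * j + 1
    rcases hj with rfl | rfl <;> omega

theorem pa_dst_abs (N : ℕ) (a b : ℤ) :
    dist ((a : ℝ) / 3 ^ N) ((b : ℝ) / 3 ^ N) = ((|a - b| : ℤ) : ℝ) / 3 ^ N := by
  have h3 : (0 : ℝ) < 3 ^ N := by positivity
  rw [Real.dist_eq, ← sub_div, abs_div, abs_of_pos h3]
  push_cast
  rfl

theorem p_dst (hk : S_kept) : S_dst := by
  refine ⟨fun N x hx => pa_dst_one hk hx, fun N x hx => pa_dst_two hx, ?_, ?_, ?_⟩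
  · intro N x hx y hy
    have h3 : (0 : ℝ) < 3 ^ N := by positivity
    rw [Subtype.dist_eq, pa_dst_one hk hx, pa_dst_one hk hy, Prod.dist_eq]
    show max (dist ((x.1 : ℝ) / 3 ^ N) ((y.1 : ℝ) / 3 ^ N))
      (dist ((x.2 : ℝ) / 3 ^ N) ((y.2 : ℝ) / 3 ^ N)) = (dis x y : ℝ) / 3 ^ N
    rw [pa_dst_abs, pa_dst_abs, dis, Int.cast_max]
    exact (max_div_div_right h3.le _ _)
  · intro N x hx
    apply Subtype.ext
    rw [pa_dst_one hk (pa_dst_two hx), pa_dst_one hk hx]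
    have h3 : (3 : ℝ) ^ N ≠ 0 := by positivity
    simp only [mulP, Int.cast_mul, Int.cast_ofNat, Prod.mk.injEq]
    constructor
    · rw [pow_succ]
      field_simp
    · rw [pow_succ]
      field_simp
  · intro n a ha x hx
    have hv : x ∈ VK (Kept n) := ⟨ip a, (hk.1 n (ip a)).2 ⟨a, ha, rfl⟩, hx⟩
    refine ⟨hv, ?_⟩
    have h3 : (0 : ℝ) < 3 ^ n := by positivity
    obtain ⟨i, j, hi, hj, h1, h2⟩ := pa_dst_cor hx
    have hi' : (i : ℝ) ≤ 1 := by exact_mod_cast hi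
    have hj' : (j : ℝ) ≤ 1 := by exact_mod_cast hj
    have hi0 : (0 : ℝ) ≤ i := Nat.cast_nonneg _
    have hj0 : (0 : ℝ) ≤ j := Nat.cast_nonneg _
    have e := pa_dst_one hk hv
    rw [h1, h2] at e
    simp only [Cl, Set.mem_ofPred_eq]
    rw [e]
    push_cast
    refine ⟨div_le_div_of_nonneg_right (by linarith) h3.le,
      div_le_div_of_nonneg_right (by linarith) h3.le,
      div_le_div_of_nonneg_right (by linarith) h3.le,
      div_le_div_of_nonneg_right (by linarith) h3.le⟩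

end Pool.Agent.Lib.MP_1d263a_an.PA
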