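import Pool.Agent.Lib.MP_1d263a_an.PA.Stm

/-!
# geo: elementary geometry of the cells
-/

set_option autoImplicit false

namespace Pool.Agent.Lib.MP_1d263a_an.PA

theorem pa_geo_mem {n : ℕ} {a : ℕ × ℕ} {q : carpet} : q ∈ Cl n a ↔
    (a.1 : ℝ) ≤ q.1.1 * 3 ^ n ∧ q.1.1 * 3 ^ n ≤ (a.1 : ℝ) + 1 ∧
      (a.2 : ℝ) ≤ q.1.2 * 3 ^ n ∧ q.1.2 * 3 ^ n ≤ (a.2 : ℝ) + 1 := by
  have h3 : (0 : ℝ) < 3 ^ n := by positivity
  unfold Cl
  change ((a.1 : ℝ) / 3 ^ n ≤ q.1.1 ∧ q.1.1 ≤ ((a.1 : ℝ) + 1) / 3 ^ n ∧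
    (a.2 : ℝ) / 3 ^ n ≤ q.1.2 ∧ q.1.2 ≤ ((a.2 : ℝ) + 1) / 3 ^ n) ↔ _
  rw [div_le_iff₀ h3, div_le_iff₀ h3, le_div_iff₀ h3, le_div_iff₀ h3]

theorem pa_geo_memO {n : ℕ} {a : ℕ × ℕ} {q : carpet} : q ∈ Op n a ↔
    (a.1 : ℝ) < q.1.1 * 3 ^ n ∧ q.1.1 * 3 ^ n < (a.1 : ℝ) + 1 ∧
      (a.2 : ℝ) < q.1.2 * 3 ^ n ∧ q.1.2 * 3 ^ n < (a.2 : ℝ) + 1 := by
  have h3 : (0 : ℝ) < 3 ^ n := by positivity
  unfold Op
  change ((a.1 : ℝ) / 3 ^ n < q.1.1 ∧ q.1.1 < ((a.1 : ℝ) + 1) / 3 ^ n ∧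
    (a.2 : ℝ) / 3 ^ n < q.1.2 ∧ q.1.2 < ((a.2 : ℝ) + 1) / 3 ^ n) ↔ _
  rw [div_lt_iff₀ h3, div_lt_iff₀ h3, lt_div_iff₀ h3, lt_div_iff₀ h3]

theorem pa_geo_dist (n : ℕ) (x y : carpet) : dist x y * 3 ^ n =
    max |x.1.1 * 3 ^ n - y.1.1 * 3 ^ n| |x.1.2 * 3 ^ n - y.1.2 * 3 ^ n| := by
  have h3 : (0 : ℝ) < 3 ^ n := by positivity
  rw [Subtype.dist_eq, Prod.dist_eq, Real.dist_eq, Real.dist_eq, ← sub_mul, ← sub_mul, abs_mul,
    abs_mul, abs_of_pos h3, max_mul_of_nonneg _ _ h3.le]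

theorem pa_geo_mid {n : ℕ} {a : ℕ × ℕ} (ha : a ∈ I n) :
    (mid n a).1 = pt (n + 1) (3 * a.1 + 1) (3 * a.2 + 1) := by
  have h : Alive n a.1 a.2 := mem_I.mp ha
  unfold mid
  rw [dif_pos h]

theorem pa_geo_mid1 {n : ℕ} {a : ℕ × ℕ} (ha : a ∈ I n) :
    (mid n a).1.1 * 3 ^ n = (a.1 : ℝ) + 1 / 3 := by
  rw [pa_geo_mid ha]
  simp only [pt]
  rw [pow_succ]
  have h3 : (3 : ℝ) ^ n ≠ 0 := by positivity
  push_cast
  field_simp

theorem pa_geo_mid2 {n : ℕ} {a : ℕ × ℕ} (ha : a ∈ I n) :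
    (mid n a).1.2 * 3 ^ n = (a.2 : ℝ) + 1 / 3 := by
  rw [pa_geo_mid ha]
  simp only [pt]
  rw [pow_succ]
  have h3 : (3 : ℝ) ^ n ≠ 0 := by positivity
  push_cast
  field_simp

theorem p_geo : S_geo := by
  refine ⟨?_, ?_, ?_, ?_, ?_, ?_, ?_, ?_, ?_⟩
  · intro n a x hx y hy
    have h3 : (0 : ℝ) < 3 ^ n := by positivity
    obtain ⟨x1, x2, x3, x4⟩ := pa_geo_mem.mp hx
    obtain ⟨y1, y2, y3, y4⟩ := pa_geo_mem.mp hy
    rw [le_div_iff₀ h3, pa_geo_dist]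
    refine max_le ?_ ?_ <;> rw [abs_le] <;> constructor <;> linarith
  · intro n a b hab x hx y hy
    have h3 : (0 : ℝ) < 3 ^ n := by positivity
    obtain ⟨x1, x2, x3, x4⟩ := pa_geo_mem.mp hx
    obtain ⟨y1, y2, y3, y4⟩ := pa_geo_mem.mp hy
    rw [div_le_iff₀ h3, pa_geo_dist, le_max_iff]
    have hcases : b.1 + 2 ≤ a.1 ∨ a.1 + 2 ≤ b.1 ∨ b.2 + 2 ≤ a.2 ∨ a.2 + 2 ≤ b.2 := by
      by_contra hcon
      apply hab
      unfold Tch
      omega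
    rcases hcases with h | h | h | h
    · left
      have h' : (b.1 : ℝ) + 2 ≤ a.1 := by exact_mod_cast h
      exact le_trans (by linarith) (le_abs_self _)
    · left
      have h' : (a.1 : ℝ) + 2 ≤ b.1 := by exact_mod_cast h
      exact le_trans (by linarith) (neg_le_abs _)
    · right
      have h' : (b.2 : ℝ) + 2 ≤ a.2 := by exact_mod_cast h
      exact le_trans (by linarith) (le_abs_self _)
    · right
      have h' : (a.2 : ℝ) + 2 ≤ b.2 := by exact_mod_cast h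
      exact le_trans (by linarith) (neg_le_abs _)
  · intro R n a b hab x hx y hy
    have h3 : (0 : ℝ) < 3 ^ n := by positivity
    obtain ⟨x1, x2, x3, x4⟩ := pa_geo_mem.mp hx
    obtain ⟨y1, y2, y3, y4⟩ := pa_geo_mem.mp hy
    obtain ⟨n1, n2, n3, n4⟩ := hab
    have m1 : (a.1 : ℝ) ≤ b.1 + R := by exact_mod_cast n1
    have m2 : (b.1 : ℝ) ≤ a.1 + R := by exact_mod_cast n2
    have m3 : (a.2 : ℝ) ≤ b.2 + R := by exact_mod_cast n3
    have m4 : (b.2 : ℝ) ≤ a.2 + R := by exact_mod_cast n4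
    rw [le_div_iff₀ h3, pa_geo_dist]
    refine max_le ?_ ?_ <;> rw [abs_le] <;> constructor <;> linarith
  · intro n a ha x hx
    have h3 : (0 : ℝ) < 3 ^ n := by positivity
    have hA : Alive n a.1 a.2 := mem_I.mp ha
    obtain ⟨x1, x2, x3, x4⟩ := pa_geo_mem.mp hx
    have e : (1 : ℝ) / (2 * 3 ^ n) = (1 / 2) / 3 ^ n := by field_simp
    rcases le_total (x.1.1 * 3 ^ n) ((a.1 : ℝ) + 1 / 2) with h | h
    · refine ⟨⟨_, pt_mem hA (a := 1) (b := 0) le_rfl (by norm_num)⟩, ?_, ?_⟩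
      · rw [pa_geo_mem]
        simp only [pt]
        rw [div_mul_cancel₀ _ h3.ne', div_mul_cancel₀ _ h3.ne']
        push_cast
        refine ⟨by linarith, by linarith, by linarith, by linarith⟩
      · rw [e, div_le_iff₀ h3, pa_geo_dist]
        refine le_trans ?_ (le_max_left _ _)
        simp only [pt]
        rw [div_mul_cancel₀ _ h3.ne']
        push_cast
        exact le_trans (by linarith) (neg_le_abs _)
    · refine ⟨⟨_, pt_mem hA (a := 0) (b := 0) (by norm_num) (by norm_num)⟩, ?_, ?_⟩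
      · rw [pa_geo_mem]
        simp only [pt]
        rw [div_mul_cancel₀ _ h3.ne', div_mul_cancel₀ _ h3.ne']
        push_cast
        refine ⟨by linarith, by linarith, by linarith, by linarith⟩
      · rw [e, div_le_iff₀ h3, pa_geo_dist]
        refine le_trans ?_ (le_max_left _ _)
        simp only [pt]
        rw [div_mul_cancel₀ _ h3.ne']
        push_cast
        exact le_trans (by linarith) (le_abs_self _)
  · intro n a ha
    rw [pa_geo_mem, pa_geo_mid1 ha, pa_geo_mid2 ha]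
    refine ⟨by linarith, by linarith, by linarith, by linarith⟩
  · intro n a ha y hy
    have h3 : (0 : ℝ) < 3 ^ n := by positivity
    have e : (1 : ℝ) / 3 ^ (n + 1) = (1 / 3) / 3 ^ n := by
      rw [pow_succ]
      field_simp
    rw [e, lt_div_iff₀ h3, pa_geo_dist, max_lt_iff, pa_geo_mid1 ha, pa_geo_mid2 ha, abs_lt,
      abs_lt] at hy
    obtain ⟨⟨h1, h2⟩, h4, h5⟩ := hy
    rw [pa_geo_memO]
    refine ⟨by linarith, by linarith, by linarith, by linarith⟩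
  · intro n a b hab
    rw [Set.disjoint_left]
    intro q hq hq'
    obtain ⟨x1, x2, x3, x4⟩ := pa_geo_memO.mp hq
    obtain ⟨y1, y2, y3, y4⟩ := pa_geo_mem.mp hq'
    apply hab
    have a1 : (a.1 : ℝ) < b.1 + 1 := by linarith
    have a2 : (b.1 : ℝ) < a.1 + 1 := by linarith
    have a3 : (a.2 : ℝ) < b.2 + 1 := by linarith
    have a4 : (b.2 : ℝ) < a.2 + 1 := by linarith
    have b1 : a.1 < b.1 + 1 := by exact_mod_cast a1
    have b2 : b.1 < a.1 + 1 := by exact_mod_cast a2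
    have b3 : a.2 < b.2 + 1 := by exact_mod_cast a3
    have b4 : b.2 < a.2 + 1 := by exact_mod_cast a4
    exact Prod.ext (by omega) (by omega)
  · intro n a q hq
    obtain ⟨x1, x2, x3, x4⟩ := pa_geo_memO.mp hq
    exact pa_geo_mem.mpr ⟨x1.le, x2.le, x3.le, x4.le⟩
  · intro k n a b hb1 hb2 q hq
    obtain ⟨x1, x2, x3, x4⟩ := pa_geo_mem.mp hq
    have h3 : (0 : ℝ) < 3 ^ n := by positivity
    have c1 : (b.1 : ℝ) + 1 ≤ 3 ^ n := by exact_mod_cast hb1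
    have c2 : (b.2 : ℝ) + 1 ≤ 3 ^ n := by exact_mod_cast hb2
    have c3 : (0 : ℝ) ≤ b.1 := Nat.cast_nonneg _
    have c4 : (0 : ℝ) ≤ b.2 := Nat.cast_nonneg _
    simp only [sb] at x1 x2 x3 x4
    push_cast at x1 x2 x3 x4
    rw [pow_add, ← mul_assoc] at x1 x2 x3 x4
    rw [pa_geo_mem]
    refine ⟨?_, ?_, ?_, ?_⟩
    · refine le_of_mul_le_mul_right (a := (3 : ℝ) ^ n) ?_ h3
      linarith
    · refine le_of_mul_le_mul_right (a := (3 : ℝ) ^ n) ?_ h3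
      linarith
    · refine le_of_mul_le_mul_right (a := (3 : ℝ) ^ n) ?_ h3
      linarith
    · refine le_of_mul_le_mul_right (a := (3 : ℝ) ^ n) ?_ h3
      linarith

end Pool.Agent.Lib.MP_1d263a_an.PA
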