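import Pool.Agent.Lib.MP_1d263a_an.PA.Stm

set_option autoImplicit false

namespace Pool.Agent.Lib.MP_1d263a_an.PA

open MeasureTheory
open scoped ENNReal

/-- the sum of at most nine nonnegative numbers, raised to the power `p` -/
theorem pa_gp_sum {ι : Type} (s : Finset ι) (x : ι → ℝ) (p : ℝ) (hp : 0 < p) (hs : s.card ≤ 9)
    (hx : ∀ a ∈ s, 0 ≤ x a) : (∑ a ∈ s, x a) ^ p ≤ 9 ^ p * ∑ a ∈ s, x a ^ p := by
  rcases s.eq_empty_or_nonempty with rfl | hne
  · simp [Real.zero_rpow hp.ne']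
  · obtain ⟨m, hm, hmax⟩ := s.exists_max_image x hne
    have h0 : 0 ≤ x m := hx m hm
    have h1 : ∑ a ∈ s, x a ≤ 9 * x m := by
      have h2 : ∑ a ∈ s, x a ≤ s.card • x m := Finset.sum_le_card_nsmul s x (x m) hmax
      have h3 : (s.card : ℝ) ≤ 9 := by exact_mod_cast hs
      rw [nsmul_eq_mul] at h2
      exact h2.trans (mul_le_mul_of_nonneg_right h3 h0)
    have h4 : (∑ a ∈ s, x a) ^ p ≤ (9 * x m) ^ p :=
      Real.rpow_le_rpow (Finset.sum_nonneg hx) h1 hp.le
    rw [Real.mul_rpow (by norm_num) h0] at h4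
    refine h4.trans (mul_le_mul_of_nonneg_left ?_ (by positivity))
    exact Finset.single_le_sum (f := fun a => x a ^ p)
      (fun a ha => Real.rpow_nonneg (hx a ha) p) hm

theorem pa_gp_osc (n : ℕ) (w : ℕ × ℕ → ℝ) (a : ℕ × ℕ) : 0 ≤ osc n w a :=
  Finset.sum_nonneg fun _ _ => abs_nonneg _

/-- the pointwise bound -/
theorem pa_gp_pt {X : Type} [MetricSpace X] (f : carpet ≃ X) (H K : ℝ) (hM : Met f H) (hK : 0 ≤ K)
    (n : ℕ) (w : ℕ × ℕ → ℝ) (b : ℕ × ℕ) (hb : b ∈ I n) (ξ : X) (hξ : ξ ∈ f '' Cl n b) :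
    gr f H K n w ξ ≤ ENNReal.ofReal (∑ a ∈ T n b, K * osc n w a / rad f n a) := by
  have hH : 0 < H := lt_of_lt_of_le one_pos hM.one_le
  have hnn : ∀ a ∈ T n b, 0 ≤ K * osc n w a / rad f n a := fun a ha =>
    div_nonneg (mul_nonneg hK (pa_gp_osc n w a)) (hM.pos n a (mem_T.1 ha).1).le
  rw [ENNReal.ofReal_sum_of_nonneg hnn, T, Finset.sum_filter, gr]
  refine Finset.sum_le_sum fun a ha => ?_
  by_cases hv : ξ ∈ Vn f H n a
  · by_cases ht : Tch b a
    · rw [Set.indicator_of_mem hv, if_pos ht]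
    · exfalso
      have h1 := hv b hb fun h => ht h.symm
      rw [Metric.infDist_zero_of_mem hξ] at h1
      have h2 : 0 < rad f n b / (4 * H) := div_pos (hM.pos n b hb) (by positivity)
      linarith
  · rw [Set.indicator_of_notMem hv]
    exact zero_le

/-- **gp.** -/
theorem p_gp (h_psi : S_psi) (h_cnt : S_cnt) (h_mr : S_mr) : S_gp := by
  intro X _ _ _ f H μ p C K hp hC hK hM hA
  refine ⟨fun n w => ?_, ?_⟩
  · refine Finset.measurable_sum _ fun a ha => ?_
    exact measurable_const.indicator ((h_psi X f H hM n).2.1 a ha).measurableSet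
  · obtain ⟨-, K₁, hK₁, hmr⟩ := h_mr X f H μ p C hp hC hM hA
    have hH : 0 < H := lt_of_lt_of_le one_pos hM.one_le
    have hK₁0 : 0 < K₁ := lt_of_lt_of_le one_pos hK₁
    refine ⟨9 ^ p * K ^ p * H ^ p * K₁, by positivity, fun n w b hb => ?_⟩
    have hr : 0 < rad f n b := hM.pos n b hb
    have hS : 0 ≤ ∑ a ∈ T n b, osc n w a ^ p :=
      Finset.sum_nonneg fun a _ => Real.rpow_nonneg (pa_gp_osc n w a) p
    -- the pointwise bound of the power
    have hpt : ∀ ξ ∈ f '' Cl n b, gr f H K n w ξ ^ p ≤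
        ENNReal.ofReal (9 ^ p * (K * H / rad f n b) ^ p * ∑ a ∈ T n b, osc n w a ^ p) := by
      intro ξ hξ
      have h1 := pa_gp_pt f H K hM hK n w b hb ξ hξ
      have hnn : ∀ a ∈ T n b, 0 ≤ K * osc n w a / rad f n a := fun a ha =>
        div_nonneg (mul_nonneg hK (pa_gp_osc n w a)) (hM.pos n a (mem_T.1 ha).1).le
      refine (ENNReal.rpow_le_rpow h1 hp.le).trans ?_
      rw [ENNReal.ofReal_rpow_of_nonneg (Finset.sum_nonneg hnn) hp.le]
      refine ENNReal.ofReal_le_ofReal ?_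
      refine (pa_gp_sum (T n b) _ p hp (h_cnt.1 n b) hnn).trans ?_
      rw [mul_assoc]
      refine mul_le_mul_of_nonneg_left ?_ (by positivity)
      rw [Finset.mul_sum]
      refine Finset.sum_le_sum fun a ha => ?_
      have hra : 0 < rad f n a := hM.pos n a (mem_T.1 ha).1
      have ht : rad f n b ≤ H * rad f n a :=
        hM.tch' n a (mem_T.1 ha).1 b hb (mem_T.1 ha).2.symm
      have ho := pa_gp_osc n w a
      rw [← Real.mul_rpow (by positivity) ho]
      refine Real.rpow_le_rpow (hnn a ha) ?_ hp.le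
      rw [div_mul_eq_mul_div, div_le_div_iff₀ hra hr]
      have h5 : 0 ≤ K * osc n w a := mul_nonneg hK ho
      have h6 := mul_le_mul_of_nonneg_left ht h5
      calc K * osc n w a * rad f n b ≤ K * osc n w a * (H * rad f n a) := h6
        _ = K * H * osc n w a * rad f n a := by ring
    calc ∫⁻ ξ in f '' Cl n b, gr f H K n w ξ ^ p ∂μ
        ≤ ∫⁻ _ in f '' Cl n b,
            ENNReal.ofReal (9 ^ p * (K * H / rad f n b) ^ p * ∑ a ∈ T n b, osc n w a ^ p) ∂μ :=
          setLIntegral_mono measurable_const hpt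
      _ = ENNReal.ofReal (9 ^ p * (K * H / rad f n b) ^ p * ∑ a ∈ T n b, osc n w a ^ p) *
            μ (f '' Cl n b) := setLIntegral_const _ _
      _ ≤ ENNReal.ofReal (9 ^ p * (K * H / rad f n b) ^ p * ∑ a ∈ T n b, osc n w a ^ p) *
            ENNReal.ofReal (K₁ * rad f n b ^ p) := by
          gcongr
          exact (hmr n b hb).2
      _ = ENNReal.ofReal (9 ^ p * K ^ p * H ^ p * K₁ * ∑ a ∈ T n b, osc n w a ^ p) := by
          rw [← ENNReal.ofReal_mul (by positivity)]
          have h7 : (K * H / rad f n b) ^ p * rad f n b ^ p = K ^ p * H ^ p := by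
            rw [← Real.mul_rpow (by positivity) hr.le, div_mul_cancel₀ _ hr.ne',
              Real.mul_rpow hK hH.le]
          congr 1
          calc 9 ^ p * (K * H / rad f n b) ^ p * (∑ a ∈ T n b, osc n w a ^ p) *
                (K₁ * rad f n b ^ p)
              = 9 ^ p * ((K * H / rad f n b) ^ p * rad f n b ^ p) * K₁ *
                (∑ a ∈ T n b, osc n w a ^ p) := by ring
            _ = 9 ^ p * K ^ p * H ^ p * K₁ * (∑ a ∈ T n b, osc n w a ^ p) := by
                rw [h7]; ring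

end Pool.Agent.Lib.MP_1d263a_an.PA
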