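import Pool.Agent.Lib.MP_1d263a_an.PA.Stm

set_option autoImplicit false

namespace Pool.Agent.Lib.MP_1d263a_an.PA

open MeasureTheory CarpetPI
open scoped ENNReal

theorem pa_int_pow {s : Finset (ℕ × ℕ)} (hs : s.card ≤ 9) (x : ℕ × ℕ → ℝ) (hx : ∀ c, 0 ≤ x c)
    {p : ℝ} (hp : 0 < p) : (∑ c ∈ s, x c) ^ p ≤ 9 ^ p * ∑ c ∈ s, x c ^ p := by
  rcases s.eq_empty_or_nonempty with rfl | hne
  · simp [Real.zero_rpow hp.ne']
  obtain ⟨c0, hc0, hmax⟩ := s.exists_max_image x hne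
  have h1 : ∑ c ∈ s, x c ≤ 9 * x c0 := by
    calc ∑ c ∈ s, x c ≤ ∑ _c ∈ s, x c0 := Finset.sum_le_sum hmax
      _ = s.card * x c0 := by rw [Finset.sum_const, nsmul_eq_mul]
      _ ≤ 9 * x c0 := by
        refine mul_le_mul_of_nonneg_right ?_ (hx c0)
        exact_mod_cast hs
  calc (∑ c ∈ s, x c) ^ p ≤ (9 * x c0) ^ p :=
        Real.rpow_le_rpow (Finset.sum_nonneg fun c _ => hx c) h1 hp.le
    _ = 9 ^ p * x c0 ^ p := Real.mul_rpow (by norm_num) (hx c0)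
    _ ≤ 9 ^ p * ∑ c ∈ s, x c ^ p := by
      refine mul_le_mul_of_nonneg_left ?_ (by positivity)
      exact Finset.single_le_sum (f := fun c => x c ^ p) (fun c _ => Real.rpow_nonneg (hx c) p) hc0

theorem p_int (hgp : S_gp) (hreg : S_reg) (hcnt : S_cnt) (hanc : S_anc) : S_int := by
  classical
  intro X _ _ _ f H μ p C K M hp hC hK hf hμ
  obtain ⟨-, K1, hK1, hgp2⟩ := hgp X f H μ p C K hp hC hK hf hμ
  obtain ⟨L0, hL0⟩ := hreg X f H hf M
  refine ⟨K1 * (9 * 9 ^ p), L0 + 1, by positivity, ?_⟩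
  intro k a ha n W
  set S := (I (k + n)).filter (fun b => Nb L0 a (anc n b)) with hS
  set S' := (I (k + n)).filter (fun b => Nb (L0 + 1) a (anc n b)) with hS'
  have hcov : Metric.ball (f (mid k a)) (M * rad f k a) ⊆ ⋃ b : S, f '' Cl (k + n) (b : ℕ × ℕ) := by
    intro ξ hξ
    rw [Metric.mem_ball, dist_comm] at hξ
    obtain ⟨b, hb, hb2, hb3⟩ := hL0 k a ha n ξ hξ.le
    exact Set.mem_iUnion.2 ⟨⟨b, Finset.mem_filter.2 ⟨hb, hb2⟩⟩, hb3⟩
  have h1 : ∫⁻ ξ in Metric.ball (f (mid k a)) (M * rad f k a), gr f H K (k + n) W ξ ^ p ∂μ ≤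
      ∑ b ∈ S, ENNReal.ofReal (K1 * ∑ b' ∈ T (k + n) b, osc (k + n) W b' ^ p) := by
    calc _ ≤ ∫⁻ ξ in ⋃ b : S, f '' Cl (k + n) (b : ℕ × ℕ), gr f H K (k + n) W ξ ^ p ∂μ :=
          lintegral_mono_set hcov
      _ ≤ ∑' b : S, ∫⁻ ξ in f '' Cl (k + n) (b : ℕ × ℕ), gr f H K (k + n) W ξ ^ p ∂μ :=
          lintegral_iUnion_le _ _
      _ = ∑ b : S, ∫⁻ ξ in f '' Cl (k + n) (b : ℕ × ℕ), gr f H K (k + n) W ξ ^ p ∂μ :=
          tsum_fintype _
      _ = ∑ b ∈ S, ∫⁻ ξ in f '' Cl (k + n) b, gr f H K (k + n) W ξ ^ p ∂μ :=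
          Finset.sum_coe_sort S
            (fun b => ∫⁻ ξ in f '' Cl (k + n) b, gr f H K (k + n) W ξ ^ p ∂μ)
      _ ≤ _ := Finset.sum_le_sum fun b hb => hgp2 (k + n) W b (Finset.mem_filter.1 hb).1
  have hosc : ∀ b, 0 ≤ osc (k + n) W b := fun b => Finset.sum_nonneg fun c _ => abs_nonneg _
  rw [← ENNReal.ofReal_sum_of_nonneg] at h1
  swap
  · intro b _
    exact mul_nonneg hK1 (Finset.sum_nonneg fun c _ => Real.rpow_nonneg (hosc c) p)
  refine h1.trans (ENNReal.ofReal_le_ofReal ?_)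
  rw [← Finset.mul_sum, mul_assoc]
  refine mul_le_mul_of_nonneg_left ?_ hK1
  have hswap : ∑ b ∈ S, ∑ b' ∈ T (k + n) b, osc (k + n) W b' ^ p =
      ∑ b' ∈ S', ∑ b ∈ S.filter (fun b => b' ∈ T (k + n) b), osc (k + n) W b' ^ p := by
    refine Finset.sum_comm' ?_
    intro b b'
    constructor
    · rintro ⟨hb, hb'⟩
      refine ⟨Finset.mem_filter.2 ⟨hb, hb'⟩, ?_⟩
      obtain ⟨q1, q2⟩ := mem_T.1 hb'
      refine Finset.mem_filter.2 ⟨q1, ?_⟩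
      have h2 := (Finset.mem_filter.1 hb).2
      have h3 : Nb 1 (anc n b) (anc n b') := hanc.2.2.2 1 n b b' q2
      obtain ⟨r1, r2, r3, r4⟩ := h2
      obtain ⟨t1, t2, t3, t4⟩ := h3
      exact ⟨by omega, by omega, by omega, by omega⟩
    · rintro ⟨hb, -⟩
      exact Finset.mem_filter.1 hb
  rw [hswap]
  have hEL : EL p (L0 + 1) k a n W = ∑ b ∈ S', ∑ b' ∈ T (k + n) b, |W b - W b'| ^ p := rfl
  rw [hEL, Finset.mul_sum]
  refine Finset.sum_le_sum fun b' hb' => ?_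
  rw [Finset.sum_const, nsmul_eq_mul]
  have hcard : (S.filter (fun b => b' ∈ T (k + n) b)).card ≤ 9 := by
    refine le_trans (Finset.card_le_card ?_) (hcnt.1 (k + n) b')
    intro b hb
    obtain ⟨hb1, hb2⟩ := Finset.mem_filter.1 hb
    exact mem_T.2 ⟨(Finset.mem_filter.1 hb1).1, (mem_T.1 hb2).2.symm⟩
  have h5 : osc (k + n) W b' ^ p ≤ 9 ^ p * ∑ c ∈ T (k + n) b', |W b' - W c| ^ p := by
    have := pa_int_pow (hcnt.1 (k + n) b') (fun c => |W c - W b'|) (fun c => abs_nonneg _) hp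
    simpa only [osc, abs_sub_comm (W b')] using this
  calc _ ≤ (9 : ℝ) * osc (k + n) W b' ^ p := by
        refine mul_le_mul_of_nonneg_right ?_ (Real.rpow_nonneg (hosc b') p)
        exact_mod_cast hcard
    _ ≤ 9 * (9 ^ p * ∑ c ∈ T (k + n) b', |W b' - W c| ^ p) :=
        mul_le_mul_of_nonneg_left h5 (by norm_num)
    _ = _ := by ring

end Pool.Agent.Lib.MP_1d263a_an.PA
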