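import Pool.Agent.Lib.MP_1d263a_an.PA.Stm

/-! piece lhs: the left side of the Poincare inequality -/

set_option autoImplicit false

namespace Pool.Agent.Lib.MP_1d263a_an.PA

open MeasureTheory CarpetPI
open scoped ENNReal

/-- the upper bound of Ahlfors regularity for all radii -/
theorem pa_lhs_upper {X : Type} [MetricSpace X] [MeasurableSpace X] {μ : Measure X} {p C : ℝ}
    (hp : 0 < p) (hC : 1 ≤ C) (hAR : AR μ p C) (hb : Bornology.IsBounded (Set.univ : Set X))
    {r : ℝ} (hr : 0 < r) (hd : 0 < Metric.diam (Set.univ : Set X)) (x : X) :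
    μ (Metric.closedBall x r) ≤ ENNReal.ofReal (C * r ^ p) := by
  rcases le_or_gt r (Metric.diam (Set.univ : Set X)) with h | h
  · exact (hAR x r hr h).2
  · have h1 : Metric.closedBall x r ⊆ Metric.closedBall x (Metric.diam (Set.univ : Set X)) := by
      intro y _
      exact Metric.dist_le_diam_of_mem hb (Set.mem_univ _) (Set.mem_univ _)
    refine (measure_mono h1).trans (((hAR x _ hd le_rfl).2).trans ?_)
    apply ENNReal.ofReal_le_ofReal
    have := Real.rpow_le_rpow hd.le h.le hp.le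
    nlinarith

open scoped Classical in
theorem p_lhs (hmr : S_mr) (_hadd : S_add) (hnull : S_null) (hlip : S_lip) (hcnt : S_cnt)
    (hgeo : S_geo) (hanc : S_anc) (htop : S_top) (_halv : S_alv) : S_lhs := by
  intro X _ _ _ f H μ p C R hp hC hM hAR
  have hp0 : 0 < p := by linarith
  obtain ⟨hfin, K₁, hK₁, hK⟩ := hmr X f H μ p C hp0 hC hM hAR
  obtain ⟨M, hM1, hnear⟩ := hM.near R
  obtain ⟨g1, g2, g3, g4, g5, g6, g7, g8, g9⟩ := hgeo
  obtain ⟨t1, t2, t3⟩ := htop
  have : CompactSpace carpet := isCompact_iff_compactSpace.1 t1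
  have : CompactSpace X := by
    constructor
    have := (isCompact_univ (X := carpet)).image hM.cont
    rwa [Set.image_univ, f.range_eq_univ] at this
  have hclosed : ∀ n a, IsClosed (f '' Cl n a) := fun n a =>
    ((t2 n a).isCompact.image hM.cont).isClosed
  refine ⟨9 * (C * M ^ p * K₁), M, by positivity, hM1, ?_⟩
  intro k a ha n L W c hRL
  set N := k + n with hN
  set u := ext f H N W with hu
  obtain ⟨l1, -, l3⟩ := hlip X f H hM N W
  have hrad : 0 < rad f k a := hM.pos k a ha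
  have hsub : ∀ b ∈ BR R k a n, f '' Cl N b ⊆ Metric.closedBall (f (mid k a)) (M * rad f k a) := by
    intro b hb
    simp only [BR, Finset.mem_filter] at hb
    obtain ⟨hbI, hbN⟩ := hb
    obtain ⟨-, a2, -, -⟩ := hanc
    obtain ⟨h1, h2, h3⟩ := a2 k n b hbI
    rintro _ ⟨y, hy, rfl⟩
    have hr := mem_I.1 h2
    have hy' : y ∈ Cl k (anc n b) := by
      apply g9 k n (anc n b) (b.1 % 3 ^ n, b.2 % 3 ^ n) hr.1 hr.2.1
      rw [h3]
      exact hy
    rw [Metric.mem_closedBall, dist_comm]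
    exact (hnear k a ha (anc n b) h1 hbN).2 _ (g5 k a ha) y hy'
  have hbI : ∀ b ∈ BR R k a n, b ∈ I N := fun b hb => (Finset.mem_filter.1 hb).1
  -- disjointness
  have hdisj : Set.Pairwise (↑(BR R k a n)) (Function.onFun (AEDisjoint μ) fun b => f '' Cl N b) := by
    intro b hb b' hb' hne
    have h0 := hnull X f H μ p C hp0 hC hM hAR N b (hbI b hb)
    refine measure_mono_null ?_ h0
    rintro ξ ⟨⟨y, hy, rfl⟩, ⟨z, hz, hzy⟩⟩
    have hzy' : z = y := f.injective hzy
    subst hzy'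
    refine ⟨z, ⟨hy, fun hop => ?_⟩, rfl⟩
    exact Set.disjoint_left.1 (g7 N b b' hne) hop hz
  have hmeas : ∀ b ∈ BR R k a n, NullMeasurableSet (f '' Cl N b) μ := fun b _ =>
    (hclosed N b).measurableSet.nullMeasurableSet
  -- the oscillation
  set E := EL p L k a n W with hE
  have hE0 : 0 ≤ E := Finset.sum_nonneg fun b _ => Finset.sum_nonneg fun b' _ =>
    Real.rpow_nonneg (abs_nonneg _) _
  have hosc : ∀ b ∈ BR R k a n, osc N W b ≤ 9 * E ^ (1 / p) := by
    intro b hb
    simp only [BR, Finset.mem_filter] at hb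
    obtain ⟨hb1, hb2⟩ := hb
    have hbL : Nb L a (anc n b) := by
      obtain ⟨e1, e2, e3, e4⟩ := hb2
      exact ⟨by omega, by omega, by omega, by omega⟩
    have hterm : ∀ b' ∈ T N b, |W b' - W b| ≤ E ^ (1 / p) := by
      intro b' hb'
      have h1 : |W b - W b'| ^ p ≤ E := by
        have h2 : |W b - W b'| ^ p ≤ ∑ b'' ∈ T N b, |W b - W b''| ^ p :=
          Finset.single_le_sum (f := fun b'' => |W b - W b''| ^ p)
            (fun b'' _ => Real.rpow_nonneg (abs_nonneg _) _) hb'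
        refine h2.trans ?_
        exact Finset.single_le_sum (f := fun b => ∑ b'' ∈ T (k + n) b, |W b - W b''| ^ p)
          (fun b _ => Finset.sum_nonneg fun b'' _ => Real.rpow_nonneg (abs_nonneg _) _)
          (Finset.mem_filter.2 ⟨hb1, hbL⟩)
      have h3 := Real.rpow_le_rpow (Real.rpow_nonneg (abs_nonneg _) _) h1
        (by positivity : 0 ≤ 1 / p)
      rw [← Real.rpow_mul (abs_nonneg _), mul_one_div_cancel hp0.ne', Real.rpow_one] at h3
      rw [abs_sub_comm]
      exact h3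
    have hcard : ((T N b).card : ℝ) ≤ 9 := by
      exact_mod_cast hcnt.1 N b
    have hE1 : 0 ≤ E ^ (1 / p) := Real.rpow_nonneg hE0 _
    calc osc N W b = ∑ b' ∈ T N b, |W b' - W b| := rfl
      _ ≤ (T N b).card • E ^ (1 / p) := Finset.sum_le_card_nsmul _ _ _ hterm
      _ = (T N b).card * E ^ (1 / p) := by rw [nsmul_eq_mul]
      _ ≤ 9 * E ^ (1 / p) := by gcongr
  -- the total measure
  have hradD : rad f k a ≤ Metric.diam (Set.univ : Set X) :=
    Metric.diam_mono (Set.subset_univ _) hM.bdd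
  have hD : 0 < Metric.diam (Set.univ : Set X) := lt_of_lt_of_le hrad hradD
  have htot : ∑ b ∈ BR R k a n, (μ (f '' Cl N b)).toReal ≤
      C * M ^ p * K₁ * (μ (f '' Cl k a)).toReal := by
    have h1 : ∑ b ∈ BR R k a n, μ (f '' Cl N b) ≤ ENNReal.ofReal (C * (M * rad f k a) ^ p) := by
      rw [← measure_biUnion_finset₀ hdisj hmeas]
      refine (measure_mono (Set.iUnion₂_subset hsub)).trans ?_
      exact pa_lhs_upper hp0 hC hAR hM.bdd (by positivity) hD _
    have h2 : ∑ b ∈ BR R k a n, (μ (f '' Cl N b)).toReal ≤ C * (M * rad f k a) ^ p := by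
      rw [← ENNReal.toReal_sum (fun b _ => measure_ne_top μ _)]
      exact ENNReal.toReal_le_of_le_ofReal (by positivity) h1
    refine h2.trans ?_
    rw [Real.mul_rpow (by linarith) hrad.le]
    have h3 : rad f k a ^ p ≤ K₁ * (μ (f '' Cl k a)).toReal := by
      have h4 : ENNReal.ofReal (K₁⁻¹ * rad f k a ^ p) ≤ μ (f '' Cl k a) :=
        ((hK k a ha).1).trans (measure_mono (Set.image_mono (g8 k a)))
      have h5 : K₁⁻¹ * rad f k a ^ p ≤ (μ (f '' Cl k a)).toReal :=
        (ENNReal.ofReal_le_iff_le_toReal (measure_ne_top μ _)).1 h4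
      have hKp : 0 < K₁ := by linarith
      calc rad f k a ^ p = K₁ * (K₁⁻¹ * rad f k a ^ p) := by field_simp
        _ ≤ _ := by gcongr
    calc C * (M ^ p * rad f k a ^ p) = C * M ^ p * rad f k a ^ p := by ring
      _ ≤ C * M ^ p * (K₁ * (μ (f '' Cl k a)).toReal) := by gcongr
      _ = _ := by ring
  -- boundedness of `u`
  obtain ⟨Mx, hMx⟩ : ∃ Mx : ℝ, ∀ ξ : X, |u ξ - c| ≤ Mx := by
    have hc : Continuous fun ξ : X => |u ξ - c| := (l1.sub continuous_const).abs
    obtain ⟨B, hB⟩ := (isCompact_univ (X := X)).bddAbove_image hc.continuousOn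
    exact ⟨B, fun ξ => hB ⟨ξ, Set.mem_univ _, rfl⟩⟩
  have hfinI : ∀ S : Set X, ∫⁻ ξ in S, ENNReal.ofReal |u ξ - c| ∂μ ≠ ∞ := by
    intro S
    have h1 : ∫⁻ ξ in S, ENNReal.ofReal |u ξ - c| ∂μ ≤ ∫⁻ _ in S, ENNReal.ofReal Mx ∂μ :=
      lintegral_mono fun ξ => ENNReal.ofReal_le_ofReal (hMx ξ)
    refine ne_top_of_le_ne_top ?_ h1
    rw [lintegral_const]
    exact ENNReal.mul_ne_top ENNReal.ofReal_ne_top (measure_ne_top _ _)
  -- one cell
  have hcell : ∀ b ∈ BR R k a n, (μ (f '' Cl N b)).toReal * |W b - c| ≤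
      (μ (f '' Cl N b)).toReal * osc N W b +
        (∫⁻ ξ in f '' Cl N b, ENNReal.ofReal |u ξ - c| ∂μ).toReal := by
    intro b hb
    have hosc0 : 0 ≤ osc N W b := Finset.sum_nonneg fun _ _ => abs_nonneg _
    have hms : MeasurableSet (f '' Cl N b) := (hclosed N b).measurableSet
    have h1 : ∫⁻ _ in f '' Cl N b, ENNReal.ofReal |W b - c| ∂μ ≤
        ∫⁻ ξ in f '' Cl N b, (ENNReal.ofReal (osc N W b) + ENNReal.ofReal |u ξ - c|) ∂μ := by
      apply setLIntegral_mono' hms
      intro ξ hξ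
      rw [← ENNReal.ofReal_add hosc0 (abs_nonneg _)]
      apply ENNReal.ofReal_le_ofReal
      have h2 := l3 b (hbI b hb) ξ hξ
      calc |W b - c| = |(u ξ - c) - (u ξ - W b)| := by congr 1; ring
        _ ≤ |u ξ - c| + |u ξ - W b| := abs_sub _ _
        _ ≤ _ := by linarith
    rw [lintegral_add_left measurable_const, lintegral_const, lintegral_const] at h1
    simp only [Measure.restrict_apply MeasurableSet.univ, Set.univ_inter] at h1
    have h3 := ENNReal.toReal_mono (ENNReal.add_ne_top.2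
      ⟨ENNReal.mul_ne_top ENNReal.ofReal_ne_top (measure_ne_top _ _), hfinI _⟩) h1
    rw [ENNReal.toReal_mul, ENNReal.toReal_add
      (ENNReal.mul_ne_top ENNReal.ofReal_ne_top (measure_ne_top _ _)) (hfinI _), ENNReal.toReal_mul,
      ENNReal.toReal_ofReal (abs_nonneg _), ENNReal.toReal_ofReal hosc0] at h3
    linarith
  -- the sum of the integrals
  have hint : ∑ b ∈ BR R k a n, (∫⁻ ξ in f '' Cl N b, ENNReal.ofReal |u ξ - c| ∂μ).toReal ≤
      (∫⁻ ξ in Metric.ball (f (mid k a)) (2 * M * rad f k a), ENNReal.ofReal |u ξ - c| ∂μ).toReal := by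
    rw [← ENNReal.toReal_sum (fun b _ => hfinI _), ← lintegral_biUnion_finset₀ hdisj hmeas]
    apply ENNReal.toReal_mono (hfinI _)
    apply lintegral_mono_set
    refine (Set.iUnion₂_subset hsub).trans ?_
    apply Metric.closedBall_subset_ball
    nlinarith
  calc ∑ b ∈ BR R k a n, (μ (f '' Cl N b)).toReal * |W b - c|
      ≤ ∑ b ∈ BR R k a n, ((μ (f '' Cl N b)).toReal * osc N W b +
        (∫⁻ ξ in f '' Cl N b, ENNReal.ofReal |u ξ - c| ∂μ).toReal) := Finset.sum_le_sum hcell
    _ = ∑ b ∈ BR R k a n, (μ (f '' Cl N b)).toReal * osc N W b +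
        ∑ b ∈ BR R k a n, (∫⁻ ξ in f '' Cl N b, ENNReal.ofReal |u ξ - c| ∂μ).toReal :=
        Finset.sum_add_distrib
    _ ≤ ∑ b ∈ BR R k a n, (μ (f '' Cl N b)).toReal * (9 * E ^ (1 / p)) +
        (∫⁻ ξ in Metric.ball (f (mid k a)) (2 * M * rad f k a), ENNReal.ofReal |u ξ - c| ∂μ).toReal := by
        apply add_le_add _ hint
        apply Finset.sum_le_sum
        intro b hb
        exact mul_le_mul_of_nonneg_left (hosc b hb) ENNReal.toReal_nonneg
    _ ≤ 9 * (C * M ^ p * K₁) * (μ (f '' Cl k a)).toReal * E ^ (1 / p) +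
        (∫⁻ ξ in Metric.ball (f (mid k a)) (2 * M * rad f k a), ENNReal.ofReal |u ξ - c| ∂μ).toReal := by
        apply add_le_add _ le_rfl
        rw [← Finset.sum_mul]
        have hE1 : 0 ≤ E ^ (1 / p) := Real.rpow_nonneg hE0 _
        nlinarith [mul_le_mul_of_nonneg_right htot hE1]

end Pool.Agent.Lib.MP_1d263a_an.PA
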