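import Pool.Agent.Lib.MP_1d263a_an.PA.Stm

/-!
# Carpet project, part A: piece `lip` (the Lipschitz extension)
-/

set_option autoImplicit false

namespace Pool.Agent.Lib.MP_1d263a_an.PA

/-- only the cells touching `a` contribute -/
theorem pa_lip_sum {X : Type} [MetricSpace X] (f : carpet ≃ X) (H : ℝ) (n : ℕ) (a : ℕ × ℕ) (ξ : X)
    (h : ∀ b ∈ I n, ¬ Tch a b → psi f H n b ξ = 0) (g : ℕ × ℕ → ℝ) :
    ∑ b ∈ I n, g b * psi f H n b ξ = ∑ b ∈ T n a, g b * psi f H n b ξ := by
  symm
  apply Finset.sum_subset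
  · intro b hb
    exact (mem_T.1 hb).1
  · intro b hb hb'
    have ht : ¬ Tch a b := fun ht => hb' (mem_T.2 ⟨hb, ht⟩)
    rw [h b hb ht, mul_zero]

/-- the sum of the bump functions over the cells touching `a` -/
theorem pa_lip_Psi {X : Type} [MetricSpace X] (f : carpet ≃ X) (H : ℝ) (n : ℕ) (a : ℕ × ℕ) (ξ : X)
    (h : ∀ b ∈ I n, ¬ Tch a b → psi f H n b ξ = 0) :
    Psi f H n ξ = ∑ b ∈ T n a, psi f H n b ξ := by
  have h1 := pa_lip_sum f H n a ξ h (fun _ => 1)
  simp only [one_mul] at h1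
  exact h1

/-- the extension minus the value at `a` -/
theorem pa_lip_ext {X : Type} [MetricSpace X] (f : carpet ≃ X) (H : ℝ) (n : ℕ) (w : ℕ × ℕ → ℝ)
    (a : ℕ × ℕ) (ξ : X) (h : ∀ b ∈ I n, ¬ Tch a b → psi f H n b ξ = 0)
    (h1 : 1 ≤ Psi f H n ξ) :
    ext f H n w ξ - w a = ∑ b ∈ T n a, (w b - w a) * (psi f H n b ξ / Psi f H n ξ) := by
  have h0 : Psi f H n ξ ≠ 0 := by
    intro h2
    rw [h2] at h1
    norm_num at h1
  have h2 : ext f H n w ξ - w a = (∑ b ∈ I n, (w b - w a) * psi f H n b ξ) / Psi f H n ξ := by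
    have h3 : ∑ b ∈ I n, (w b - w a) * psi f H n b ξ =
        ∑ b ∈ I n, w b * psi f H n b ξ - w a * Psi f H n ξ := by
      unfold Psi
      rw [Finset.mul_sum, ← Finset.sum_sub_distrib]
      exact Finset.sum_congr rfl fun b _ => by ring
    rw [h3, sub_div, mul_div_assoc, div_self h0, mul_one]
    rfl
  rw [h2, pa_lip_sum f H n a ξ h, Finset.sum_div]
  exact Finset.sum_congr rfl fun b _ => by ring

/-- difference of quotients -/
theorem pa_lip_quot {x y s t : ℝ} (hy0 : 0 ≤ y) (hyt : y ≤ t) (hs : 1 ≤ s) (ht : 1 ≤ t) :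
    |x / s - y / t| ≤ |x - y| + |s - t| := by
  have hs0 : 0 < s := by linarith
  have ht0 : 0 < t := by linarith
  have h1 : x / s - y / t = (x - y) / s + (y / t) * ((t - s) / s) := by
    field_simp
    ring
  have h2 : |(x - y) / s| ≤ |x - y| := by
    rw [abs_div, abs_of_pos hs0]
    exact div_le_self (abs_nonneg _) hs
  have h3 : |(y / t) * ((t - s) / s)| ≤ |s - t| := by
    rw [abs_mul, abs_div (t - s) s, abs_of_pos hs0, abs_of_nonneg (div_nonneg hy0 ht0.le),
      abs_sub_comm t s]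
    have h4 : y / t ≤ 1 := (div_le_one ht0).2 hyt
    have h5 : |s - t| / s ≤ |s - t| := div_le_self (abs_nonneg _) hs
    calc y / t * (|s - t| / s) ≤ 1 * (|s - t| / s) :=
          mul_le_mul_of_nonneg_right h4 (div_nonneg (abs_nonneg _) hs0.le)
      _ ≤ |s - t| := by rw [one_mul]; exact h5
  rw [h1]
  exact (abs_add_le _ _).trans (add_le_add h2 h3)

/-- **lip.** The extension. -/
theorem p_lip (h_psi : S_psi) (h_cnt : S_cnt) : S_lip := by
  intro X _ f H hM n w
  obtain ⟨h1, h2, h3, h4, h5, h6, h7, h8⟩ := h_psi X f H hM n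
  have hH : 0 ≤ H := le_trans zero_le_one hM.one_le
  -- continuity of the bump functions
  have hc : ∀ a, Continuous (psi f H n a) := by
    intro a
    unfold psi
    exact continuous_const.max
      (continuous_const.sub (continuous_const.mul (Metric.continuous_infDist_pt _)))
  have hsum : Continuous (Psi f H n) := by
    unfold Psi
    exact continuous_finsetSum _ fun a _ => hc a
  refine ⟨?_, ?_, ?_⟩
  · -- continuity
    unfold ext
    refine Continuous.div ?_ hsum fun ξ => ?_
    · exact continuous_finsetSum _ fun a _ => continuous_const.mul (hc a)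
    · have := h5 ξ
      intro h0
      rw [h0] at this
      norm_num at this
  · -- Lipschitz constant
    intro a ha ξ hξ ζ hζ
    have hz1 := h3 a ha ξ hξ
    have hz2 := h3 a ha ζ hζ
    have hra : 0 < rad f n a := hM.pos n a ha
    have hd : 0 ≤ dist ξ ζ := dist_nonneg
    -- the Lipschitz constants of the bump functions
    have hl : ∀ b ∈ T n a, |psi f H n b ξ - psi f H n b ζ| ≤
        4 * H ^ 2 / rad f n a * dist ξ ζ := by
      intro b hb
      have hb' := mem_T.1 hb
      have hrb : 0 < rad f n b := hM.pos n b hb'.1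
      refine (h7 b hb'.1 ξ ζ).trans (mul_le_mul_of_nonneg_right ?_ hd)
      have ht := hM.tch' n b hb'.1 a ha hb'.2.symm
      rw [div_le_div_iff₀ hrb hra]
      calc 4 * H * rad f n a ≤ 4 * H * (H * rad f n b) :=
            mul_le_mul_of_nonneg_left ht (by positivity)
        _ = 4 * H ^ 2 * rad f n b := by ring
    -- the sum
    have hS : |Psi f H n ξ - Psi f H n ζ| ≤ 9 * (4 * H ^ 2 / rad f n a * dist ξ ζ) := by
      rw [pa_lip_Psi f H n a ξ hz1, pa_lip_Psi f H n a ζ hz2, ← Finset.sum_sub_distrib]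
      refine (Finset.abs_sum_le_sum_abs _ _).trans ((Finset.sum_le_sum hl).trans ?_)
      rw [Finset.sum_const, nsmul_eq_mul]
      have hc9 : ((T n a).card : ℝ) ≤ 9 := by exact_mod_cast h_cnt.1 n a
      exact mul_le_mul_of_nonneg_right hc9 (by positivity)
    -- the bump function is at most the sum
    have hle : ∀ b ∈ T n a, psi f H n b ζ ≤ Psi f H n ζ := by
      intro b hb
      unfold Psi
      exact Finset.single_le_sum (f := fun b => psi f H n b ζ) (fun c hc => (h6 c hc ζ).1)
        (mem_T.1 hb).1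
    have hq : ∀ b ∈ T n a, |psi f H n b ξ / Psi f H n ξ - psi f H n b ζ / Psi f H n ζ| ≤
        40 * H ^ 2 / rad f n a * dist ξ ζ := by
      intro b hb
      have h := pa_lip_quot (x := psi f H n b ξ) (y := psi f H n b ζ) (s := Psi f H n ξ)
        (t := Psi f H n ζ) (h6 b (mem_T.1 hb).1 ζ).1 (hle b hb) (h5 ξ) (h5 ζ)
      have h' := hl b hb
      calc |psi f H n b ξ / Psi f H n ξ - psi f H n b ζ / Psi f H n ζ|
          ≤ |psi f H n b ξ - psi f H n b ζ| + |Psi f H n ξ - Psi f H n ζ| := h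
        _ ≤ 4 * H ^ 2 / rad f n a * dist ξ ζ + 9 * (4 * H ^ 2 / rad f n a * dist ξ ζ) :=
            add_le_add h' hS
        _ = 40 * H ^ 2 / rad f n a * dist ξ ζ := by ring
    have he : ext f H n w ξ - ext f H n w ζ = ∑ b ∈ T n a, (w b - w a) *
        (psi f H n b ξ / Psi f H n ξ - psi f H n b ζ / Psi f H n ζ) := by
      have e1 := pa_lip_ext f H n w a ξ hz1 (h5 ξ)
      have e2 := pa_lip_ext f H n w a ζ hz2 (h5 ζ)
      have e3 : ext f H n w ξ - ext f H n w ζ =
          (ext f H n w ξ - w a) - (ext f H n w ζ - w a) := by ring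
      rw [e3, e1, e2, ← Finset.sum_sub_distrib]
      exact Finset.sum_congr rfl fun b _ => by ring
    rw [he]
    refine (Finset.abs_sum_le_sum_abs _ _).trans ?_
    calc ∑ b ∈ T n a, |(w b - w a) *
          (psi f H n b ξ / Psi f H n ξ - psi f H n b ζ / Psi f H n ζ)|
        ≤ ∑ b ∈ T n a, |w b - w a| * (40 * H ^ 2 / rad f n a * dist ξ ζ) := by
          refine Finset.sum_le_sum fun b hb => ?_
          rw [abs_mul]
          exact mul_le_mul_of_nonneg_left (hq b hb) (abs_nonneg _)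
      _ = 40 * H ^ 2 * osc n w a / rad f n a * dist ξ ζ := by
          rw [← Finset.sum_mul]
          unfold osc
          ring
  · -- oscillation
    intro a ha ξ hξ
    have hz := h3 a ha ξ (h1 a ha ξ hξ)
    rw [pa_lip_ext f H n w a ξ hz (h5 ξ)]
    refine (Finset.abs_sum_le_sum_abs _ _).trans ?_
    unfold osc
    refine Finset.sum_le_sum fun b hb => ?_
    have hb' := mem_T.1 hb
    have hP : 0 < Psi f H n ξ := lt_of_lt_of_le zero_lt_one (h5 ξ)
    have h0 := h6 b hb'.1 ξ
    have hq0 : 0 ≤ psi f H n b ξ / Psi f H n ξ := div_nonneg h0.1 hP.le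
    have hq1 : psi f H n b ξ / Psi f H n ξ ≤ 1 := (div_le_one hP).2 (h0.2.trans (h5 ξ))
    rw [abs_mul, abs_of_nonneg hq0]
    calc |w b - w a| * (psi f H n b ξ / Psi f H n ξ) ≤ |w b - w a| * 1 :=
          mul_le_mul_of_nonneg_left hq1 (abs_nonneg _)
      _ = |w b - w a| := mul_one _

end Pool.Agent.Lib.MP_1d263a_an.PA
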