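import Pool.Agent.Lib.MP_1d263a_an.PA.Stm

/-!
# Carpet project, part A, piece lw: the Loewner type inequality
-/

set_option autoImplicit false

namespace Pool.Agent.Lib.MP_1d263a_an.PA

open CarpetPI Finset

private theorem pa_lw_fe_nonneg (p : ℝ) (F : Pt → ℝ) (f : Pt) : 0 ≤ fe p F f :=
  Finset.sum_nonneg fun _ _ => Real.rpow_nonneg (abs_nonneg _) p

open scoped Classical in
private theorem pa_lw_disj (p : ℝ) (K : Set Pt) (F : Pt → ℝ) (u : Finset Pt) (B : Pt → Finset Pt)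
    (E : Finset Pt) (h1 : ∀ x ∈ u, ∀ y ∈ u, x ≠ y → Disjoint (B x) (B y))
    (h2 : ∀ x ∈ u, B x ⊆ E) : ∑ x ∈ u, En p K F (B x) ≤ En p K F E := by
  unfold En
  rw [← Finset.sum_biUnion]
  · refine Finset.sum_le_sum_of_subset_of_nonneg ?_ fun f _ _ => pa_lw_fe_nonneg p F f
    intro f hf
    rw [Finset.mem_biUnion] at hf
    obtain ⟨x, hx, hf⟩ := hf
    rw [Finset.mem_filter] at hf ⊢
    exact ⟨h2 x hx hf.1, hf.2⟩
  · intro x hx y hy hxy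
    exact Finset.disjoint_filter_filter (h1 x hx y hy hxy)

private theorem pa_lw_main (p : ℝ) (κ : ℕ) (A : ℝ) (hV : S_vit) (N : ℕ)
    (F : Pt → ℝ) (t : ℕ) (q : Pt) (D : ℝ) (hD : 0 ≤ D)
    (K : Set Pt) (hK : Conn (Kept N) K) (h1 : ∃ x ∈ K, x ∈ cellV t q)
    (h2 : ∃ x ∈ K, ∀ y ∈ cellV t q, (3 : ℤ) ^ t ≤ dis x y)
    (hA : 0 ≤ A)
    (hS : ∀ x ∈ K, (∃ y ∈ cellV t q, dis x y ≤ 3 ^ t) → ∃ s ≤ t, ∃ Q : Pt, x ∈ cellV s Q ∧
      D ^ p * 3 ^ s ≤ A * 3 ^ t * En p (Kept N) F (nb κ s Q)) :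
    D ^ p ≤ (8 * κ + 9) * A * En p (Kept N) F (nb (κ + 3) t q) := by
  have hS' : ∀ x : Pt, ∃ s : ℕ, ∃ Q : Pt, x ∈ K → (∃ y ∈ cellV t q, dis x y ≤ 3 ^ t) →
      s ≤ t ∧ x ∈ cellV s Q ∧ D ^ p * 3 ^ s ≤ A * 3 ^ t * En p (Kept N) F (nb κ s Q) := by
    intro x
    by_cases hx : x ∈ K ∧ ∃ y ∈ cellV t q, dis x y ≤ 3 ^ t
    · obtain ⟨s, hs, Q, hQ1, hQ2⟩ := hS x hx.1 hx.2
      exact ⟨s, Q, fun _ _ => ⟨hs, hQ1, hQ2⟩⟩
    · exact ⟨0, x, fun ha hb => absurd ⟨ha, hb⟩ hx⟩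
  choose s Q hsQ using hS'
  obtain ⟨u, hu1, hu2, hu3, hu4⟩ := hV κ N t q K s Q hK h1 h2
    (fun x hx hy => ⟨(hsQ x hx hy).1, (hsQ x hx hy).2.1⟩)
  have hDp : 0 ≤ D ^ p := Real.rpow_nonneg hD p
  have hu5 : (3 : ℝ) ^ t ≤ (8 * κ + 9) * ∑ x ∈ u, (3 : ℝ) ^ s x := by exact_mod_cast hu4
  have h3 : ∑ x ∈ u, D ^ p * 3 ^ s x ≤
      ∑ x ∈ u, A * 3 ^ t * En p (Kept N) F (nb κ (s x) (Q x)) :=
    Finset.sum_le_sum fun x hx => (hsQ x (hu1 x hx).1 (hu1 x hx).2).2.2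
  have h4 : ∑ x ∈ u, En p (Kept N) F (nb κ (s x) (Q x)) ≤ En p (Kept N) F (nb (κ + 3) t q) :=
    pa_lw_disj p (Kept N) F u (fun x => nb κ (s x) (Q x)) _ hu2 hu3
  have h5 : D ^ p * 3 ^ t ≤
      (8 * κ + 9) * (A * 3 ^ t * En p (Kept N) F (nb (κ + 3) t q)) := by
    calc D ^ p * 3 ^ t ≤ D ^ p * ((8 * κ + 9) * ∑ x ∈ u, (3 : ℝ) ^ s x) :=
          mul_le_mul_of_nonneg_left hu5 hDp
      _ = (8 * κ + 9) * ∑ x ∈ u, D ^ p * 3 ^ s x := by rw [← Finset.mul_sum]; ring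
      _ ≤ (8 * κ + 9) * ∑ x ∈ u, A * 3 ^ t * En p (Kept N) F (nb κ (s x) (Q x)) :=
          mul_le_mul_of_nonneg_left h3 (by positivity)
      _ = (8 * κ + 9) * (A * 3 ^ t * ∑ x ∈ u, En p (Kept N) F (nb κ (s x) (Q x))) := by
          rw [← Finset.mul_sum]
      _ ≤ (8 * κ + 9) * (A * 3 ^ t * En p (Kept N) F (nb (κ + 3) t q)) :=
          mul_le_mul_of_nonneg_left (mul_le_mul_of_nonneg_left h4 (by positivity)) (by positivity)
  have h6 : (0 : ℝ) < 3 ^ t := by positivity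
  refine le_of_mul_le_mul_right ?_ h6
  calc D ^ p * 3 ^ t ≤ (8 * κ + 9) * (A * 3 ^ t * En p (Kept N) F (nb (κ + 3) t q)) := h5
    _ = (8 * κ + 9) * A * En p (Kept N) F (nb (κ + 3) t q) * 3 ^ t := by ring

/-- **lw.** The Loewner type inequality. -/
theorem p_lw (hStop : S_stop) (hVit : S_vit) : S_lw := by
  intro p C κ hp hC
  obtain ⟨A, hA, hS⟩ := hStop p C κ hp hC
  have hA0 : 0 ≤ A := zero_le_one.trans hA
  have h2p : (1 : ℝ) ≤ 2 ^ p := Real.one_le_rpow (by norm_num) (by linarith)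
  refine ⟨2 ^ p * ((8 * κ + 9) * A), κ + 3, ?_, ?_⟩
  · have hk : (0 : ℝ) ≤ κ := Nat.cast_nonneg κ
    have h1 : (1 : ℝ) ≤ (8 * κ + 9) * A := by nlinarith
    exact one_le_mul_of_one_le_of_one_le h2p h1
  · intro N F c hc t ht q hq K₁ K₂ α β hαβ hK₁ hK₂ a1 b1 a2 b2 hF1 hF2
    have hD : 0 ≤ (β - α) / 2 := by linarith
    have key : ((β - α) / 2) ^ p ≤
        (8 * κ + 9) * A * En p (Kept N) F (nb (κ + 3) t q) := by
      rcases le_total (c t q) ((α + β) / 2) with h | h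
      · refine pa_lw_main p κ A hVit N F t q _ hD K₁ hK₁ a1 b1 hA0 ?_
        intro x hx hy
        obtain ⟨s, hs, Q, -, hQ1, hQ2⟩ := hS N F c hc t ht q hq ((β - α) / 2) hD x (hK₁.1 hx)
          (by
            have := hF1 x hx
            exact le_trans (by linarith) (le_abs_self _)) hy
        exact ⟨s, hs, Q, hQ1, hQ2⟩
      · refine pa_lw_main p κ A hVit N F t q _ hD K₂ hK₂ a2 b2 hA0 ?_
        intro x hx hy
        obtain ⟨s, hs, Q, -, hQ1, hQ2⟩ := hS N F c hc t ht q hq ((β - α) / 2) hD x (hK₂.1 hx)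
          (by
            have := hF2 x hx
            exact le_trans (by linarith) (neg_le_abs _)) hy
        exact ⟨s, hs, Q, hQ1, hQ2⟩
    have h7 : (β - α) ^ p = 2 ^ p * ((β - α) / 2) ^ p := by
      rw [← Real.mul_rpow (by norm_num) hD]
      congr 1
      ring
    rw [h7]
    calc 2 ^ p * ((β - α) / 2) ^ p
        ≤ 2 ^ p * ((8 * κ + 9) * A * En p (Kept N) F (nb (κ + 3) t q)) :=
          mul_le_mul_of_nonneg_left key (by linarith)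
      _ = 2 ^ p * ((8 * κ + 9) * A) * En p (Kept N) F (nb (κ + 3) t q) := by ring

end Pool.Agent.Lib.MP_1d263a_an.PA
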