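import Pool.Agent.Lib.MP_1d263a_an.PA.Stm

/-!
# Carpet project, part A, piece `mem`: every point of a cell lies in a subcell
-/

set_option autoImplicit false

namespace Pool.Agent.Lib.MP_1d263a_an.PA

private theorem pa_mem_aux (m c : ℕ) (x : ℝ) (h1 : (c : ℝ) / 3 ^ m ≤ x)
    (h2 : x ≤ ((c : ℝ) + 1) / 3 ^ m) :
    ∃ i : ℕ, i < 3 ∧ ((3 * c + i : ℕ) : ℝ) / 3 ^ (m + 1) ≤ x ∧
      x ≤ (((3 * c + i : ℕ) : ℝ) + 1) / 3 ^ (m + 1) ∧
      (i = 1 → (3 * (c : ℝ) + 1) / 3 ^ (m + 1) < x ∧ x < (3 * (c : ℝ) + 2) / 3 ^ (m + 1)) := by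
  have h3 : (0 : ℝ) < 3 ^ m := by positivity
  have h4 : (0 : ℝ) < 3 ^ (m + 1) := by positivity
  have h5 : (3 : ℝ) ^ (m + 1) = 3 * 3 ^ m := by rw [pow_succ]; ring
  rw [div_le_iff₀ h3] at h1
  rw [le_div_iff₀ h3] at h2
  have h1' : 3 * (c : ℝ) ≤ x * 3 ^ (m + 1) := by rw [h5]; nlinarith
  have h2' : x * 3 ^ (m + 1) ≤ 3 * (c : ℝ) + 3 := by rw [h5]; nlinarith
  rcases le_or_gt (x * 3 ^ (m + 1)) (3 * (c : ℝ) + 1) with h | h
  · refine ⟨0, by norm_num, ?_, ?_, fun h0 => absurd h0 (by norm_num)⟩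
    · rw [div_le_iff₀ h4]
      push_cast
      linarith
    · rw [le_div_iff₀ h4]
      push_cast
      linarith
  · rcases le_or_gt (3 * (c : ℝ) + 2) (x * 3 ^ (m + 1)) with h' | h'
    · refine ⟨2, by norm_num, ?_, ?_, fun h0 => absurd h0 (by norm_num)⟩
      · rw [div_le_iff₀ h4]
        push_cast
        linarith
      · rw [le_div_iff₀ h4]
        push_cast
        linarith
    · refine ⟨1, by norm_num, ?_, ?_, fun _ => ⟨?_, ?_⟩⟩
      · rw [div_le_iff₀ h4]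
        push_cast
        linarith
      · rw [le_div_iff₀ h4]
        push_cast
        linarith
      · rw [div_lt_iff₀ h4]
        exact h
      · rw [lt_div_iff₀ h4]
        exact h'

theorem p_mem : S_alv → S_mem := by
  intro halv k a ha q hq n
  induction n with
  | zero =>
    refine ⟨(0, 0), mem_I.2 alive_zero, ?_⟩
    have h : sb 0 a (0, 0) = a := by simp [sb]
    rw [h]
    exact hq
  | succ n ih =>
    obtain ⟨b, hb, hqb⟩ := ih
    obtain ⟨i, hi, i1, i2, i3⟩ := pa_mem_aux (k + n) (sb n a b).1 q.1.1 hqb.1 hqb.2.1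
    obtain ⟨j, hj, j1, j2, j3⟩ := pa_mem_aux (k + n) (sb n a b).2 q.1.2 hqb.2.2.1 hqb.2.2.2
    have hij : ¬ (i = 1 ∧ j = 1) := by
      rintro ⟨hi1, hj1⟩
      exact q.2.2.2 (k + n) (sb n a b).1 (sb n a b).2 ⟨i3 hi1, j3 hj1⟩
    have hI : ((i, j) : ℕ × ℕ) ∈ I 1 := by
      rw [mem_I]
      refine ⟨by simpa using hi, by simpa using hj, fun m => ?_⟩
      rcases m with - | m
      · rintro ⟨c1, c2⟩
        exact hij ⟨by simp only [pow_zero, Nat.div_one] at c1; omega,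
          by simp only [pow_zero, Nat.div_one] at c2; omega⟩
      · rintro ⟨c1, -⟩
        have h3 : 3 ≤ 3 ^ (m + 1) := by
          calc 3 = 3 ^ 1 := by norm_num
            _ ≤ 3 ^ (m + 1) := Nat.pow_le_pow_right (by norm_num) (by omega)
        have h0 : i / 3 ^ (m + 1) = 0 := Nat.div_eq_of_lt (by omega)
        simp only [h0] at c1
        omega
    refine ⟨sb 1 b (i, j), ?_, ?_⟩
    · exact (halv n 1 b (i, j) (by simpa using hi) (by simpa using hj)).2 ⟨hb, hI⟩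
    · have e : sb (n + 1) a (sb 1 b (i, j)) = (3 * (sb n a b).1 + i, 3 * (sb n a b).2 + j) := by
        simp only [sb, Prod.mk.injEq]
        constructor
        · rw [pow_succ]
          ring
        · rw [pow_succ]
          ring
      rw [e]
      exact ⟨i1, i2, j1, j2⟩

end Pool.Agent.Lib.MP_1d263a_an.PA
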