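import Pool.Agent.Lib.MP_1d263a_an.PA.Stm

/-!
# Carpet project, part A, piece met1: quasisymmetric maps are bounded and continuous both ways
-/

set_option autoImplicit false

namespace Pool.Agent.Lib.MP_1d263a_an.PA

open MeasureTheory
open scoped ENNReal

theorem pa_met1_wqs {X : Type} [MetricSpace X] {f : carpet ≃ X} {η : ℝ → ℝ} (h : QS f η) :
    WQS f (η 1) := fun x a b hab => h.2.2.2 x a b 1 zero_le_one hab

theorem pa_met1_nonneg {X : Type} [MetricSpace X] {f : carpet ≃ X} {η : ℝ → ℝ} (h : QS f η)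
    {t : ℝ} (ht : 0 ≤ t) : 0 ≤ η t := by
  have h1 := h.2.1.monotoneOn (Set.mem_Ici.2 le_rfl) (Set.mem_Ici.2 ht) ht
  rwa [h.1] at h1

theorem pa_met1_pos {X : Type} [MetricSpace X] {f : carpet ≃ X} {η : ℝ → ℝ} (h : QS f η)
    {t : ℝ} (ht : 0 < t) : 0 < η t := by
  have h1 := h.2.1 (Set.mem_Ici.2 le_rfl) (Set.mem_Ici.2 ht.le) ht
  rwa [h.1] at h1

/-- one of the two points is far away -/
theorem pa_met1_far (x : carpet) : ∃ b : carpet, 1 / 2 ≤ dist x b := by
  have h1 := one_le_dist p0_fst p1_fst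
  have h2 := dist_triangle_left p0 p1 x
  by_cases h3 : 1 / 2 ≤ dist x p0
  · exact ⟨p0, h3⟩
  · exact ⟨p1, by linarith [not_le.1 h3]⟩

/-- one of the two image points is far away -/
theorem pa_met1_far' {X : Type} [MetricSpace X] (f : carpet ≃ X) (x : carpet) :
    ∃ b : carpet, dist (f p0) (f p1) / 2 ≤ dist (f x) (f b) := by
  have h2 := dist_triangle_left (f p0) (f p1) (f x)
  by_cases h3 : dist (f p0) (f p1) / 2 ≤ dist (f x) (f p0)
  · exact ⟨p0, h3⟩
  · exact ⟨p1, by linarith [not_le.1 h3]⟩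

theorem pa_met1_cont {X : Type} [MetricSpace X] {f : carpet ≃ X} {η : ℝ → ℝ} (h : QS f η) :
    Continuous f := by
  rw [Metric.continuous_iff]
  intro x ε hε
  obtain ⟨D, hD⟩ : ∃ D : ℝ, D = Metric.diam (Set.univ : Set X) := ⟨_, rfl⟩
  have hD0 : 0 ≤ D := by rw [hD]; exact Metric.diam_nonneg
  have hc : ContinuousWithinAt η (Set.Ici 0) 0 := h.2.2.1 0 (Set.mem_Ici.2 le_rfl)
  rw [Metric.continuousWithinAt_iff] at hc
  obtain ⟨δ, hδ, hc⟩ := hc (ε / (D + 1)) (by positivity)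
  refine ⟨δ / 2, by positivity, fun a ha => ?_⟩
  obtain ⟨b, hb⟩ := pa_met1_far x
  have ht : 0 ≤ 2 * dist x a := by positivity
  have h1 : dist x a ≤ 2 * dist x a * dist x b := by
    have := mul_le_mul_of_nonneg_left hb ht
    linarith
  have h2 := h.2.2.2 x a b (2 * dist x a) ht h1
  have h3 : dist (f x) (f b) ≤ D := by
    rw [hD]
    exact dist_le_diam (pa_met1_wqs h) _ _
  have h4 : η (2 * dist x a) < ε / (D + 1) := by
    have h5 := hc (Set.mem_Ici.2 ht) (by
      rw [Real.dist_eq, sub_zero, abs_of_nonneg ht, dist_comm x a]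
      linarith)
    rw [h.1, Real.dist_eq, sub_zero] at h5
    exact (le_abs_self _).trans_lt h5
  have h6 := pa_met1_nonneg h ht
  rw [dist_comm]
  calc dist (f x) (f a) ≤ η (2 * dist x a) * dist (f x) (f b) := h2
    _ ≤ η (2 * dist x a) * D := mul_le_mul_of_nonneg_left h3 h6
    _ ≤ ε / (D + 1) * D := mul_le_mul_of_nonneg_right h4.le hD0
    _ < ε := by
      rw [div_mul_eq_mul_div, div_lt_iff₀ (by positivity)]
      nlinarith

theorem pa_met1_cont' {X : Type} [MetricSpace X] {f : carpet ≃ X} {η : ℝ → ℝ} (h : QS f η) :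
    Continuous f.symm := by
  rw [Metric.continuous_iff]
  intro y δ hδ
  have hd := dist_p0_p1_pos f
  have hη := pa_met1_pos h (inv_pos.2 hδ)
  refine ⟨dist (f p0) (f p1) / (2 * η δ⁻¹), by positivity, fun y' hy' => ?_⟩
  by_contra hcon
  push Not at hcon
  obtain ⟨x, rfl⟩ := f.surjective y
  obtain ⟨a, rfl⟩ := f.surjective y'
  rw [Equiv.symm_apply_apply, Equiv.symm_apply_apply, dist_comm] at hcon
  obtain ⟨b, hb⟩ := pa_met1_far' f x
  have h1 : dist x b ≤ δ⁻¹ * dist x a := by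
    have h2 := dist_le_one x b
    have h3 : 1 ≤ δ⁻¹ * dist x a := by
      rw [inv_mul_eq_div, le_div_iff₀ hδ, one_mul]
      exact hcon
    linarith
  have h2 := h.2.2.2 x b a δ⁻¹ (inv_pos.2 hδ).le h1
  rw [dist_comm, lt_div_iff₀ (by positivity)] at hy'
  nlinarith

theorem p_met1 : S_met1 := by
  intro X _ f η h
  exact ⟨one_le_H (pa_met1_wqs h), bdd (pa_met1_wqs h), pa_met1_cont h, pa_met1_cont' h⟩

end Pool.Agent.Lib.MP_1d263a_an.PA
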