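import Pool.Agent.Lib.MP_1d263a_an.PA.Stm

/-!
# Carpet project, part A: diameters of images of cells
-/

set_option autoImplicit false

namespace Pool.Agent.Lib.MP_1d263a_an.PA

open MeasureTheory CarpetPI
open scoped ENNReal

theorem p_met2 (hgeo : S_geo) (hmet1 : S_met1) (halv : S_alv) : S_met2 := by
  intro X _ f η hQS
  obtain ⟨g1, g2, g3, g4, g5, g6, _, _, g9⟩ := hgeo
  obtain ⟨-, hbdd, -, -⟩ := hmet1 X f η hQS
  obtain ⟨h0, hmono, -, hqs⟩ := hQS
  have hle : ∀ s t : ℝ, 0 ≤ s → s ≤ t → η s ≤ η t := fun s t hs hst =>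
    hmono.monotoneOn (Set.mem_Ici.mpr hs) (Set.mem_Ici.mpr (hs.trans hst)) hst
  have h60 : 0 ≤ η 6 := by
    have := hle 0 6 le_rfl (by norm_num)
    rwa [h0] at this
  have hdr : ∀ (n : ℕ) (a : ℕ × ℕ), ∀ x ∈ Cl n a, ∀ y ∈ Cl n a,
      dist (f x) (f y) ≤ rad f n a := fun n a x hx y hy =>
    Metric.dist_le_diam_of_mem (hbdd.subset (Set.subset_univ _)) (Set.mem_image_of_mem f hx)
      (Set.mem_image_of_mem f hy)
  have hr0 : ∀ (n : ℕ) (a : ℕ × ℕ), 0 ≤ rad f n a := fun n a => Metric.diam_nonneg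
  -- the diameter from the distances to one point
  have hrad : ∀ (n : ℕ) (a : ℕ × ℕ) (ξ : X) (c : ℝ), 0 ≤ c →
      (∀ x ∈ Cl n a, dist ξ (f x) ≤ c) → rad f n a ≤ 2 * c := by
    intro n a ξ c hc h
    refine Metric.diam_le_of_forall_dist_le (by linarith) ?_
    rintro _ ⟨x, hx, rfl⟩ _ ⟨y, hy, rfl⟩
    have h1 := dist_triangle_left (f x) (f y) ξ
    have h2 := h x hx
    have h3 := h y hy
    linarith
  -- the main consequence of quasisymmetry
  have key : ∀ n, ∀ a ∈ I n, ∀ x ∈ Cl n a, ∀ y, dist x y ≤ (3 : ℝ) / 3 ^ n →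
      dist (f x) (f y) ≤ η 6 * rad f n a := by
    intro n a ha x hx y hy
    obtain ⟨z, hz, hxz⟩ := g4 n a ha x hx
    have hp : (0 : ℝ) < 3 ^ n := by positivity
    have h1 : dist x y ≤ 6 * dist x z := by
      have e : (3 : ℝ) / 3 ^ n = 6 * (1 / (2 * 3 ^ n)) := by
        field_simp
        norm_num
      rw [e] at hy
      linarith
    exact (hqs x y z 6 (by norm_num) h1).trans
      (mul_le_mul_of_nonneg_left (hdr n a x hx z hz) h60)
  refine ⟨?_, ?_, ?_, ?_, ?_, ?_⟩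
  · intro n a ha
    obtain ⟨z, hz, hxz⟩ := g4 n a ha _ (g5 n a ha)
    have h1 : 0 < dist (mid n a) z := lt_of_lt_of_le (by positivity) hxz
    have h2 : f (mid n a) ≠ f z := fun h => (dist_pos.mp h1) (f.injective h)
    exact lt_of_lt_of_le (dist_pos.mpr h2) (hdr n a _ (g5 n a ha) z hz)
  · intro n a ha b _ hab x hx y hy
    have h1 : dist x y ≤ ((1 : ℕ) + 1 : ℝ) / 3 ^ n := g3 1 n a b hab x hx y hy
    have h2 : ((1 : ℕ) + 1 : ℝ) / 3 ^ n ≤ (3 : ℝ) / 3 ^ n := by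
      refine div_le_div_of_nonneg_right ?_ (by positivity)
      norm_num
    have h3 := key n a ha x hx y (h1.trans h2)
    have h4 : 0 ≤ η 6 * rad f n a := mul_nonneg h60 (hr0 n a)
    linarith
  · intro n a ha b _ hab
    rw [mul_assoc]
    refine hrad n b (f (mid n a)) _ (mul_nonneg h60 (hr0 n a)) fun y hy => ?_
    have h1 : dist (mid n a) y ≤ ((1 : ℕ) + 1 : ℝ) / 3 ^ n := g3 1 n a b hab _ (g5 n a ha) y hy
    have h2 : ((1 : ℕ) + 1 : ℝ) / 3 ^ n ≤ (3 : ℝ) / 3 ^ n := by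
      refine div_le_div_of_nonneg_right ?_ (by positivity)
      norm_num
    exact key n a ha _ (g5 n a ha) y (h1.trans h2)
  · intro n a ha b hb
    have hb' := mem_I.mp hb
    have hb1 : b.1 < 3 ^ 1 := hb'.1
    have hb2 : b.2 < 3 ^ 1 := hb'.2.1
    have hc : sb 1 a b ∈ I (n + 1) := (halv n 1 a b hb1 hb2).mpr ⟨ha, hb⟩
    rw [mul_assoc]
    refine hrad n a (f (mid (n + 1) (sb 1 a b))) _ (mul_nonneg h60 (hr0 _ _)) fun x hx => ?_
    refine key (n + 1) _ hc _ (g5 _ _ hc) x ?_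
    have h1 := g1 n a _ (g9 n 1 a b hb1 hb2 (g5 _ _ hc)) x hx
    have e : (1 : ℝ) / 3 ^ n = 3 / 3 ^ (n + 1) := by
      rw [pow_succ]
      field_simp
    rwa [e] at h1
  · intro n a _ b _ hab x hx y hy
    rw [mul_assoc]
    refine hrad n a (f x) _ (mul_nonneg h60 dist_nonneg) fun x' hx' => ?_
    have h1 : dist x x' ≤ 1 * dist x y := by
      rw [one_mul]
      exact (g1 n a x hx x' hx').trans (g2 n a b hab x hx y hy)
    exact (hqs x x' y 1 (by norm_num) h1).trans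
      (mul_le_mul_of_nonneg_right (hle 1 6 (by norm_num) (by norm_num)) dist_nonneg)
  · intro n a ha y hy
    rw [mul_assoc]
    refine hrad n a (f (mid n a)) _ (mul_nonneg h60 dist_nonneg) fun x hx => ?_
    have h0' : (1 : ℝ) / 3 ^ (n + 1) ≤ dist (mid n a) y := by
      by_contra h
      exact hy (g6 n a ha y (not_le.mp h))
    have h1 : dist (mid n a) x ≤ 3 * dist (mid n a) y := by
      have h2 := g1 n a _ (g5 n a ha) x hx
      have e : (1 : ℝ) / 3 ^ n = 3 * (1 / 3 ^ (n + 1)) := by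
        rw [pow_succ]
        field_simp
      rw [e] at h2
      linarith
    exact (hqs _ x y 3 (by norm_num) h1).trans
      (mul_le_mul_of_nonneg_right (hle 3 6 (by norm_num) (by norm_num)) dist_nonneg)

end Pool.Agent.Lib.MP_1d263a_an.PA
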