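import Pool.Agent.Lib.MP_1d263a_an.PA.Stm

/-!
# Carpet project, part A, piece met3: cells `R` steps apart; balls are in neighbourhoods of cells
-/

set_option autoImplicit false

namespace Pool.Agent.Lib.MP_1d263a_an.PA

open MeasureTheory CarpetPI Filter Topology
open scoped ENNReal

theorem pa_met3_mono {η : ℝ → ℝ} (h : StrictMonoOn η (Set.Ici 0)) {s t : ℝ} (hs : 0 ≤ s)
    (hst : s ≤ t) : η s ≤ η t :=
  h.monotoneOn (Set.mem_Ici.2 hs) (Set.mem_Ici.2 (hs.trans hst)) hst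

theorem pa_met3_nonneg {η : ℝ → ℝ} (h0 : η 0 = 0) (h : StrictMonoOn η (Set.Ici 0)) {t : ℝ}
    (ht : 0 ≤ t) : 0 ≤ η t := by
  have := pa_met3_mono h le_rfl ht
  rwa [h0] at this

theorem pa_met3_dist_le_rad {X : Type} [MetricSpace X] {f : carpet ≃ X}
    (hb : Bornology.IsBounded (Set.univ : Set X)) {n : ℕ} {a : ℕ × ℕ} {x y : carpet}
    (hx : x ∈ Cl n a) (hy : y ∈ Cl n a) : dist (f x) (f y) ≤ rad f n a :=
  Metric.dist_le_diam_of_mem (hb.subset (Set.subset_univ _)) (Set.mem_image_of_mem f hx)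
    (Set.mem_image_of_mem f hy)

theorem pa_met3_rad_le {X : Type} [MetricSpace X] {f : carpet ≃ X} {n : ℕ} {a : ℕ × ℕ}
    {x : X} {c : ℝ} (hc : 0 ≤ c) (h : ∀ y ∈ Cl n a, dist x (f y) ≤ c) :
    rad f n a ≤ 2 * c := by
  refine Metric.diam_le_of_forall_dist_le (by linarith) ?_
  rintro _ ⟨y, hy, rfl⟩ _ ⟨y', hy', rfl⟩
  have h1 := dist_triangle_left (f y) (f y') x
  have h2 := h y hy
  have h3 := h y' hy'
  linarith

theorem pa_met3_rad_pos (hgeo : S_geo) {X : Type} [MetricSpace X] {f : carpet ≃ X}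
    (hb : Bornology.IsBounded (Set.univ : Set X)) {n : ℕ} {a : ℕ × ℕ} (ha : a ∈ I n) :
    0 < rad f n a := by
  obtain ⟨-, -, -, g4, g5, -⟩ := hgeo
  obtain ⟨z, hz, hd⟩ := g4 n a ha _ (g5 n a ha)
  have h1 : 0 < dist (mid n a) z := lt_of_lt_of_le (by positivity) hd
  have h2 : 0 < dist (f (mid n a)) (f z) := by
    rw [dist_pos] at h1 ⊢
    exact fun h => h1 (f.injective h)
  exact h2.trans_le (pa_met3_dist_le_rad hb (g5 n a ha) hz)

theorem pa_met3_near (hgeo : S_geo) (hmet1 : S_met1) {X : Type} [MetricSpace X]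
    (f : carpet ≃ X) (η : ℝ → ℝ) (hQ : QS f η) (R : ℕ) :
    ∃ M : ℝ, 1 ≤ M ∧ ∀ n, ∀ a ∈ I n, ∀ b ∈ I n, Nb R a b →
      rad f n b ≤ M * rad f n a ∧ ∀ x ∈ Cl n a, ∀ y ∈ Cl n b,
        dist (f x) (f y) ≤ M * rad f n a := by
  obtain ⟨h1, hb, -, -⟩ := hmet1 X f η hQ
  obtain ⟨e0, hm, -, hq⟩ := hQ
  obtain ⟨-, -, g3, g4, g5, -⟩ := hgeo
  have hR : (0 : ℝ) ≤ R := Nat.cast_nonneg R
  have ht0 : (0 : ℝ) ≤ 2 * ((R : ℝ) + 1) := by linarith
  have h2 : 1 ≤ η (2 * ((R : ℝ) + 1)) :=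
    h1.trans (pa_met3_mono hm (by norm_num) (by linarith))
  refine ⟨2 * η (2 * ((R : ℝ) + 1)), by linarith, fun n a ha b hbn hN => ?_⟩
  have hr : 0 ≤ rad f n a := Metric.diam_nonneg
  have key : ∀ x ∈ Cl n a, ∀ y ∈ Cl n b,
      dist (f x) (f y) ≤ η (2 * ((R : ℝ) + 1)) * rad f n a := by
    intro x hx y hy
    obtain ⟨z, hz, hd⟩ := g4 n a ha x hx
    have h3 := g3 R n a b hN x hx y hy
    have h4 : dist x y ≤ 2 * ((R : ℝ) + 1) * dist x z := by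
      refine h3.trans ?_
      have h5 : ((R : ℝ) + 1) / 3 ^ n = 2 * ((R : ℝ) + 1) * (1 / (2 * 3 ^ n)) := by
        field_simp
      rw [h5]
      exact mul_le_mul_of_nonneg_left hd ht0
    refine (hq x y z _ ht0 h4).trans ?_
    exact mul_le_mul_of_nonneg_left (pa_met3_dist_le_rad hb hx hz) (by linarith)
  constructor
  · have h6 := pa_met3_rad_le (f := f) (n := n) (a := b) (x := f (mid n a))
      (mul_nonneg (by linarith : 0 ≤ η (2 * ((R : ℝ) + 1))) hr) (key _ (g5 n a ha))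
    linarith
  · intro x hx y hy
    have h7 := key x hx y hy
    have h8 : 0 ≤ η (2 * ((R : ℝ) + 1)) * rad f n a := mul_nonneg (by linarith) hr
    linarith

theorem pa_met3_small {η : ℝ → ℝ} (e0 : η 0 = 0) (hc : ContinuousOn η (Set.Ici 0)) (M : ℝ) :
    ∃ L : ℕ, 1 ≤ L ∧ 2 * M * η (1 / (L : ℝ)) < 1 := by
  have h1 : Tendsto η (𝓝[Set.Ici 0] 0) (𝓝 0) := by
    have := hc 0 (Set.mem_Ici.2 le_rfl)
    unfold ContinuousWithinAt at this
    rwa [e0] at this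
  have h2 : Tendsto (fun n : ℕ => 1 / ((n : ℝ) + 1)) atTop (𝓝[Set.Ici 0] 0) := by
    refine tendsto_nhdsWithin_iff.2 ⟨tendsto_one_div_add_atTop_nhds_zero_nat, ?_⟩
    refine Eventually.of_forall fun n => ?_
    rw [Set.mem_Ici]
    positivity
  have h3 := (h1.comp h2).const_mul (2 * M)
  rw [mul_zero] at h3
  obtain ⟨n, hn⟩ := (h3.eventually (gt_mem_nhds (by norm_num : (0 : ℝ) < 1))).exists
  refine ⟨n + 1, by omega, ?_⟩
  simpa using hn

theorem pa_met3_loc (hgeo : S_geo) (hmet1 : S_met1) {X : Type} [MetricSpace X]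
    (f : carpet ≃ X) (η : ℝ → ℝ) (hQ : QS f η) (M : ℝ) :
    ∃ L : ℕ, ∀ k, ∀ a ∈ I k, ∀ z ∈ Cl k a, ∀ y,
      dist (f z) (f y) ≤ M * rad f k a → dist z y ≤ (L : ℝ) / 3 ^ k := by
  obtain ⟨h1, hb, -, -⟩ := hmet1 X f η hQ
  obtain ⟨e0, hm, hc, hq⟩ := hQ
  obtain ⟨L, hL1, hL⟩ := pa_met3_small e0 hc M
  refine ⟨L, fun k a ha z hz y hy => ?_⟩
  have hr := pa_met3_rad_pos hgeo (f := f) hb ha
  obtain ⟨g1, -⟩ := hgeo
  have hL0 : (0 : ℝ) < L := by exact_mod_cast hL1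
  have h0 : (0 : ℝ) ≤ 1 / (L : ℝ) := by positivity
  have hη := pa_met3_nonneg e0 hm h0
  by_contra hcon
  rw [not_le] at hcon
  have h2 : ∀ x ∈ Cl k a, dist (f z) (f x) ≤ η (1 / (L : ℝ)) * (M * rad f k a) := by
    intro x hx
    have h3 := g1 k a z hz x hx
    have h4 : dist z x ≤ 1 / (L : ℝ) * dist z y := by
      refine h3.trans ?_
      have h5 : (1 : ℝ) / 3 ^ k = 1 / (L : ℝ) * ((L : ℝ) / 3 ^ k) := by
        field_simp
      rw [h5]
      exact mul_le_mul_of_nonneg_left hcon.le h0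
    exact (hq z x y _ h0 h4).trans (mul_le_mul_of_nonneg_left hy hη)
  have h6 : 0 ≤ M * rad f k a := dist_nonneg.trans hy
  have h7 := pa_met3_rad_le (f := f) (mul_nonneg hη h6) h2
  have h8 : 2 * (η (1 / (L : ℝ)) * (M * rad f k a)) =
      2 * M * η (1 / (L : ℝ)) * rad f k a := by ring
  rw [h8] at h7
  have h9 := mul_lt_mul_of_pos_right hL hr
  linarith

/-- **met3.** -/
theorem p_met3 (hgeo : S_geo) (hmet1 : S_met1) : S_met3 := fun _ _ f η hQ =>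
  ⟨fun R => pa_met3_near hgeo hmet1 f η hQ R, fun M => pa_met3_loc hgeo hmet1 f η hQ M⟩

end Pool.Agent.Lib.MP_1d263a_an.PA
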