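import Pool.Agent.Lib.MP_1d263a_an.PA.Stm

/-!
# Carpet project, part A, piece null: the images of the boundaries of the cells are null sets
-/

set_option autoImplicit false

namespace Pool.Agent.Lib.MP_1d263a_an.PA

open MeasureTheory Filter Topology
open scoped ENNReal

private theorem pa_null_00 : ((0, 0) : ℕ × ℕ) ∈ I 0 := by
  rw [mem_I]
  exact ⟨by norm_num, by norm_num, fun j => by simp⟩

private theorem pa_null_01 : ((0, 0) : ℕ × ℕ) ∈ I 1 := by
  rw [mem_I]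
  exact ⟨by norm_num, by norm_num, fun j => by simp⟩

private theorem pa_null_20 : ((2, 0) : ℕ × ℕ) ∈ I 1 := by
  rw [mem_I]
  exact ⟨by norm_num, by norm_num, fun j => by simp⟩

private theorem pa_null_02 : ((0, 2) : ℕ × ℕ) ∈ I 1 := by
  rw [mem_I]
  exact ⟨by norm_num, by norm_num, fun j => by simp⟩

private theorem pa_null_seq {X : Type} [MetricSpace X] [MeasurableSpace X] [BorelSpace X]
    {f : carpet ≃ X} {H : ℝ} {μ : Measure X} {p : ℝ} (hp : 0 < p) (hf : Met f H)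
    (hfin : IsFiniteMeasure μ) (hgeo : S_geo) (htop : S_top) (halv : S_alv) (hanc : S_anc)
    {K : ℝ} (hK : 1 ≤ K) (hmr : ∀ n, ∀ a ∈ I n,
      ENNReal.ofReal (K⁻¹ * rad f n a ^ p) ≤ μ (f '' Op n a) ∧
      μ (f '' Cl n a) ≤ ENNReal.ofReal (K * rad f n a ^ p))
    (U : ℕ → Finset (ℕ × ℕ)) (n₀ : ℕ) (hU : ∀ N, n₀ ≤ N → ∀ c ∈ U N, c ∈ I N)
    (hpar : ∀ N, n₀ ≤ N → ∀ c ∈ U (N + 1), anc 1 c ∈ U N)
    (hch : ∀ N, n₀ ≤ N → ∀ c ∈ U N, ∃ b ∈ I 1, sb 1 c b ∉ U (N + 1))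
    (Z : Set carpet) (hZ : ∀ N, n₀ ≤ N → ∀ q ∈ Z, ∃ c ∈ U N, q ∈ Cl N c) : μ (f '' Z) = 0 := by
  obtain ⟨-, -, -, -, -, -, g7, g8, g9⟩ := hgeo
  obtain ⟨-, tcl, top⟩ := htop
  obtain ⟨an1, an2, -, -⟩ := hanc
  have hH : 1 ≤ H := hf.one_le
  have hHp : 1 ≤ H ^ p := Real.one_le_rpow hH hp.le
  have hHp0 : 0 < H ^ p := by linarith
  have hK0 : 0 < K := by linarith
  obtain ⟨θ, hθ, hθ1, hθK⟩ : ∃ θ : ℝ, 0 < θ ∧ θ ≤ 1 ∧ θ = K⁻¹ * K⁻¹ * (H ^ p)⁻¹ := by
    refine ⟨K⁻¹ * K⁻¹ * (H ^ p)⁻¹, by positivity, ?_, rfl⟩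
    have h1 : K⁻¹ ≤ 1 := inv_le_one_of_one_le₀ hK
    have h2 : (H ^ p)⁻¹ ≤ 1 := inv_le_one_of_one_le₀ hHp
    have h3 : 0 ≤ K⁻¹ := by positivity
    have h4 : 0 ≤ (H ^ p)⁻¹ := by positivity
    calc K⁻¹ * K⁻¹ * (H ^ p)⁻¹ ≤ 1 * 1 * 1 := by gcongr
      _ = 1 := by norm_num
  have b1 : ∀ {b : ℕ × ℕ}, b ∈ I 1 → b.1 < 3 ^ 1 ∧ b.2 < 3 ^ 1 := by
    intro b hb
    rw [mem_I] at hb
    exact ⟨hb.1, hb.2.1⟩
  have clc : ∀ (n : ℕ) (a : ℕ × ℕ), IsClosed (f '' Cl n a) := by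
    intro n a
    rw [f.image_eq_preimage_symm]
    exact (tcl n a).preimage hf.cont'
  have opo : ∀ (n : ℕ) (a : ℕ × ℕ), IsOpen (f '' Op n a) := by
    intro n a
    rw [f.image_eq_preimage_symm]
    exact (top n a).preimage hf.cont'
  let V : ℕ → Set X := fun N => ⋃ c ∈ U N, f '' Cl N c
  -- the main step
  have step : ∀ N, n₀ ≤ N → μ.real (V (N + 1)) ≤ (1 - θ) * μ.real (V N) := by
    intro N hN
    choose! b hb hb' using hch N hN
    let W : Set X := ⋃ c ∈ U N, f '' Op (N + 1) (sb 1 c (b c))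
    have hVV : V (N + 1) ⊆ V N := by
      refine Set.iUnion₂_subset fun c hc => ?_
      have hcI := hU (N + 1) (by omega) c hc
      obtain ⟨e1, e2, e3⟩ := an2 N 1 c hcI
      refine Set.Subset.trans (Set.image_mono ?_) (Set.subset_iUnion₂ (s := fun c _ => f '' Cl N c)
        (anc 1 c) (hpar N hN c hc))
      have := g9 N 1 (anc 1 c) (c.1 % 3 ^ 1, c.2 % 3 ^ 1) (b1 e2).1 (b1 e2).2
      rwa [e3] at this
    have hWV : W ⊆ V N := by
      refine Set.iUnion₂_subset fun c hc => ?_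
      refine Set.Subset.trans (Set.image_mono ?_) (Set.subset_iUnion₂ (s := fun c _ => f '' Cl N c) c hc)
      exact (g8 _ _).trans (g9 N 1 c (b c) (b1 (hb c hc)).1 (b1 (hb c hc)).2)
    have hdis : Disjoint (V (N + 1)) W := by
      rw [Set.disjoint_iUnion₂_left]
      intro c' hc'
      rw [Set.disjoint_iUnion₂_right]
      intro c hc
      rw [Set.disjoint_image_iff f.injective]
      refine (g7 _ _ _ ?_).symm
      rintro rfl
      exact hb' c hc hc'
    have hWm : MeasurableSet W := by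
      refine MeasurableSet.biUnion (U N).countable_toSet fun c _ => (opo _ _).measurableSet
    have hVm : MeasurableSet (V (N + 1)) := by
      refine MeasurableSet.biUnion (U (N + 1)).countable_toSet fun c _ => (clc _ _).measurableSet
    have hWsum : μ.real W = ∑ c ∈ U N, μ.real (f '' Op (N + 1) (sb 1 c (b c))) := by
      refine measureReal_biUnion_finset ?_ (fun c _ => (opo _ _).measurableSet)
      intro c hc d hd hcd
      have hne : sb 1 c (b c) ≠ sb 1 d (b d) := by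
        intro h
        have h1 := an1 1 c (b c) (b1 (hb c hc)).1 (b1 (hb c hc)).2
        have h2 := an1 1 d (b d) (b1 (hb d hd)).1 (b1 (hb d hd)).2
        rw [h, h2] at h1
        exact hcd h1.symm
      show Disjoint (f '' _) (f '' _)
      rw [Set.disjoint_image_iff f.injective]
      exact (g7 _ _ _ hne).mono_right (g8 _ _)
    have hVsum : μ.real (V N) ≤ ∑ c ∈ U N, μ.real (f '' Cl N c) :=
      measureReal_biUnion_finset_le _ _
    have hcell : ∀ c ∈ U N, θ * μ.real (f '' Cl N c) ≤ μ.real (f '' Op (N + 1) (sb 1 c (b c))) := by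
      intro c hc
      have hcI := hU N hN c hc
      have hsI : sb 1 c (b c) ∈ I (N + 1) :=
        (halv N 1 c (b c) (b1 (hb c hc)).1 (b1 (hb c hc)).2).2 ⟨hcI, hb c hc⟩
      have e1 := (hmr N c hcI).2
      have e2 := (hmr (N + 1) _ hsI).1
      have r1 : 0 < rad f N c := hf.pos N c hcI
      have r2 : 0 < rad f (N + 1) (sb 1 c (b c)) := hf.pos _ _ hsI
      have r3 := hf.chi N c hcI (b c) (hb c hc)
      have e1' : μ.real (f '' Cl N c) ≤ K * rad f N c ^ p :=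
        ENNReal.toReal_le_of_le_ofReal (by positivity) e1
      have e2' : K⁻¹ * rad f (N + 1) (sb 1 c (b c)) ^ p ≤ μ.real (f '' Op (N + 1) (sb 1 c (b c))) :=
        (ENNReal.ofReal_le_iff_le_toReal (measure_ne_top μ _)).1 e2
      have e3 : rad f N c ^ p ≤ H ^ p * rad f (N + 1) (sb 1 c (b c)) ^ p := by
        rw [← Real.mul_rpow (by linarith) r2.le]
        exact Real.rpow_le_rpow r1.le r3 hp.le
      calc θ * μ.real (f '' Cl N c) ≤ θ * (K * rad f N c ^ p) := by gcongr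
        _ ≤ θ * (K * (H ^ p * rad f (N + 1) (sb 1 c (b c)) ^ p)) := by gcongr
        _ = K⁻¹ * rad f (N + 1) (sb 1 c (b c)) ^ p := by
          rw [hθK]
          field_simp
        _ ≤ _ := e2'
    have h1 : θ * μ.real (V N) ≤ μ.real W := by
      rw [hWsum]
      refine (mul_le_mul_of_nonneg_left hVsum hθ.le).trans ?_
      rw [Finset.mul_sum]
      exact Finset.sum_le_sum hcell
    have h2 : μ.real (V (N + 1)) + μ.real W ≤ μ.real (V N) := by
      rw [← measureReal_union hdis hWm (measure_ne_top μ _) (measure_ne_top μ _)]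
      exact measureReal_mono (Set.union_subset hVV hWV) (measure_ne_top μ _)
    linarith
  have geom : ∀ j : ℕ, μ.real (V (n₀ + j)) ≤ (1 - θ) ^ j * μ.real (V n₀) := by
    intro j
    induction j with
    | zero => simp
    | succ j ih =>
      have := step (n₀ + j) (by omega)
      rw [← add_assoc]
      refine this.trans ?_
      rw [pow_succ']
      have h0 : 0 ≤ 1 - θ := by linarith
      calc (1 - θ) * μ.real (V (n₀ + j)) ≤ (1 - θ) * ((1 - θ) ^ j * μ.real (V n₀)) := by gcongr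
        _ = _ := by ring
  have hle : ∀ j : ℕ, μ.real (f '' Z) ≤ (1 - θ) ^ j * μ.real (V n₀) := by
    intro j
    refine le_trans (measureReal_mono ?_ (measure_ne_top μ _)) (geom j)
    rintro _ ⟨q, hq, rfl⟩
    obtain ⟨c, hc, hqc⟩ := hZ (n₀ + j) (by omega) q hq
    exact Set.mem_iUnion₂.2 ⟨c, hc, Set.mem_image_of_mem f hqc⟩
  have hlim : Tendsto (fun j : ℕ => (1 - θ) ^ j * μ.real (V n₀)) atTop (𝓝 0) := by
    have := (tendsto_pow_atTop_nhds_zero_of_lt_one (r := 1 - θ) (by linarith) (by linarith)).mul_const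
      (μ.real (V n₀))
    rwa [zero_mul] at this
  have h0 : μ.real (f '' Z) ≤ 0 := ge_of_tendsto' hlim hle
  have h00 : μ.real (f '' Z) = 0 := le_antisymm h0 measureReal_nonneg
  exact (measureReal_eq_zero_iff).1 h00

private theorem pa_null_cov (hmem : S_mem) (q : carpet) (N : ℕ) : ∃ c ∈ I N, q ∈ Cl N c := by
  have hq : q ∈ Cl 0 (0, 0) := by
    obtain ⟨q, hq⟩ := q
    have h1 := hq.1
    have h2 := hq.2.1
    refine ⟨?_, ?_, ?_, ?_⟩
    · simpa using h1.1
    · simpa using h1.2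
    · simpa using h2.1
    · simpa using h2.2
  obtain ⟨b, hb, hqb⟩ := hmem 0 (0, 0) pa_null_00 q hq N
  refine ⟨b, hb, ?_⟩
  have e : sb N (0, 0) b = b := by
    simp [sb]
  rwa [e, zero_add] at hqb

private theorem pa_null_num {n N i c : ℕ} (hN : n ≤ N) {x : ℝ} (hx : x = (i : ℝ) / 3 ^ n)
    (h1 : (c : ℝ) / 3 ^ N ≤ x) (h2 : x ≤ ((c : ℝ) + 1) / 3 ^ N) :
    c = i * 3 ^ (N - n) ∨ c + 1 = i * 3 ^ (N - n) := by
  have e : x = ((i * 3 ^ (N - n) : ℕ) : ℝ) / 3 ^ N := by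
    rw [hx]
    push_cast
    rw [div_eq_div_iff (by positivity) (by positivity), mul_assoc, ← pow_add, Nat.sub_add_cancel hN]
  rw [e, div_le_div_iff_of_pos_right (by positivity)] at h1
  rw [e, div_le_div_iff_of_pos_right (by positivity)] at h2
  have h1' : c ≤ i * 3 ^ (N - n) := by exact_mod_cast h1
  have h2' : i * 3 ^ (N - n) ≤ c + 1 := by exact_mod_cast h2
  omega

theorem p_null (hgeo : S_geo) (htop : S_top) (hmr : S_mr) (hmem : S_mem) (halv : S_alv)
    (hanc : S_anc) : S_null := by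
  intro X _ _ _ f H μ p C hp hC hf hAR n a ha
  obtain ⟨hfin, K, hK, hk⟩ := hmr X f H μ p C hp hC hf hAR
  have pw : ∀ N, n ≤ N → ∀ i : ℕ, i * 3 ^ (N + 1 - n) = 3 * (i * 3 ^ (N - n)) := by
    intro N hN i
    rw [Nat.sub_add_comm hN, pow_succ]
    ring
  have key1 : ∀ i : ℕ, μ (f '' {q : carpet | q.1.1 = (i : ℝ) / 3 ^ n}) = 0 := by
    intro i
    refine pa_null_seq hp hf hfin hgeo htop halv hanc hK hk
      (fun N => (I N).filter fun c => c.1 = i * 3 ^ (N - n) ∨ c.1 + 1 = i * 3 ^ (N - n)) n ?_ ?_ ?_ _ ?_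
    · intro N hN c hc
      exact (Finset.mem_filter.1 hc).1
    · intro N hN c hc
      obtain ⟨h1, h2⟩ := Finset.mem_filter.1 hc
      refine Finset.mem_filter.2 ⟨(hanc.2.1 N 1 c h1).1, ?_⟩
      rw [pw N hN] at h2
      have e : (anc 1 c).1 = c.1 / 3 := by simp [anc]
      rw [e]
      omega
    · intro N hN c hc
      obtain ⟨h1, h2⟩ := Finset.mem_filter.1 hc
      rcases h2 with h2 | h2
      · refine ⟨(2, 0), pa_null_20, fun h => ?_⟩
        have h3 := (Finset.mem_filter.1 h).2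
        rw [pw N hN] at h3
        simp only [sb, pow_one] at h3
        omega
      · refine ⟨(0, 0), pa_null_01, fun h => ?_⟩
        have h3 := (Finset.mem_filter.1 h).2
        rw [pw N hN] at h3
        simp only [sb, pow_one] at h3
        omega
    · intro N hN q hq
      obtain ⟨c, hc, hqc⟩ := pa_null_cov hmem q N
      exact ⟨c, Finset.mem_filter.2 ⟨hc, pa_null_num hN hq hqc.1 hqc.2.1⟩, hqc⟩
  have key2 : ∀ i : ℕ, μ (f '' {q : carpet | q.1.2 = (i : ℝ) / 3 ^ n}) = 0 := by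
    intro i
    refine pa_null_seq hp hf hfin hgeo htop halv hanc hK hk
      (fun N => (I N).filter fun c => c.2 = i * 3 ^ (N - n) ∨ c.2 + 1 = i * 3 ^ (N - n)) n ?_ ?_ ?_ _ ?_
    · intro N hN c hc
      exact (Finset.mem_filter.1 hc).1
    · intro N hN c hc
      obtain ⟨h1, h2⟩ := Finset.mem_filter.1 hc
      refine Finset.mem_filter.2 ⟨(hanc.2.1 N 1 c h1).1, ?_⟩
      rw [pw N hN] at h2
      have e : (anc 1 c).2 = c.2 / 3 := by simp [anc]
      rw [e]
      omega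
    · intro N hN c hc
      obtain ⟨h1, h2⟩ := Finset.mem_filter.1 hc
      rcases h2 with h2 | h2
      · refine ⟨(0, 2), pa_null_02, fun h => ?_⟩
        have h3 := (Finset.mem_filter.1 h).2
        rw [pw N hN] at h3
        simp only [sb, pow_one] at h3
        omega
      · refine ⟨(0, 0), pa_null_01, fun h => ?_⟩
        have h3 := (Finset.mem_filter.1 h).2
        rw [pw N hN] at h3
        simp only [sb, pow_one] at h3
        omega
    · intro N hN q hq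
      obtain ⟨c, hc, hqc⟩ := pa_null_cov hmem q N
      exact ⟨c, Finset.mem_filter.2 ⟨hc, pa_null_num hN hq hqc.2.2.1 hqc.2.2.2⟩, hqc⟩
  have hsub : f '' (Cl n a \ Op n a) ⊆
      ((f '' {q : carpet | q.1.1 = (a.1 : ℝ) / 3 ^ n}) ∪
        (f '' {q : carpet | q.1.1 = ((a.1 + 1 : ℕ) : ℝ) / 3 ^ n})) ∪
      ((f '' {q : carpet | q.1.2 = (a.2 : ℝ) / 3 ^ n}) ∪
        (f '' {q : carpet | q.1.2 = ((a.2 + 1 : ℕ) : ℝ) / 3 ^ n})) := by
    rintro _ ⟨q, ⟨⟨h1, h2, h3, h4⟩, hno⟩, rfl⟩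
    by_cases e1 : q.1.1 = (a.1 : ℝ) / 3 ^ n
    · exact Or.inl (Or.inl (Set.mem_image_of_mem f e1))
    by_cases e2 : q.1.1 = ((a.1 + 1 : ℕ) : ℝ) / 3 ^ n
    · exact Or.inl (Or.inr (Set.mem_image_of_mem f e2))
    by_cases e3 : q.1.2 = (a.2 : ℝ) / 3 ^ n
    · exact Or.inr (Or.inl (Set.mem_image_of_mem f e3))
    by_cases e4 : q.1.2 = ((a.2 + 1 : ℕ) : ℝ) / 3 ^ n
    · exact Or.inr (Or.inr (Set.mem_image_of_mem f e4))
    exfalso
    push_cast at e2 e4
    exact hno ⟨lt_of_le_of_ne h1 (Ne.symm e1), lt_of_le_of_ne h2 e2, lt_of_le_of_ne h3 (Ne.symm e3),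
      lt_of_le_of_ne h4 e4⟩
  refine measure_mono_null hsub ?_
  rw [measure_union_null_iff, measure_union_null_iff, measure_union_null_iff]
  exact ⟨⟨key1 _, key1 _⟩, ⟨key2 _, key2 _⟩⟩

end Pool.Agent.Lib.MP_1d263a_an.PA
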