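import Pool.Agent.Lib.MP_1d263a_an.PA.Stm

/-! **poinR.** The Poincare inequality near a cell. -/

set_option autoImplicit false

namespace Pool.Agent.Lib.MP_1d263a_an.PA

open MeasureTheory CarpetPI
open scoped ENNReal

private theorem pa_poinR_EL_nonneg (p : ℝ) (L k : ℕ) (a : ℕ × ℕ) (n : ℕ) (W : ℕ × ℕ → ℝ) :
    0 ≤ EL p L k a n W := by
  unfold EL
  exact Finset.sum_nonneg fun b _ => Finset.sum_nonneg fun b' _ =>
    Real.rpow_nonneg (abs_nonneg _) _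

private theorem pa_poinR_EL_mono (p : ℝ) {L L' : ℕ} (h : L ≤ L') (k : ℕ) (a : ℕ × ℕ) (n : ℕ)
    (W : ℕ × ℕ → ℝ) : EL p L k a n W ≤ EL p L' k a n W := by
  classical
  unfold EL
  apply Finset.sum_le_sum_of_subset_of_nonneg
  · intro b hb
    simp only [Finset.mem_filter] at hb ⊢
    obtain ⟨h1, h2, h3, h4⟩ := hb.2
    exact ⟨hb.1, by omega, by omega, by omega, by omega⟩
  · intro b _ _
    exact Finset.sum_nonneg fun b' _ => Real.rpow_nonneg (abs_nonneg _) _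

private theorem pa_poinR_ball {X : Type} [MetricSpace X] [MeasurableSpace X] {μ : Measure X}
    {p C : ℝ} (hp : 0 ≤ p) (hC : 0 ≤ C) (hAR : AR μ p C)
    (hb : Bornology.IsBounded (Set.univ : Set X)) (hd : 0 < Metric.diam (Set.univ : Set X))
    (x : X) {r : ℝ} (hr : 0 < r) : μ (Metric.ball x r) ≤ ENNReal.ofReal (C * r ^ p) := by
  rcases le_or_gt r (Metric.diam (Set.univ : Set X)) with h | h
  · exact (measure_mono Metric.ball_subset_closedBall).trans (hAR x r hr h).2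
  · refine (measure_mono ?_).trans ((hAR x _ hd le_rfl).2.trans ?_)
    · intro y _
      exact Metric.mem_closedBall.mpr
        (Metric.dist_le_diam_of_mem hb (Set.mem_univ _) (Set.mem_univ _))
    · apply ENNReal.ofReal_le_ofReal
      exact mul_le_mul_of_nonneg_left (Real.rpow_le_rpow hd.le h.le hp) hC

/-- the computation with the constants -/
private theorem pa_poinR_calc {p C C' K₁ K' M ρ E m : ℝ} (hp : 1 ≤ p) (hC : 0 ≤ C) (hC' : 0 ≤ C')
    (hK₁ : 1 ≤ K₁) (hK' : 0 ≤ K') (hM : 0 ≤ M) (hρ : 0 < ρ) (hE : 0 ≤ E)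
    (hm : K₁⁻¹ * ρ ^ p ≤ m) {A B D F : ℝ≥0∞}
    (hPI : B⁻¹ * A ≤ ENNReal.ofReal (C' * (2 * M * ρ)) * (D⁻¹ * F) ^ (1 / p))
    (hB0 : B ≠ 0) (hBt : B ≠ ⊤) (hB : B ≤ ENNReal.ofReal (C * (2 * M * ρ) ^ p))
    (hD : ENNReal.ofReal (K₁⁻¹ * ρ ^ p) ≤ D) (hF : F ≤ ENNReal.ofReal (K' * E)) :
    A.toReal ≤ C * (2 * M) ^ p * (C' * (2 * M)) * (K₁ * K') ^ (1 / p) * K₁ * m * E ^ (1 / p) := by
  have hK₁0 : (0 : ℝ) < K₁ := by linarith
  have hp0 : (0 : ℝ) < p := by linarith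
  have hρp : (0 : ℝ) < ρ ^ p := Real.rpow_pos_of_pos hρ p
  have h1 : A ≤ B * (ENNReal.ofReal (C' * (2 * M * ρ)) * (D⁻¹ * F) ^ (1 / p)) := by
    calc A = B * (B⁻¹ * A) := by
          rw [← mul_assoc, ENNReal.mul_inv_cancel hB0 hBt, one_mul]
      _ ≤ _ := by gcongr
  have h2 : D⁻¹ * F ≤ ENNReal.ofReal (K₁ * K' * E / ρ ^ p) := by
    have h3 : D⁻¹ ≤ ENNReal.ofReal (K₁ * (ρ ^ p)⁻¹) := by
      have h4 : (ENNReal.ofReal (K₁⁻¹ * ρ ^ p))⁻¹ = ENNReal.ofReal (K₁ * (ρ ^ p)⁻¹) := by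
        rw [← ENNReal.ofReal_inv_of_pos (by positivity), mul_inv, inv_inv]
      rw [← h4]
      exact ENNReal.inv_le_inv.mpr hD
    calc D⁻¹ * F ≤ ENNReal.ofReal (K₁ * (ρ ^ p)⁻¹) * ENNReal.ofReal (K' * E) := by gcongr
      _ = ENNReal.ofReal (K₁ * K' * E / ρ ^ p) := by
          rw [← ENNReal.ofReal_mul (by positivity)]
          congr 1
          field_simp
  have h5 : (D⁻¹ * F) ^ (1 / p) ≤ ENNReal.ofReal ((K₁ * K') ^ (1 / p) * E ^ (1 / p) / ρ) := by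
    calc (D⁻¹ * F) ^ (1 / p) ≤ (ENNReal.ofReal (K₁ * K' * E / ρ ^ p)) ^ (1 / p) :=
          ENNReal.rpow_le_rpow h2 (by positivity)
      _ = ENNReal.ofReal ((K₁ * K' * E / ρ ^ p) ^ (1 / p)) :=
          ENNReal.ofReal_rpow_of_nonneg (by positivity) (by positivity)
      _ = ENNReal.ofReal ((K₁ * K') ^ (1 / p) * E ^ (1 / p) / ρ) := by
          congr 1
          rw [Real.div_rpow (by positivity) hρp.le, Real.mul_rpow (by positivity) hE,
            ← Real.rpow_mul hρ.le, mul_one_div_cancel hp0.ne', Real.rpow_one]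
  have h6 : A ≤ ENNReal.ofReal (C * (2 * M * ρ) ^ p * ((C' * (2 * M * ρ)) *
      ((K₁ * K') ^ (1 / p) * E ^ (1 / p) / ρ))) := by
    calc A ≤ _ := h1
      _ ≤ ENNReal.ofReal (C * (2 * M * ρ) ^ p) * (ENNReal.ofReal (C' * (2 * M * ρ)) *
          ENNReal.ofReal ((K₁ * K') ^ (1 / p) * E ^ (1 / p) / ρ)) := by gcongr
      _ = _ := by
          rw [← ENNReal.ofReal_mul (by positivity), ← ENNReal.ofReal_mul (by positivity)]
  have h7 : A.toReal ≤ C * (2 * M * ρ) ^ p * ((C' * (2 * M * ρ)) *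
      ((K₁ * K') ^ (1 / p) * E ^ (1 / p) / ρ)) :=
    ENNReal.toReal_le_of_le_ofReal (by positivity) h6
  refine h7.trans ?_
  have h8 : (2 * M * ρ) ^ p = (2 * M) ^ p * ρ ^ p := Real.mul_rpow (by positivity) hρ.le
  have h9 : ρ ^ p ≤ K₁ * m := by
    have := mul_le_mul_of_nonneg_left hm hK₁0.le
    rwa [← mul_assoc, mul_inv_cancel₀ hK₁0.ne', one_mul] at this
  rw [h8]
  have h10 : C * ((2 * M) ^ p * ρ ^ p) * (C' * (2 * M * ρ) *
      ((K₁ * K') ^ (1 / p) * E ^ (1 / p) / ρ)) =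
      (C * (2 * M) ^ p * (C' * (2 * M)) * (K₁ * K') ^ (1 / p) * E ^ (1 / p)) * ρ ^ p := by
    field_simp
  rw [h10]
  calc _ ≤ (C * (2 * M) ^ p * (C' * (2 * M)) * (K₁ * K') ^ (1 / p) * E ^ (1 / p)) * (K₁ * m) := by
        gcongr
    _ = _ := by ring

theorem p_poinR (hcov : S_cov) (hpsi : S_psi) (hlip : S_lip) (hgp : S_gp) (hint : S_int)
    (hlhs : S_lhs) (hmr : S_mr) (hgeo : S_geo) (htop : S_top) : S_poinR := by
  intro X _ _ _ f H μ p C C' L' R hp hC hMet hAR hC' hL' hPI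
  have hp0 : (0 : ℝ) < p := by linarith
  have hH := hMet.one_le
  obtain ⟨K₀, M, hK₀, hM, hsum⟩ := hlhs X f H μ p C R hp hC hMet hAR
  have hK40 : (0 : ℝ) ≤ 40 * H ^ 2 := by positivity
  obtain ⟨K', L₁, hK', hE⟩ := hint X f H μ p C (40 * H ^ 2) (L' * (2 * M)) hp0 hC hK40 hMet hAR
  obtain ⟨hfin, K₁, hK₁, hm⟩ := hmr X f H μ p C hp0 hC hMet hAR
  obtain ⟨hgm, _⟩ := hgp X f H μ p C (40 * H ^ 2) hp0 hC hK40 hMet hAR
  have hcs : CompactSpace X := by
    have h1 : CompactSpace carpet := isCompact_iff_compactSpace.mp htop.1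
    exact f.surjective.compactSpace hMet.cont
  refine ⟨K₀ + C * (2 * M) ^ p * (C' * (2 * M)) * (K₁ * K') ^ (1 / p) * K₁, max R L₁,
    le_max_left _ _, by positivity, fun k a ha n W => ?_⟩
  set u : X → ℝ := ext f H (k + n) W with hu
  set g : X → ℝ≥0∞ := gr f H (40 * H ^ 2) (k + n) W with hg
  set ρ : ℝ := rad f k a with hρd
  have hρ : 0 < ρ := hMet.pos k a ha
  have hr : 0 < 2 * M * ρ := by positivity
  obtain ⟨hps1, hps2, _, _, _, _, _, hps8⟩ := hpsi X f H hMet (k + n)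
  obtain ⟨hl1, hl2, _⟩ := hlip X f H hMet (k + n) W
  have hUG : UG u g := by
    refine hcov X (I (k + n)) (fun a => Vn f H (k + n) a)
      (fun a => 40 * H ^ 2 * osc (k + n) W a / rad f (k + n) a) u (fun i hi => hps2 i hi) ?_ ?_ ?_
    · intro ξ
      obtain ⟨b, hb, hξ⟩ := hps8 ξ
      exact ⟨b, hb, hps1 b hb ξ hξ⟩
    · intro i hi
      have h1 := hMet.pos (k + n) i hi
      have h2 : 0 ≤ osc (k + n) W i := Finset.sum_nonneg fun b _ => abs_nonneg _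
      positivity
    · intro i hi ξ hξ ζ hζ
      exact hl2 i hi ξ hξ ζ hζ
  have hint' : Integrable u μ := by
    have h1 : Continuous u := hl1
    exact h1.integrable_of_hasCompactSupport (HasCompactSupport.of_compactSpace u)
  have hbX := hMet.bdd
  have hrle : ρ ≤ Metric.diam (Set.univ : Set X) :=
    Metric.diam_mono (Set.subset_univ _) hbX
  have hcl : f '' Cl k a ⊆ Metric.ball (f (mid k a)) (2 * M * ρ) := by
    rintro _ ⟨y, hy, rfl⟩
    rw [Metric.mem_ball]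
    have h1 : dist (f y) (f (mid k a)) ≤ ρ :=
      Metric.dist_le_diam_of_mem (hbX.subset (Set.subset_univ _)) (Set.mem_image_of_mem _ hy)
        (Set.mem_image_of_mem _ (hgeo.2.2.2.2.1 k a ha))
    nlinarith
  have hop : f '' Op k a ⊆ f '' Cl k a := Set.image_mono (hgeo.2.2.2.2.2.2.2.1 k a)
  have hmlow : ENNReal.ofReal (K₁⁻¹ * ρ ^ p) ≤ μ (f '' Cl k a) :=
    ((hm k a ha).1).trans (measure_mono hop)
  have hBall : ∀ s : ℝ, 2 * M * ρ ≤ s →
      ENNReal.ofReal (K₁⁻¹ * ρ ^ p) ≤ μ (Metric.ball (f (mid k a)) s) := fun s hs =>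
    hmlow.trans (measure_mono (hcl.trans (Metric.ball_subset_ball hs)))
  have hpos : (0 : ℝ) < K₁⁻¹ * ρ ^ p := by
    have : (0 : ℝ) < ρ ^ p := Real.rpow_pos_of_pos hρ p
    positivity
  have hmreal : K₁⁻¹ * ρ ^ p ≤ (μ (f '' Cl k a)).toReal := by
    rw [← ENNReal.ofReal_le_iff_le_toReal (measure_ne_top μ _)]
    exact hmlow
  have hPIu := hPI u hint' g (hgm (k + n) W) hUG (f (mid k a)) (2 * M * ρ) hr
  have hEL : 0 ≤ EL p L₁ k a n W := pa_poinR_EL_nonneg p L₁ k a n W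
  have hF : ∫⁻ y in Metric.ball (f (mid k a)) (L' * (2 * M * ρ)), g y ^ p ∂μ ≤
      ENNReal.ofReal (K' * EL p L₁ k a n W) := by
    have h1 := hE k a ha n W
    rw [show L' * (2 * M) * rad f k a = L' * (2 * M * ρ) by rw [hρd]; ring] at h1
    exact h1
  have hA := pa_poinR_calc (m := (μ (f '' Cl k a)).toReal) hp (by linarith) hC'.le hK₁ hK'
    (by linarith) hρ hEL hmreal hPIu
    (ne_of_gt ((ENNReal.ofReal_pos.mpr hpos).trans_le (hBall _ le_rfl)))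
    (measure_ne_top μ _)
    (pa_poinR_ball hp0.le (by linarith) hAR hbX (hρ.trans_le hrle) _ hr)
    (hBall _ (by nlinarith)) hF
  refine ⟨⨍ z in Metric.ball (f (mid k a)) (2 * M * ρ), u z ∂μ, ?_⟩
  refine (hsum k a ha n (max R L₁) W _ (le_max_left _ _)).trans ?_
  have hmono : EL p L₁ k a n W ^ (1 / p) ≤ EL p (max R L₁) k a n W ^ (1 / p) :=
    Real.rpow_le_rpow hEL (pa_poinR_EL_mono p (le_max_right _ _) k a n W) (by positivity)
  have hm0 : 0 ≤ (μ (f '' Cl k a)).toReal := ENNReal.toReal_nonneg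
  have hA2 : (∫⁻ ξ in Metric.ball (f (mid k a)) (2 * M * ρ),
      ENNReal.ofReal |u ξ - ⨍ z in Metric.ball (f (mid k a)) (2 * M * ρ), u z ∂μ| ∂μ).toReal ≤
      C * (2 * M) ^ p * (C' * (2 * M)) * (K₁ * K') ^ (1 / p) * K₁ *
        (μ (f '' Cl k a)).toReal * EL p (max R L₁) k a n W ^ (1 / p) :=
    hA.trans (by gcongr)
  calc _ ≤ K₀ * (μ (f '' Cl k a)).toReal * EL p (max R L₁) k a n W ^ (1 / p) +
        C * (2 * M) ^ p * (C' * (2 * M)) * (K₁ * K') ^ (1 / p) * K₁ *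
        (μ (f '' Cl k a)).toReal * EL p (max R L₁) k a n W ^ (1 / p) := by
        exact add_le_add le_rfl hA2
    _ = _ := by ring

end Pool.Agent.Lib.MP_1d263a_an.PA
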