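import Mathlib
import Pool.Agent.Lib.MP_1d263a_an.PA.Stm

/-!
# Piece psi: the bump functions (helper8)
-/

set_option autoImplicit false

namespace Pool.Agent.Lib.MP_1d263a_an.PA

open MeasureTheory

theorem pa_psi_cover (hmem : S_mem) {X : Type} [MetricSpace X] (f : carpet ≃ X) (n : ℕ) (ξ : X) :
    ∃ a ∈ I n, ξ ∈ f '' Cl n a := by
  have h0 : ((0, 0) : ℕ × ℕ) ∈ I 0 := by
    rw [mem_I]
    exact alive_zero
  have hq : f.symm ξ ∈ Cl 0 (0, 0) := by
    have h := (f.symm ξ).2
    refine ⟨?_, ?_, ?_, ?_⟩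
    · simpa using h.1.1
    · simpa using h.1.2
    · simpa using h.2.1.1
    · simpa using h.2.1.2
  obtain ⟨b, hb, hb'⟩ := hmem 0 (0, 0) h0 (f.symm ξ) hq n
  have e : sb n (0, 0) b = b := by
    unfold sb
    simp
  rw [e, Nat.zero_add] at hb'
  exact ⟨b, hb, f.symm ξ, hb', f.apply_symm_apply ξ⟩

theorem p_psi (hgeo : S_geo) (_htop : S_top) (hmem : S_mem) : S_psi := by
  intro X _ f H M n
  have hH : 0 < H := lt_of_lt_of_le one_pos M.one_le
  have hne : ∀ a ∈ I n, (f '' Cl n a).Nonempty := fun a ha =>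
    ⟨_, mid n a, hgeo.2.2.2.2.1 n a ha, rfl⟩
  have hin : ∀ a ∈ I n, ∀ ξ ∈ f '' Cl n a, psi f H n a ξ = 1 := by
    intro a _ ξ hξ
    unfold psi
    rw [Metric.infDist_zero_of_mem hξ, mul_zero, sub_zero]
    exact max_eq_right zero_le_one
  have hnn : ∀ a ξ, 0 ≤ psi f H n a ξ := fun a ξ => le_max_left _ _
  refine ⟨?_, ?_, ?_, hin, ?_, ?_, ?_, fun ξ => pa_psi_cover hmem f n ξ⟩
  · rintro a ha _ ⟨x, hx, rfl⟩ b hb hab
    have hr := M.pos n b hb
    have h1 : rad f n b / H ≤ Metric.infDist (f x) (f '' Cl n b) := by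
      rw [Metric.le_infDist (hne b hb)]
      rintro _ ⟨y, hy, rfl⟩
      rw [div_le_iff₀ hH, mul_comm, dist_comm]
      exact M.sep n b hb a ha (fun h => hab h.symm) y hy x hx
    refine lt_of_lt_of_le ?_ h1
    exact div_lt_div_of_pos_left hr hH (by linarith)
  · intro a _
    have e : Vn f H n a = ⋂ b ∈ I n, {ξ | ¬ Tch a b → rad f n b / (4 * H) <
        Metric.infDist ξ (f '' Cl n b)} := by
      ext ξ
      simp only [Vn, Set.mem_ofPred_eq, Set.mem_iInter]
    rw [e]
    refine isOpen_biInter_finset fun b _ => ?_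
    by_cases hT : Tch a b
    · have : {ξ | ¬ Tch a b → rad f n b / (4 * H) < Metric.infDist ξ (f '' Cl n b)} =
          (Set.univ : Set X) := by
        ext ξ
        simp only [Set.mem_ofPred_eq, Set.mem_univ, iff_true]
        exact fun h => absurd hT h
      rw [this]
      exact isOpen_univ
    · have : {ξ | ¬ Tch a b → rad f n b / (4 * H) < Metric.infDist ξ (f '' Cl n b)} =
          {ξ : X | rad f n b / (4 * H) < Metric.infDist ξ (f '' Cl n b)} := by
        ext ξ
        simp only [Set.mem_ofPred_eq]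
        exact ⟨fun h => h hT, fun h _ => h⟩
      rw [this]
      exact isOpen_lt continuous_const (Metric.continuous_infDist_pt _)
  · intro a _ ξ hξ b hb hab
    have hr := M.pos n b hb
    have h1 := hξ b hb hab
    have h2 : 1 ≤ 4 * H / rad f n b * Metric.infDist ξ (f '' Cl n b) := by
      have h3 : rad f n b < Metric.infDist ξ (f '' Cl n b) * (4 * H) := by
        rwa [div_lt_iff₀ (by linarith)] at h1
      rw [div_mul_eq_mul_div, le_div_iff₀ hr]
      linarith
    unfold psi
    exact max_eq_left (by linarith)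
  · intro ξ
    obtain ⟨a, ha, hξ⟩ := pa_psi_cover hmem f n ξ
    rw [← hin a ha ξ hξ]
    exact Finset.single_le_sum (f := fun a => psi f H n a ξ) (fun b _ => hnn b ξ) ha
  · intro a ha ξ
    refine ⟨hnn a ξ, max_le zero_le_one ?_⟩
    have hr := M.pos n a ha
    have h1 : 0 ≤ 4 * H / rad f n a * Metric.infDist ξ (f '' Cl n a) :=
      mul_nonneg (div_nonneg (by linarith) hr.le) Metric.infDist_nonneg
    linarith
  · intro a ha ξ ζ
    have hr := M.pos n a ha
    have hc : 0 ≤ 4 * H / rad f n a := div_nonneg (by linarith) hr.le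
    have h1 : |Metric.infDist ξ (f '' Cl n a) - Metric.infDist ζ (f '' Cl n a)| ≤ dist ξ ζ := by
      have := (Metric.lipschitz_infDist_pt (f '' Cl n a)).dist_le_mul ξ ζ
      simpa [Real.dist_eq] using this
    unfold psi
    rw [max_comm 0, max_comm 0]
    refine (abs_max_sub_max_le_abs _ _ _).trans ?_
    have e : 1 - 4 * H / rad f n a * Metric.infDist ξ (f '' Cl n a) -
        (1 - 4 * H / rad f n a * Metric.infDist ζ (f '' Cl n a)) =
        -(4 * H / rad f n a * (Metric.infDist ξ (f '' Cl n a) -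
          Metric.infDist ζ (f '' Cl n a))) := by ring
    rw [e, abs_neg, abs_mul, abs_of_nonneg hc]
    exact mul_le_mul_of_nonneg_left h1 hc

end Pool.Agent.Lib.MP_1d263a_an.PA
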