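import Pool.Agent.Lib.MP_1d263a_an.PA.Stm

set_option autoImplicit false

namespace Pool.Agent.Lib.MP_1d263a_an.PA

open MeasureTheory CarpetPI
open scoped ENNReal

theorem pa_reg_aux {K : ℝ} (hK : 0 < K) {L : ℝ} {a c : ℕ} {x y : ℝ}
    (h1 : (a : ℝ) / K ≤ x) (h2 : y ≤ ((c : ℝ) + 1) / K)
    (h3 : |x - y| ≤ L / K) : (a : ℝ) ≤ c + (L + 1) := by
  have h5 := (abs_le.1 h3).2
  have h6 : (a : ℝ) / K ≤ (c + (L + 1)) / K := by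
    have : (c + (L + 1)) / K = ((c : ℝ) + 1) / K + L / K := by ring
    rw [this]; linarith
  rwa [div_le_div_iff_of_pos_right hK] at h6

theorem p_reg (hgeo : S_geo) (hmem : S_mem) (hanc : S_anc) : S_reg := by
  intro X _ f H hf M
  obtain ⟨L0, hL0⟩ := hf.loc M
  obtain ⟨-, -, -, -, g5, -, -, -, g9⟩ := hgeo
  refine ⟨L0 + 1, ?_⟩
  intro k a ha n ξ hξ
  obtain ⟨y, rfl⟩ := f.surjective ξ
  have h1 : dist (mid k a) y ≤ (L0 : ℝ) / 3 ^ k := hL0 k a ha (mid k a) (g5 k a ha) y hξ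
  have hm := g5 k a ha
  have h0 : ((0, 0) : ℕ × ℕ) ∈ I 0 := mem_I.2 alive_zero
  have hy0 : y ∈ Cl 0 ((0, 0) : ℕ × ℕ) := by
    obtain ⟨⟨q1, q2⟩, ⟨q3, q4⟩, -⟩ := y.2
    refine ⟨?_, ?_, ?_, ?_⟩ <;> simpa
  obtain ⟨b, hb, hyb⟩ := hmem 0 (0, 0) h0 y hy0 (k + n)
  have e1 : sb (k + n) ((0, 0) : ℕ × ℕ) b = b := by
    simp [sb]
  rw [e1, zero_add] at hyb
  obtain ⟨c1, c2, c3⟩ := hanc.2.1 k n b hb
  have hyc : y ∈ Cl k (anc n b) := by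
    refine g9 k n (anc n b) (b.1 % 3 ^ n, b.2 % 3 ^ n) (Nat.mod_lt _ (by positivity))
      (Nat.mod_lt _ (by positivity)) ?_
    rw [c3]
    exact hyb
  refine ⟨b, hb, ?_, ⟨y, hyb, rfl⟩⟩
  have hK : (0 : ℝ) < 3 ^ k := by positivity
  rw [Subtype.dist_eq, Prod.dist_eq, max_le_iff, Real.dist_eq, Real.dist_eq] at h1
  obtain ⟨d1, d2⟩ := h1
  have d1' := d1
  have d2' := d2
  rw [abs_sub_comm] at d1' d2'
  obtain ⟨m1, m2, m3, m4⟩ := hm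
  obtain ⟨y1, y2, y3, y4⟩ := hyc
  refine ⟨?_, ?_, ?_, ?_⟩
  · exact_mod_cast pa_reg_aux hK m1 y2 d1
  · exact_mod_cast pa_reg_aux hK y1 m2 d1'
  · exact_mod_cast pa_reg_aux hK m3 y4 d2
  · exact_mod_cast pa_reg_aux hK y3 m4 d2'

end Pool.Agent.Lib.MP_1d263a_an.PA
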