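import Pool.Agent.Lib.MP_1d263a_an.PA.Stm

/-!
# Carpet project, part A, piece stop: stopping cells
-/

set_option autoImplicit false

namespace Pool.Agent.Lib.MP_1d263a_an.PA

open CarpetPI

private theorem pa_stop_ediv_ediv (a : ℤ) (s k : ℕ) : a / 3 ^ s / 3 ^ k = a / 3 ^ (s + k) := by
  rw [Int.ediv_ediv_of_nonneg (by positivity), pow_add]

/-- the ancestors of a kept face are kept -/
private theorem pa_stop_kept {N s : ℕ} (hs : s ≤ N) {b : Pt} (hb : b ∈ Kept N) :
    ((b.1 / 3 ^ s, b.2 / 3 ^ s) : Pt) ∈ Kept (N - s) := by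
  obtain ⟨h1, h2, h3, h4, h5⟩ := hb
  have hN : (3 : ℤ) ^ N = 3 ^ (N - s) * 3 ^ s := by rw [← pow_add, Nat.sub_add_cancel hs]
  have hpos : (0 : ℤ) < 3 ^ s := by positivity
  refine ⟨Int.ediv_nonneg h1 hpos.le, ?_, Int.ediv_nonneg h3 hpos.le, ?_, ?_⟩
  · rw [Int.ediv_lt_iff_lt_mul hpos, ← hN]; exact h2
  · rw [Int.ediv_lt_iff_lt_mul hpos, ← hN]; exact h4
  · intro k hk
    have := h5 (s + k) (by omega)
    dsimp only
    rw [pa_stop_ediv_ediv, pa_stop_ediv_ediv]
    exact this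

/-- an ancestor is a child of the next ancestor -/
private theorem pa_stop_kid {N s : ℕ} (hs : s + 1 ≤ N) {b : Pt} (hb : b ∈ Kept N) :
    ∃ c' ∈ kids, kid ((b.1 / 3 ^ (s + 1), b.2 / 3 ^ (s + 1)) : Pt) c' =
      (b.1 / 3 ^ s, b.2 / 3 ^ s) := by
  obtain ⟨h1, h2, h3, h4, h5⟩ := hb
  refine ⟨(b.1 / 3 ^ s % 3, b.2 / 3 ^ s % 3), ?_, ?_⟩
  · unfold kids box
    rw [Finset.mem_erase]
    refine ⟨?_, ?_⟩
    · intro h
      rw [Prod.mk.injEq] at h
      exact h5 s (by omega) h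
    · rw [Finset.mem_product, Finset.mem_Ico, Finset.mem_Ico]
      dsimp only
      omega
  · unfold kid
    dsimp only
    have e : ∀ a : ℤ, a / 3 ^ (s + 1) = a / 3 ^ s / 3 := by
      intro a
      rw [← pa_stop_ediv_ediv a s 1, pow_one]
    rw [e, e]
    have h6 := Int.mul_ediv_add_emod (b.1 / 3 ^ s) 3
    have h7 := Int.mul_ediv_add_emod (b.2 / 3 ^ s) 3
    rw [h6, h7]

/-- a corner of a face lies in the closed ancestors -/
private theorem pa_stop_cell (s : ℕ) {b x : Pt} (hx : IsCor x b) :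
    x ∈ cellV s ((b.1 / 3 ^ s, b.2 / 3 ^ s) : Pt) := by
  obtain ⟨h1, h2⟩ := hx
  have hpos : (0 : ℤ) < 3 ^ s := by positivity
  have e : ∀ a y : ℤ, (y = a ∨ y = a + 1) →
      a / 3 ^ s * 3 ^ s ≤ y ∧ y ≤ (a / 3 ^ s + 1) * 3 ^ s := by
    intro a y hy
    have h3 := Int.ediv_mul_le a hpos.ne'
    have h4 := Int.lt_ediv_add_one_mul_self a hpos
    omega
  have h5 := e b.1 x.1 h1
  have h6 := e b.2 x.2 h2
  exact ⟨h5.1, h5.2, h6.1, h6.2⟩

private theorem pa_stop_near (t : ℕ) {a q x y : Pt} (hx : x ∈ cellV t a) (hy : y ∈ cellV t q)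
    (hxy : dis x y ≤ 3 ^ t) : dis a q ≤ 2 := by
  have hpos : (0 : ℤ) < 3 ^ t := by positivity
  obtain ⟨a1, a2, a3, a4⟩ := hx
  obtain ⟨b1, b2, b3, b4⟩ := hy
  unfold dis at hxy ⊢
  rw [max_le_iff, abs_le, abs_le] at hxy
  rw [max_le_iff, abs_le, abs_le]
  obtain ⟨⟨c1, c2⟩, c3, c4⟩ := hxy
  have key : ∀ u v : ℤ, u * 3 ^ t ≤ (v + 2) * 3 ^ t → u - v ≤ 2 := by
    intro u v h
    have := le_of_mul_le_mul_right h hpos
    omega
  have k1 := key a.1 q.1 (by linarith)
  have k2 := key q.1 a.1 (by linarith)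
  have k3 := key a.2 q.2 (by linarith)
  have k4 := key q.2 a.2 (by linarith)
  refine ⟨⟨?_, ?_⟩, ?_, ?_⟩ <;> omega

private theorem pa_stop_En_nonneg (p : ℝ) (K : Set Pt) (u : Pt → ℝ) (G : Finset Pt) :
    0 ≤ En p K u G :=
  Finset.sum_nonneg fun _ _ => Finset.sum_nonneg fun _ _ => Real.rpow_nonneg (abs_nonneg _) _

/-- [CARPET PA stop] stopping cells -/
theorem p_stop (_h1 : S_kept) (_h2 : S_anc) : S_stop := by
  intro p C κ hp hC
  have hp0 : 0 < p := by linarith
  set ρ : ℝ := (3 : ℝ) ^ (-(1 / p)) with hρ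
  have hρ0 : 0 < ρ := Real.rpow_pos_of_pos (by norm_num) _
  have hρ1 : ρ < 1 := by
    refine Real.rpow_lt_one_of_one_lt_of_neg (by norm_num) ?_
    have : 0 < 1 / p := by positivity
    linarith
  have hρp : ρ ^ p = 1 / 3 := by
    rw [hρ, ← Real.rpow_mul (by norm_num)]
    have : -(1 / p) * p = -1 := by field_simp
    rw [this, Real.rpow_neg_one]
    norm_num
  set B : ℝ := 2 * C / (1 - ρ) + 1 with hB
  have h1ρ : 0 < 1 - ρ := by linarith
  have hB1 : 1 ≤ B := by
    have : 0 ≤ 2 * C / (1 - ρ) := by positivity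
    linarith
  have hB0 : 0 < B := by linarith
  refine ⟨B ^ p, Real.one_le_rpow hB1 hp0.le, ?_⟩
  intro N F c hch t ht q hq D hD x hx hDx hy
  obtain ⟨y, hy, hxy⟩ := hy
  obtain ⟨b, hb, hbx⟩ := hx
  obtain ⟨ch1, ch2, ch3⟩ := hch
  set a : ℕ → Pt := fun s => (b.1 / 3 ^ s, b.2 / 3 ^ s) with ha
  have haK : ∀ s, s ≤ N → a s ∈ Kept (N - s) := fun s hs => pa_stop_kept hs hb
  have hax : ∀ s, x ∈ cellV s (a s) := fun s => pa_stop_cell s hbx
  have ha0 : a 0 = b := by
    rw [ha]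
    simp
  by_contra hcon
  push Not at hcon
  have hfail : ∀ s, s ≤ t → B ^ p * 3 ^ t * En p (Kept N) F (nb κ s (a s)) < D ^ p * 3 ^ s :=
    fun s hs => hcon s hs (a s) (haK s (hs.trans ht)) (hax s)
  set e : ℕ → ℝ := fun s => En p (Kept N) F (nb κ s (a s)) ^ (1 / p) with he
  have hApos : 0 < B ^ p := Real.rpow_pos_of_pos hB0 _
  have hDpos : 0 < D := by
    rcases hD.lt_or_eq with h | h
    · exact h
    · exfalso
      have h3 := hfail t le_rfl
      rw [← h, Real.zero_rpow hp0.ne', zero_mul] at h3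
      have h4 := pa_stop_En_nonneg p (Kept N) F (nb κ t (a t))
      have h5 : 0 ≤ B ^ p * 3 ^ t * En p (Kept N) F (nb κ t (a t)) := by positivity
      linarith
  -- the bound for the terms
  have hes : ∀ s, s ≤ t → e s ≤ D / B * ρ ^ (t - s) := by
    intro s hs
    have h3 := hfail s hs
    have h4 := pa_stop_En_nonneg p (Kept N) F (nb κ s (a s))
    have h5 : 0 ≤ D / B * ρ ^ (t - s) := by positivity
    have h6 : (D / B * ρ ^ (t - s)) ^ p = D ^ p / B ^ p * (1 / 3) ^ (t - s) := by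
      rw [Real.mul_rpow (by positivity) (by positivity), Real.div_rpow hD hB0.le,
        ← Real.rpow_pow_comm hρ0.le, hρp]
    have h7 : En p (Kept N) F (nb κ s (a s)) ≤ (D / B * ρ ^ (t - s)) ^ p := by
      rw [h6]
      have h8 : (3 : ℝ) ^ t = 3 ^ (t - s) * 3 ^ s := by rw [← pow_add, Nat.sub_add_cancel hs]
      have h9 : (3 : ℝ) ^ (t - s) ≠ 0 := by positivity
      have h10 : B ^ p * (3 ^ (t - s) * En p (Kept N) F (nb κ s (a s))) < D ^ p := by
        have h11 : (0 : ℝ) < 3 ^ s := by positivity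
        refine lt_of_mul_lt_mul_right ?_ h11.le
        rw [h8] at h3
        calc B ^ p * (3 ^ (t - s) * En p (Kept N) F (nb κ s (a s))) * 3 ^ s
            = B ^ p * (3 ^ (t - s) * 3 ^ s) * En p (Kept N) F (nb κ s (a s)) := by ring
          _ < _ := h3
      rw [one_div, inv_pow, div_mul_eq_mul_div, le_div_iff₀ hApos, ← div_eq_mul_inv,
        le_div_iff₀ (by positivity)]
      calc En p (Kept N) F (nb κ s (a s)) * B ^ p * 3 ^ (t - s)
          = B ^ p * (3 ^ (t - s) * En p (Kept N) F (nb κ s (a s))) := by ring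
        _ ≤ _ := h10.le
    calc e s ≤ ((D / B * ρ ^ (t - s)) ^ p) ^ (1 / p) :=
          Real.rpow_le_rpow h4 h7 (by positivity)
      _ = D / B * ρ ^ (t - s) := by
          rw [← Real.rpow_mul h5, mul_one_div_cancel hp0.ne', Real.rpow_one]
  have he0 : ∀ s, 0 ≤ e s := fun s => Real.rpow_nonneg (pa_stop_En_nonneg _ _ _ _) _
  -- the chain
  have hchain : ∀ s, s ≤ t → |F x - c s (a s)| ≤ C * ∑ j ∈ Finset.range (s + 1), e j := by
    intro s
    induction s with
    | zero =>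
      intro _
      rw [Finset.sum_range_one, ha0]
      have := ch3 b hb x hbx
      rw [he]
      dsimp only
      rw [ha0]
      exact this
    | succ s ih =>
      intro hs
      have h3 := ih (by omega)
      obtain ⟨c', hc', hkid⟩ := pa_stop_kid (s := s) (N := N) (by omega) hb
      have h4 := ch1 s (by omega) (a (s + 1)) (haK (s + 1) (by omega)) c' hc'
      have h5 : kid (a (s + 1)) c' = a s := hkid
      rw [h5] at h4
      rw [Finset.sum_range_succ, mul_add]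
      have h6 : |F x - c (s + 1) (a (s + 1))| ≤
          |F x - c s (a s)| + |c (s + 1) (a (s + 1)) - c s (a s)| := by
        rw [abs_sub_comm (c (s + 1) (a (s + 1)))]
        exact abs_sub_le _ _ _
      exact h6.trans (add_le_add h3 h4)
  have h3 := hchain t le_rfl
  have h4 := ch2 t ht (a t) (haK t ht) q hq (pa_stop_near t (hax t) hy hxy)
  have h5 : |F x - c t q| ≤ |F x - c t (a t)| + |c t (a t) - c t q| := abs_sub_le _ _ _
  have h6 : e t ≤ ∑ j ∈ Finset.range (t + 1), e j :=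
    Finset.single_le_sum (f := e) (fun j _ => he0 j) (Finset.mem_range.2 (by omega))
  have h7 : ∑ j ∈ Finset.range (t + 1), e j ≤ D / B * (1 / (1 - ρ)) := by
    have h8 : ∑ j ∈ Finset.range (t + 1), e j ≤
        ∑ j ∈ Finset.range (t + 1), D / B * ρ ^ (t - j) :=
      Finset.sum_le_sum fun j hj => hes j (by rw [Finset.mem_range] at hj; omega)
    have h9 : ∑ j ∈ Finset.range (t + 1), D / B * ρ ^ (t - j) =
        ∑ j ∈ Finset.range (t + 1), D / B * ρ ^ j :=
      Finset.sum_flip (fun j => D / B * ρ ^ j)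
    have h10 : ∑ j ∈ Finset.range (t + 1), ρ ^ j ≤ 1 / (1 - ρ) := by
      rw [le_div_iff₀ h1ρ, geom_sum_mul_neg]
      have : 0 < ρ ^ (t + 1) := by positivity
      linarith
    rw [h9, ← Finset.mul_sum] at h8
    exact h8.trans (mul_le_mul_of_nonneg_left h10 (by positivity))
  have h8 : D ≤ 2 * C * (D / B * (1 / (1 - ρ))) := by
    have h9 : C * e t ≤ C * ∑ j ∈ Finset.range (t + 1), e j := mul_le_mul_of_nonneg_left h6 hC
    have h10 : C * ∑ j ∈ Finset.range (t + 1), e j ≤ C * (D / B * (1 / (1 - ρ))) :=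
      mul_le_mul_of_nonneg_left h7 hC
    linarith
  have h9 : 2 * C * (D / B * (1 / (1 - ρ))) = D * (B - 1) / B := by
    rw [hB]
    field_simp
    ring
  rw [h9, le_div_iff₀ hB0] at h8
  nlinarith

end Pool.Agent.Lib.MP_1d263a_an.PA
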