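import Pool.Agent.Lib.MP_1d263a_an.PA.Stm

/-!
# Carpet project, part A, piece `top`: the carpet is compact, closed and open cells
-/

set_option autoImplicit false

namespace Pool.Agent.Lib.MP_1d263a_an.PA

theorem pa_top_closed : IsClosed carpet := by
  have h : carpet = (Set.Icc (0 : ℝ) 1 ×ˢ Set.Icc (0 : ℝ) 1) ∩
      ⋂ (n : ℕ), ⋂ (a : ℕ), ⋂ (b : ℕ),
        ((Set.Ioo ((3 * (a : ℝ) + 1) / 3 ^ (n + 1)) ((3 * (a : ℝ) + 2) / 3 ^ (n + 1))) ×ˢ
          (Set.Ioo ((3 * (b : ℝ) + 1) / 3 ^ (n + 1)) ((3 * (b : ℝ) + 2) / 3 ^ (n + 1))))ᶜ := by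
    ext q
    simp only [carpet, Set.mem_ofPred_eq, Set.mem_inter_iff, Set.mem_prod, Set.mem_iInter,
      Set.mem_compl_iff, Set.mem_Ioo, and_assoc]
  rw [h]
  refine (isClosed_Icc.prod isClosed_Icc).inter ?_
  refine isClosed_iInter fun n => isClosed_iInter fun a => isClosed_iInter fun b => ?_
  exact (isOpen_Ioo.prod isOpen_Ioo).isClosed_compl

theorem pa_top_compact : IsCompact carpet := by
  refine (isCompact_Icc.prod isCompact_Icc : IsCompact (Set.Icc (0 : ℝ) 1 ×ˢ Set.Icc (0 : ℝ) 1)).of_isClosed_subset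
    pa_top_closed ?_
  intro q hq
  exact ⟨hq.1, hq.2.1⟩

theorem p_top : S_top := by
  refine ⟨pa_top_compact, fun n a => ?_, fun n a => ?_⟩
  · have h1 : Continuous fun q : carpet => q.1.1 := continuous_fst.comp continuous_subtype_val
    have h2 : Continuous fun q : carpet => q.1.2 := continuous_snd.comp continuous_subtype_val
    exact (isClosed_le continuous_const h1).inter ((isClosed_le h1 continuous_const).inter
      ((isClosed_le continuous_const h2).inter (isClosed_le h2 continuous_const)))
  · have h1 : Continuous fun q : carpet => q.1.1 := continuous_fst.comp continuous_subtype_val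
    have h2 : Continuous fun q : carpet => q.1.2 := continuous_snd.comp continuous_subtype_val
    exact (isOpen_lt continuous_const h1).inter ((isOpen_lt h1 continuous_const).inter
      ((isOpen_lt continuous_const h2).inter (isOpen_lt h2 continuous_const)))

end Pool.Agent.Lib.MP_1d263a_an.PA
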