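import Pool.Agent.Lib.MP_1d263a_an.PA.Stm

/-!
# Carpet project, part A: covering of a connected lattice set
-/

set_option autoImplicit false

namespace Pool.Agent.Lib.MP_1d263a_an.PA

open MeasureTheory CarpetPI
open scoped ENNReal

/-- the sup distance to the square `[a, a + W] × [b, b + W]` -/
def pa_vit_dl (a b W : ℤ) (x : Pt) : ℤ :=
  max (max 0 (max (a - x.1) (x.1 - (a + W)))) (max (b - x.2) (x.2 - (b + W)))

lemma pa_vit_lip (a b W D : ℤ) (x y : Pt) (h1 : |x.1 - y.1| ≤ D) (h2 : |x.2 - y.2| ≤ D) :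
    pa_vit_dl a b W x ≤ pa_vit_dl a b W y + D := by
  have h3 := abs_le.1 h1
  have h4 := abs_le.1 h2
  unfold pa_vit_dl
  omega

lemma pa_vit_cell {t : ℕ} {q x : Pt} : x ∈ cellV t q ↔
    q.1 * 3 ^ t ≤ x.1 ∧ x.1 ≤ q.1 * 3 ^ t + 3 ^ t ∧ q.2 * 3 ^ t ≤ x.2 ∧
      x.2 ≤ q.2 * 3 ^ t + 3 ^ t := by
  have e1 : (q.1 + 1) * (3 : ℤ) ^ t = q.1 * 3 ^ t + 3 ^ t := by ring
  have e2 : (q.2 + 1) * (3 : ℤ) ^ t = q.2 * 3 ^ t + 3 ^ t := by ring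
  simp only [cellV, Set.mem_ofPred_eq, e1, e2]

lemma pa_vit_clamp (t : ℕ) (q x : Pt) : ∃ y ∈ cellV t q,
    dis x y ≤ pa_vit_dl (q.1 * 3 ^ t) (q.2 * 3 ^ t) (3 ^ t) x := by
  have hW : (0 : ℤ) < 3 ^ t := by positivity
  generalize hWe : (3 : ℤ) ^ t = W at *
  refine ⟨(max (q.1 * W) (min x.1 (q.1 * W + W)), max (q.2 * W) (min x.2 (q.2 * W + W))), ?_, ?_⟩
  · rw [pa_vit_cell, hWe]
    simp only
    generalize q.1 * W = a
    generalize q.2 * W = b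
    omega
  · unfold pa_vit_dl dis
    simp only
    generalize q.1 * W = a
    generalize q.2 * W = b
    refine max_le (abs_le.2 ⟨?_, ?_⟩) (abs_le.2 ⟨?_, ?_⟩) <;> omega

lemma pa_vit_zero (t : ℕ) (q x : Pt) (h : x ∈ cellV t q) :
    pa_vit_dl (q.1 * 3 ^ t) (q.2 * 3 ^ t) (3 ^ t) x = 0 := by
  rw [pa_vit_cell] at h
  unfold pa_vit_dl
  omega

lemma pa_vit_adj {K : Set Pt} {x y : Pt} (h : adj K x y) : |y.1 - x.1| ≤ 1 ∧ |y.2 - x.2| ≤ 1 := by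
  obtain ⟨⟨e, z⟩, -, h⟩ := h
  have h1 : |(hd (e, z)).1 - (tl (e, z)).1| ≤ 1 ∧ |(hd (e, z)).2 - (tl (e, z)).2| ≤ 1 := by
    cases e <;> simp [hd, tl]
  rcases h with ⟨rfl, rfl⟩ | ⟨rfl, rfl⟩
  · exact h1
  · rw [abs_sub_comm, abs_sub_comm (tl (e, z)).2]
    exact h1

/-- intermediate values along a path -/
lemma pa_vit_ivt {K A : Set Pt} (δ : Pt → ℤ)
    (hδ : ∀ x y, |x.1 - y.1| ≤ 1 → |x.2 - y.2| ≤ 1 → δ x ≤ δ y + 1) {x y : Pt} (hx : x ∈ A)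
    (h : Relation.ReflTransGen (fun a b => adj K a b ∧ a ∈ A ∧ b ∈ A) x y) :
    ∀ j : ℤ, δ x ≤ j → j ≤ δ y → ∃ z ∈ A, δ z = j := by
  induction h with
  | refl => exact fun j h1 h2 => ⟨x, hx, by omega⟩
  | @tail b c _ h3 ih =>
    intro j h1 h2
    rcases le_or_gt j (δ b) with h4 | h4
    · exact ih j h1 h4
    · obtain ⟨h5, h6⟩ := pa_vit_adj h3.1
      have h7 := hδ c b h5 h6
      exact ⟨c, h3.2.2, by omega⟩

lemma pa_vit_nb {κ s : ℕ} {Q f : Pt} : f ∈ nb κ s Q ↔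
    (Q.1 * 3 ^ s - κ * 3 ^ s ≤ f.1 ∧ f.1 < Q.1 * 3 ^ s + κ * 3 ^ s + 3 ^ s) ∧
      Q.2 * 3 ^ s - κ * 3 ^ s ≤ f.2 ∧ f.2 < Q.2 * 3 ^ s + κ * 3 ^ s + 3 ^ s := by
  simp only [nb, box, Finset.mem_product, Finset.mem_Ico]
  have e1 : (Q.1 - (κ : ℤ)) * 3 ^ s = Q.1 * 3 ^ s - κ * 3 ^ s := by ring
  have e2 : (Q.1 + (κ : ℤ) + 1) * 3 ^ s = Q.1 * 3 ^ s + κ * 3 ^ s + 3 ^ s := by ring
  have e3 : (Q.2 - (κ : ℤ)) * 3 ^ s = Q.2 * 3 ^ s - κ * 3 ^ s := by ring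
  have e4 : (Q.2 + (κ : ℤ) + 1) * 3 ^ s = Q.2 * 3 ^ s + κ * 3 ^ s + 3 ^ s := by ring
  rw [e1, e2, e3, e4]

/-- a point of the closed cell `Q` and a face of `nb κ s Q` -/
lemma pa_vit_near {κ s : ℕ} {Q f x : Pt} (hf : f ∈ nb κ s Q) (hx : x ∈ cellV s Q) :
    |x.1 - f.1| ≤ (κ + 1) * 3 ^ s ∧ |x.2 - f.2| ≤ (κ + 1) * 3 ^ s := by
  rw [pa_vit_nb] at hf
  rw [pa_vit_cell] at hx
  have e : ((κ : ℤ) + 1) * 3 ^ s = κ * 3 ^ s + 3 ^ s := by ring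
  rw [e]
  constructor <;> rw [abs_le] <;> constructor <;> linarith [hf.1.1, hf.1.2, hf.2.1, hf.2.2, hx.1,
    hx.2.1, hx.2.2.1, hx.2.2.2]

theorem p_vit : S_vit := by
  classical
  intro κ N t q K₁ s Q hK hin hout hs
  obtain ⟨x0, hx0, hx0'⟩ := hin
  obtain ⟨x1, hx1, hx1'⟩ := hout
  set δ : Pt → ℤ := pa_vit_dl (q.1 * 3 ^ t) (q.2 * 3 ^ t) (3 ^ t) with hδ
  have hδ1 : ∀ D : ℤ, ∀ x y : Pt, |x.1 - y.1| ≤ D → |x.2 - y.2| ≤ D → δ x ≤ δ y + D :=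
    fun D x y h1 h2 => pa_vit_lip _ _ _ D x y h1 h2
  have h0 : δ x0 = 0 := pa_vit_zero t q x0 hx0'
  have h1 : 3 ^ t ≤ δ x1 := by
    obtain ⟨y, hy, hy'⟩ := pa_vit_clamp t q x1
    exact (hx1' y hy).trans hy'
  have hiv := pa_vit_ivt δ (hδ1 1) hx0 (hK.2 x0 hx0 x1 hx1)
  have hex : ∀ j : ℕ, ∃ z : Pt, j ≤ 3 ^ t → z ∈ K₁ ∧ δ z = j := by
    intro j
    by_cases hj : j ≤ 3 ^ t
    · obtain ⟨z, hz, hz'⟩ := hiv j (by omega) (le_trans (by exact_mod_cast hj) h1)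
      exact ⟨z, fun _ => ⟨hz, hz'⟩⟩
    · exact ⟨x0, fun h => absurd h hj⟩
  choose z hz using hex
  have hd : ∀ j : ℕ, j ≤ 3 ^ t → ∃ y ∈ cellV t q, dis (z j) y ≤ 3 ^ t := by
    intro j hj
    obtain ⟨y, hy, hy'⟩ := pa_vit_clamp t q (z j)
    refine ⟨y, hy, hy'.trans ?_⟩
    have h2 : δ (z j) = j := (hz j hj).2
    rw [hδ] at h2
    rw [h2]
    exact_mod_cast hj
  have hsz : ∀ j : ℕ, j ≤ 3 ^ t → s (z j) ≤ t ∧ z j ∈ cellV (s (z j)) (Q (z j)) :=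
    fun j hj => hs (z j) (hz j hj).1 (hd j hj)
  obtain ⟨u, hu, hdis, hcov⟩ := Vitali.exists_disjoint_subfamily_covering_enlargement
    (fun j : ℕ => (nb κ (s (z j)) (Q (z j)) : Set Pt)) {j : ℕ | j ≤ 3 ^ t}
    (fun j => (3 : ℝ) ^ s (z j)) (3 / 2) (by norm_num) (fun _ _ => by positivity) (3 ^ t)
    (fun j hj => pow_le_pow_right₀ (by norm_num) (hsz j hj).1) (fun j _ => by
      have h3 : (0 : ℤ) < 3 ^ s (z j) := by positivity
      have h4 : (0 : ℤ) ≤ κ * 3 ^ s (z j) := by positivity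
      refine ⟨((Q (z j)).1 * 3 ^ s (z j), (Q (z j)).2 * 3 ^ s (z j)), ?_⟩
      rw [Finset.mem_coe, pa_vit_nb]
      simp only
      exact ⟨⟨by linarith, by linarith⟩, by linarith, by linarith⟩)
  have hufin : u.Finite := (Set.finite_le_nat (3 ^ t)).subset hu
  set U : Finset ℕ := hufin.toFinset with hU
  have hUm : ∀ j, j ∈ U ↔ j ∈ u := fun j => hufin.mem_toFinset
  have hUt : ∀ j ∈ U, j ≤ 3 ^ t := fun j hj => hu ((hUm j).1 hj)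
  have hinj : ∀ i ∈ U, ∀ j ∈ U, z i = z j → i = j := by
    intro i hi j hj hij
    have h2 := (hz i (hUt i hi)).2
    have h3 := (hz j (hUt j hj)).2
    rw [hij] at h2
    exact_mod_cast h2.symm.trans h3
  -- the distance
  have hcov' : ∀ i : ℕ, i ≤ 3 ^ t → ∃ j ∈ U, i ∈ Finset.Icc (j - 2 * (κ + 1) * 3 ^ s (z j))
      (j + 2 * (κ + 1) * 3 ^ s (z j)) := by
    intro i hi
    obtain ⟨j, hj, ⟨f, hf1, hf2⟩, hle⟩ := hcov i hi
    have hjt : j ≤ 3 ^ t := hu hj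
    refine ⟨j, (hUm j).2 hj, ?_⟩
    have hsle : s (z i) ≤ s (z j) := by
      by_contra hlt
      push Not at hlt
      have h2 : (3 : ℝ) ^ (s (z j) + 1) ≤ 3 ^ s (z i) := pow_le_pow_right₀ (by norm_num) hlt
      have h3 : (0 : ℝ) < 3 ^ s (z j) := by positivity
      rw [pow_succ] at h2
      linarith
    have h2 := pa_vit_near (Finset.mem_coe.1 hf1) (hsz i hi).2
    have h3 := pa_vit_near (Finset.mem_coe.1 hf2) (hsz j hjt).2
    have h4 : ((κ : ℤ) + 1) * 3 ^ s (z i) ≤ (κ + 1) * 3 ^ s (z j) :=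
      mul_le_mul_of_nonneg_left (pow_le_pow_right₀ (by norm_num) hsle) (by positivity)
    have h5 : |(z i).1 - (z j).1| ≤ 2 * (κ + 1) * 3 ^ s (z j) := by
      have := abs_le.1 h2.1
      have := abs_le.1 h3.1
      rw [abs_le]
      constructor <;> linarith
    have h6 : |(z i).2 - (z j).2| ≤ 2 * (κ + 1) * 3 ^ s (z j) := by
      have := abs_le.1 h2.2
      have := abs_le.1 h3.2
      rw [abs_le]
      constructor <;> linarith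
    have h7 := hδ1 _ (z i) (z j) h5 h6
    rw [abs_sub_comm] at h5 h6
    have h8 := hδ1 _ (z j) (z i) h5 h6
    rw [(hz i hi).2, (hz j hjt).2] at h7 h8
    have h7' : i ≤ j + 2 * (κ + 1) * 3 ^ s (z j) := by exact_mod_cast h7
    have h8' : j ≤ i + 2 * (κ + 1) * 3 ^ s (z j) := by exact_mod_cast h8
    rw [Finset.mem_Icc]
    omega
  have hcard : 3 ^ t + 1 ≤ ∑ j ∈ U, (8 * κ + 9) * 3 ^ s (z j) := by
    calc 3 ^ t + 1 = (Finset.range (3 ^ t + 1)).card := (Finset.card_range _).symm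
      _ ≤ (U.biUnion fun j => Finset.Icc (j - 2 * (κ + 1) * 3 ^ s (z j))
          (j + 2 * (κ + 1) * 3 ^ s (z j))).card := by
          refine Finset.card_le_card fun i hi => ?_
          obtain ⟨j, hj, hij⟩ := hcov' i (by have := Finset.mem_range.1 hi; omega)
          exact Finset.mem_biUnion.2 ⟨j, hj, hij⟩
      _ ≤ ∑ j ∈ U, (Finset.Icc (j - 2 * (κ + 1) * 3 ^ s (z j))
          (j + 2 * (κ + 1) * 3 ^ s (z j))).card := Finset.card_biUnion_le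
      _ ≤ ∑ j ∈ U, (8 * κ + 9) * 3 ^ s (z j) := by
          refine Finset.sum_le_sum fun j _ => ?_
          rw [Nat.card_Icc]
          have h3 : 1 ≤ 3 ^ s (z j) := Nat.one_le_pow _ _ (by norm_num)
          have h4 : (8 * κ + 9) * 3 ^ s (z j) = 4 * (κ + 1) * 3 ^ s (z j) +
              (4 * κ * 3 ^ s (z j) + 5 * 3 ^ s (z j)) := by ring
          have h5 : 4 * (κ + 1) * 3 ^ s (z j) = 2 * (2 * (κ + 1) * 3 ^ s (z j)) := by ring
          rw [h4, h5]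
          generalize 2 * (κ + 1) * 3 ^ s (z j) = R
          generalize 4 * κ * 3 ^ s (z j) = R'
          omega
  refine ⟨U.image z, ?_, ?_, ?_, ?_⟩
  · intro x hx
    obtain ⟨j, hj, rfl⟩ := Finset.mem_image.1 hx
    exact ⟨(hz j (hUt j hj)).1, hd j (hUt j hj)⟩
  · intro x hx y hy hxy
    obtain ⟨i, hi, rfl⟩ := Finset.mem_image.1 hx
    obtain ⟨j, hj, rfl⟩ := Finset.mem_image.1 hy
    have h2 := hdis ((hUm i).1 hi) ((hUm j).1 hj) (fun h => hxy (by rw [h]))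
    exact Finset.disjoint_coe.1 h2
  · intro x hx
    obtain ⟨j, hj, rfl⟩ := Finset.mem_image.1 hx
    have hjt := hUt j hj
    obtain ⟨y, hy, hy'⟩ := hd j hjt
    rw [pa_vit_cell] at hy
    have h2 := (hsz j hjt).2
    rw [pa_vit_cell] at h2
    have h3 := abs_le.1 ((le_max_left _ _).trans hy')
    have h4 := abs_le.1 ((le_max_right _ _).trans hy')
    have h5 : (3 : ℤ) ^ s (z j) ≤ 3 ^ t := pow_le_pow_right₀ (by norm_num) (hsz j hjt).1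
    have h6 : (κ : ℤ) * 3 ^ s (z j) ≤ κ * 3 ^ t := mul_le_mul_of_nonneg_left h5 (by positivity)
    intro f hf
    rw [pa_vit_nb] at hf ⊢
    have e1 : ((κ + 3 : ℕ) : ℤ) * 3 ^ t = κ * 3 ^ t + 3 * 3 ^ t := by push_cast; ring
    rw [e1]
    exact ⟨⟨by linarith [hf.1.1, h2.1, h2.2.1, h3.1, h3.2, hy.1, hy.2.1],
      by linarith [hf.1.2, h2.1, h2.2.1, h3.1, h3.2, hy.1, hy.2.1]⟩,
      by linarith [hf.2.1, h2.2.2.1, h2.2.2.2, h4.1, h4.2, hy.2.2.1, hy.2.2.2],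
      by linarith [hf.2.2, h2.2.2.1, h2.2.2.2, h4.1, h4.2, hy.2.2.1, hy.2.2.2]⟩
  · rw [Finset.sum_image (fun i hi j hj h => hinj i hi j hj h), Finset.mul_sum]
    omega

end Pool.Agent.Lib.MP_1d263a_an.PA
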