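import Pool.Agent.Lib.MP_1d263a_an.PA.Stm

/-!
# Carpet project, part A, piece kept: the two descriptions of cells
-/

set_option autoImplicit false

namespace Pool.Agent.Lib.MP_1d263a_an.PA

open CarpetPI

theorem pa_kept_dig (x j : ℕ) : ((x : ℤ) / 3 ^ j % 3 = 1) ↔ (x / 3 ^ j % 3 = 1) := by
  have h : ((x : ℤ) / 3 ^ j % 3) = ((x / 3 ^ j % 3 : ℕ) : ℤ) := by push_cast; rfl
  rw [h]
  exact_mod_cast Iff.rfl

theorem pa_kept_lt (x N : ℕ) : ((x : ℤ) < 3 ^ N) ↔ x < 3 ^ N := by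
  exact_mod_cast Iff.rfl

theorem pa_kept_iff (N : ℕ) (a : ℕ × ℕ) : ip a ∈ Kept N ↔ a ∈ I N := by
  rw [mem_I]
  constructor
  · rintro ⟨-, h1, -, h2, h3⟩
    have h1' : a.1 < 3 ^ N := (pa_kept_lt a.1 N).1 h1
    have h2' : a.2 < 3 ^ N := (pa_kept_lt a.2 N).1 h2
    refine ⟨h1', h2', ?_⟩
    intro j hj
    by_cases hjN : j < N
    · exact h3 j hjN ⟨(pa_kept_dig a.1 j).2 hj.1, (pa_kept_dig a.2 j).2 hj.2⟩
    · have hz : a.1 / 3 ^ j = 0 :=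
        Nat.div_eq_of_lt (lt_of_lt_of_le h1' (Nat.pow_le_pow_right (by norm_num) (not_lt.1 hjN)))
      have := hj.1
      rw [hz] at this
      simp at this
  · rintro ⟨h1, h2, h3⟩
    refine ⟨Int.natCast_nonneg _, (pa_kept_lt a.1 N).2 h1, Int.natCast_nonneg _,
      (pa_kept_lt a.2 N).2 h2, ?_⟩
    intro k _ hk
    exact h3 k ⟨(pa_kept_dig a.1 k).1 hk.1, (pa_kept_dig a.2 k).1 hk.2⟩

theorem pa_kept_lift {q : Pt} (h1 : 0 ≤ q.1) (h2 : 0 ≤ q.2) : ip (q.1.toNat, q.2.toNat) = q := by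
  refine Prod.ext ?_ ?_
  · exact Int.toNat_of_nonneg h1
  · exact Int.toNat_of_nonneg h2

theorem pa_kept_1 (N : ℕ) (q : Pt) : q ∈ Kept N ↔ ∃ a ∈ I N, ip a = q := by
  constructor
  · intro h
    have e : ip (q.1.toNat, q.2.toNat) = q := pa_kept_lift h.1 h.2.2.1
    refine ⟨(q.1.toNat, q.2.toNat), ?_, e⟩
    rw [← pa_kept_iff, e]
    exact h
  · rintro ⟨a, ha, rfl⟩
    exact (pa_kept_iff N a).2 ha

theorem pa_kept_kids (q : Pt) : q ∈ kids ↔ q ∈ Kept 1 := by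
  obtain ⟨x, y⟩ := q
  simp only [kids, Kept, Pat, box, Finset.mem_erase, Finset.mem_product, Finset.mem_Ico,
    Set.mem_ofPred_eq, pow_one, ne_eq, Prod.mk.injEq, Nat.lt_one_iff, forall_eq, pow_zero,
    Int.ediv_one]
  constructor
  · rintro ⟨h1, ⟨h2, h3⟩, h4, h5⟩
    refine ⟨h2, h3, h4, h5, ?_⟩
    rintro ⟨h6, h7⟩
    exact h1 ⟨by omega, by omega⟩
  · rintro ⟨h2, h3, h4, h5, h6⟩
    refine ⟨?_, ⟨h2, h3⟩, h4, h5⟩
    rintro ⟨rfl, rfl⟩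
    exact h6 ⟨by norm_num, by norm_num⟩

theorem p_kept : S_kept := by
  refine ⟨pa_kept_1, ?_, ?_, ?_, ?_, ?_⟩
  · intro n a
    refine Prod.ext ?_ ?_
    · show (((a.1 / 3 ^ n : ℕ)) : ℤ) = (a.1 : ℤ) / 3 ^ n
      push_cast
      rfl
    · show (((a.2 / 3 ^ n : ℕ)) : ℤ) = (a.2 : ℤ) / 3 ^ n
      push_cast
      rfl
  · intro c'
    rw [pa_kept_kids]
    exact pa_kept_1 1 c'
  · intro a b
    refine Prod.ext ?_ ?_
    · show 3 * (a.1 : ℤ) + (b.1 : ℤ) = ((a.1 * 3 ^ 1 + b.1 : ℕ) : ℤ)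
      push_cast
      ring
    · show 3 * (a.2 : ℤ) + (b.2 : ℤ) = ((a.2 * 3 ^ 1 + b.2 : ℕ) : ℤ)
      push_cast
      ring
  · intro a b h
    have h1 : (a.1 : ℤ) = (b.1 : ℤ) := congrArg Prod.fst h
    have h2 : (a.2 : ℤ) = (b.2 : ℤ) := congrArg Prod.snd h
    exact Prod.ext (by exact_mod_cast h1) (by exact_mod_cast h2)
  · intro R a b
    show _ ↔ max |(a.1 : ℤ) - (b.1 : ℤ)| |(a.2 : ℤ) - (b.2 : ℤ)| ≤ (R : ℤ)
    rw [max_le_iff, abs_le, abs_le]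
    constructor
    · rintro ⟨h1, h2, h3, h4⟩
      exact ⟨⟨by omega, by omega⟩, by omega, by omega⟩
    · rintro ⟨⟨h1, h2⟩, h3, h4⟩
      exact ⟨by omega, by omega, by omega, by omega⟩

end Pool.Agent.Lib.MP_1d263a_an.PA
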