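import Pool.Agent.Lib.MP_1d263a_an.PA.Stm

/-!
# Carpet project, part A, piece mr: the measure of a cell is comparable to diameter ^ p
-/

set_option autoImplicit false

namespace Pool.Agent.Lib.MP_1d263a_an.PA

open MeasureTheory CarpetPI
open scoped ENNReal

theorem pa_mr_I0 : ((0, 0) : ℕ × ℕ) ∈ I 0 := by
  rw [mem_I]
  refine ⟨by norm_num, by norm_num, ?_⟩
  intro j hj
  simp at hj

theorem p_mr (hgeo : S_geo) (_htop : S_top) : S_mr := by
  intro X _ _ _ f H μ p C hp hC hM hAR
  obtain ⟨-, -, -, -, hmid, -, -, hOC, -⟩ := hgeo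
  have hH : 1 ≤ H := hM.one_le
  have hb : Bornology.IsBounded (Set.univ : Set X) := hM.bdd
  have hrad : ∀ (n : ℕ) (a : ℕ × ℕ), rad f n a ≤ Metric.diam (Set.univ : Set X) := fun n a =>
    Metric.diam_mono (Set.subset_univ _) hb
  have hΔ : 0 < Metric.diam (Set.univ : Set X) :=
    (hM.pos 0 (0, 0) pa_mr_I0).trans_le (hrad 0 (0, 0))
  have hfin : IsFiniteMeasure μ := by
    constructor
    have h1 := (hAR (f p0) (Metric.diam (Set.univ : Set X)) hΔ le_rfl).2
    have h2 : Metric.closedBall (f p0) (Metric.diam (Set.univ : Set X)) = Set.univ := by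
      refine Set.eq_univ_of_forall fun y => ?_
      rw [Metric.mem_closedBall]
      exact Metric.dist_le_diam_of_mem hb (Set.mem_univ _) (Set.mem_univ _)
    rw [h2] at h1
    exact h1.trans_lt ENNReal.ofReal_lt_top
  refine ⟨hfin, C * (2 * H) ^ p, ?_, ?_⟩
  · have h1 : (1 : ℝ) ≤ (2 * H) ^ p := Real.one_le_rpow (by linarith) hp.le
    nlinarith
  intro n a ha
  have hpos := hM.pos n a ha
  have h2H : (0 : ℝ) < (2 * H) ^ p := Real.rpow_pos_of_pos (by linarith) p
  have hradp : 0 < rad f n a ^ p := Real.rpow_pos_of_pos hpos p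
  constructor
  · have hr : 0 < rad f n a / (2 * H) := div_pos hpos (by linarith)
    have hr' : rad f n a / (2 * H) ≤ Metric.diam (Set.univ : Set X) := by
      refine le_trans ?_ (hrad n a)
      rw [div_le_iff₀ (by linarith)]
      nlinarith
    have h1 := (hAR (f (mid n a)) (rad f n a / (2 * H)) hr hr').1
    have h2 : Metric.closedBall (f (mid n a)) (rad f n a / (2 * H)) ⊆ f '' Op n a := by
      intro ξ hξ
      rw [Metric.mem_closedBall, dist_comm] at hξ
      refine ⟨f.symm ξ, ?_, f.apply_symm_apply ξ⟩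
      by_contra hy
      have h3 := hM.inn n a ha (f.symm ξ) hy
      rw [f.apply_symm_apply] at h3
      have h4 : H * dist (f (mid n a)) ξ ≤ H * (rad f n a / (2 * H)) :=
        mul_le_mul_of_nonneg_left hξ (by linarith)
      have h5 : H * (rad f n a / (2 * H)) = rad f n a / 2 := by
        field_simp
      linarith
    refine le_trans (le_of_eq ?_) (h1.trans (measure_mono h2))
    congr 1
    rw [Real.div_rpow hpos.le (by linarith), mul_inv]
    ring
  · have h1 := (hAR (f (mid n a)) (rad f n a) hpos (hrad n a)).2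
    have h2 : f '' Cl n a ⊆ Metric.closedBall (f (mid n a)) (rad f n a) := by
      intro ξ hξ
      rw [Metric.mem_closedBall]
      exact Metric.dist_le_diam_of_mem (hb.subset (Set.subset_univ _)) hξ
        (Set.mem_image_of_mem f (hmid n a ha))
    refine (measure_mono h2).trans (h1.trans ?_)
    refine ENNReal.ofReal_le_ofReal ?_
    have h3 : (1 : ℝ) ≤ (2 * H) ^ p := Real.one_le_rpow (by linarith) hp.le
    have h4 : C * 1 ≤ C * (2 * H) ^ p := mul_le_mul_of_nonneg_left h3 (by linarith)
    rw [mul_one] at h4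
    exact mul_le_mul_of_nonneg_right h4 hradp.le

end Pool.Agent.Lib.MP_1d263a_an.PA
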